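import Mathlib

set_option autoImplicit false

/-! # Forms, point counts and normalised traces -/

namespace Pool.Agent.W406.HV

open Finset
open scoped Nat

/-- the exponents of the monomials of degree `D` in `r` variables -/
abbrev Ix (r D : ℕ) : Type := {α : Fin r → Fin (D + 1) // ∑ i, (α i : ℕ) = D}

/-- the value at `x` of the form of degree `D` with coefficients `u` -/
def ev {r D : ℕ} {K : Type} [CommRing K] (u : Ix r D → K) (x : Fin r → K) : K :=
  ∑ α : Ix r D, u α * ∏ i, x i ^ (α.1 i : ℕ)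

/-- the number of nonzero solutions of `F(v) = 0` mod `p` -/
noncomputable def zer {r D : ℕ} (a : Ix r D → ℤ) (p : ℕ) : ℕ :=
  Nat.card {v : Fin r → ZMod p // v ≠ 0 ∧ ev (fun α => (a α : ZMod p)) v = 0}

/-- the normalised trace of the hypersurface `F = 0` of dimension `n` in `P ^ (n + 1)`: the number of
its points mod `p` minus the number of points of `P ^ n`, divided by `p ^ (n / 2)` -/
noncomputable def trH {n D : ℕ} (a : Ix (n + 2) D → ℤ) (p : ℕ) : ℝ :=
  ((zer a p : ℝ) / ((p : ℝ) - 1) - ((p : ℝ) ^ (n + 1) - 1) / ((p : ℝ) - 1)) / √((p : ℝ) ^ n)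

/-- the number of solutions of `w ^ 2 = F(v)`, `v ≠ 0`, mod `p` -/
noncomputable def dzer {r D : ℕ} (a : Ix r D → ℤ) (p : ℕ) : ℕ :=
  Nat.card {z : (Fin r → ZMod p) × ZMod p // z.1 ≠ 0 ∧ z.2 ^ 2 = ev (fun α => (a α : ZMod p)) z.1}

/-- the normalised trace of the double cover `w ^ 2 = F` of `P ^ n`: the number of its points mod `p`
minus the number of points of `P ^ n`, divided by `p ^ (n / 2)` -/
noncomputable def trD {n D : ℕ} (a : Ix (n + 1) D → ℤ) (p : ℕ) : ℝ :=
  ((dzer a p : ℝ) / ((p : ℝ) - 1) - ((p : ℝ) ^ (n + 1) - 1) / ((p : ℝ) - 1)) / √((p : ℝ) ^ n)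

/-- `(m - 1)!!` for even `m` and `0` for odd `m` -/
def mom (m : ℕ) : ℝ := if Even m then ((m - 1)‼ : ℝ) else 0

end Pool.Agent.W406.HV
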