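import Mathlib
import Pool.Agent.W406.HM.Was
import Pool.Agent.W406.HV.Defs

set_option autoImplicit false

/-! # Moments of sums of independent variables: recursion and asymptotics -/

namespace Pool.Agent.W406.HV

open Finset
open scoped Nat

/-- moments `W m n` of sums of `n` independent copies of a centred variable with moments `e j` -/
structure Seq (e : ℕ → ℝ) (W : ℕ → ℕ → ℝ) (ρ : ℝ) : Prop where
  ρ0 : 0 ≤ ρ
  ρ1 : ρ ≤ 1
  e0 : e 0 = 1
  e1 : e 1 = 0
  eb : ∀ j, 2 ≤ j → |e j| ≤ ρ
  W0 : ∀ n, W 0 n = 1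
  Wz : ∀ m, 1 ≤ m → W m 0 = 0
  Ws : ∀ m n, W m (n + 1) = ∑ j ∈ range (m + 1), (m.choose j : ℝ) * e j * W (m - j) n

lemma Seq.inc {e : ℕ → ℝ} {W : ℕ → ℕ → ℝ} {ρ : ℝ} (h : Seq e W ρ) (m n : ℕ) :
    W m (n + 1) = W m n + ∑ j ∈ Icc 2 m, (m.choose j : ℝ) * e j * W (m - j) n := by
  rw [h.Ws]
  have hsub : Icc 2 m ⊆ (range (m + 1)).erase 0 := by
    intro j hj
    rw [mem_Icc] at hj
    rw [mem_erase, mem_range]
    omega
  rw [← add_sum_erase _ _ (mem_range.2 (by omega : 0 < m + 1))]
  simp only [Nat.choose_zero_right, Nat.cast_one, h.e0, mul_one, one_mul, Nat.sub_zero]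
  congr 1
  symm
  apply sum_subset hsub
  intro j hj hj'
  rw [mem_erase, mem_range] at hj
  rw [mem_Icc] at hj'
  have : j = 1 := by omega
  rw [this, h.e1, mul_zero, zero_mul]

lemma Seq.W1 {e : ℕ → ℝ} {W : ℕ → ℕ → ℝ} {ρ : ℝ} (h : Seq e W ρ) (n : ℕ) : W 1 n = 0 := by
  induction n with
  | zero => exact h.Wz 1 le_rfl
  | succ n ih =>
    rw [h.inc, ih]
    simp

lemma Seq.W2 {e : ℕ → ℝ} {W : ℕ → ℕ → ℝ} {ρ : ℝ} (h : Seq e W ρ) (n : ℕ) : W 2 n = e 2 * n := by
  induction n with
  | zero => rw [h.Wz 2 (by norm_num)]; simp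
  | succ n ih =>
    rw [h.inc, ih]
    simp [h.W0]
    ring

/-- upper bound for all moments -/
theorem upper (m : ℕ) : ∃ C : ℝ, 0 ≤ C ∧ ∀ (e : ℕ → ℝ) (W : ℕ → ℕ → ℝ) (ρ : ℝ), Seq e W ρ →
    ∀ n : ℕ, |W m n| ≤ C * (1 + n * ρ) ^ (m / 2) := by
  induction m using Nat.strong_induction_on with
  | _ m ih =>
    rcases Nat.lt_or_ge m 2 with hm | hm
    · refine ⟨1, zero_le_one, ?_⟩
      intro e W ρ h n
      interval_cases m
      · rw [h.W0]; simp
      · rw [h.W1]
        have := h.ρ0
        simp
    · choose! C hC0 hC using ih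
      set K : ℝ := ∑ j ∈ Icc 2 m, (m.choose j : ℝ) * C (m - j) with hK
      have hK0 : 0 ≤ K := by
        rw [hK]
        apply sum_nonneg
        intro j hj
        rw [mem_Icc] at hj
        have := hC0 (m - j) (by omega)
        positivity
      refine ⟨K, hK0, ?_⟩
      intro e W ρ h n
      have hρ0 := h.ρ0
      have key : ∀ n : ℕ, |W m n| ≤ K * (n * ρ) * (1 + n * ρ) ^ (m / 2 - 1) := by
        intro n
        induction n with
        | zero => rw [h.Wz m (by omega)]; simp
        | succ n ihn =>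
          rw [h.inc]
          have b1 : |∑ j ∈ Icc 2 m, (m.choose j : ℝ) * e j * W (m - j) n| ≤
              K * ρ * (1 + n * ρ) ^ (m / 2 - 1) := by
            calc |∑ j ∈ Icc 2 m, (m.choose j : ℝ) * e j * W (m - j) n|
                ≤ ∑ j ∈ Icc 2 m, |(m.choose j : ℝ) * e j * W (m - j) n| := abs_sum_le_sum_abs _ _
              _ ≤ ∑ j ∈ Icc 2 m, (m.choose j : ℝ) * ρ * (C (m - j) * (1 + n * ρ) ^ (m / 2 - 1)) := by
                  apply sum_le_sum
                  intro j hj
                  rw [mem_Icc] at hj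
                  rw [abs_mul, abs_mul, Nat.abs_cast]
                  have hc0 := hC0 (m - j) (by omega)
                  apply mul_le_mul _ _ (abs_nonneg _) (by positivity)
                  · exact mul_le_mul_of_nonneg_left (h.eb j hj.1) (Nat.cast_nonneg _)
                  · refine (hC (m - j) (by omega) e W ρ h n).trans ?_
                    apply mul_le_mul_of_nonneg_left _ hc0
                    apply pow_le_pow_right₀
                    · have : (0 : ℝ) ≤ n * ρ := by positivity
                      linarith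
                    · omega
              _ = _ := by
                  rw [hK, sum_mul, sum_mul]
                  refine sum_congr rfl fun j _ => by ring
          have hstep : (1 + (n : ℝ) * ρ) ^ (m / 2 - 1) ≤ (1 + ((n + 1 : ℕ) : ℝ) * ρ) ^ (m / 2 - 1) := by
            apply pow_le_pow_left₀ (by positivity)
            push_cast
            nlinarith
          calc |W m n + ∑ j ∈ Icc 2 m, (m.choose j : ℝ) * e j * W (m - j) n|
              ≤ K * (n * ρ) * (1 + n * ρ) ^ (m / 2 - 1) + K * ρ * (1 + n * ρ) ^ (m / 2 - 1) :=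
                (abs_add_le _ _).trans (add_le_add ihn b1)
            _ = K * (((n + 1 : ℕ) : ℝ) * ρ) * (1 + n * ρ) ^ (m / 2 - 1) := by
                push_cast
                ring
            _ ≤ _ := mul_le_mul_of_nonneg_left hstep (by positivity)
      have h1 := key n
      have hn0 : (0 : ℝ) ≤ n * ρ := by positivity
      refine h1.trans ?_
      have e1 : m / 2 - 1 + 1 = m / 2 := by omega
      calc K * (n * ρ) * (1 + n * ρ) ^ (m / 2 - 1) ≤ K * (1 + n * ρ) * (1 + n * ρ) ^ (m / 2 - 1) := by
            apply mul_le_mul_of_nonneg_right _ (by positivity)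
            apply mul_le_mul_of_nonneg_left _ hK0
            linarith
        _ = K * ((1 + n * ρ) ^ (m / 2 - 1) * (1 + n * ρ)) := by ring
        _ = _ := by rw [← pow_succ, e1]

open Pool.Agent.W406.HM (pow_diff dfact_succ)

theorem even_asymp (l : ℕ) : ∃ C : ℝ, 0 ≤ C ∧ ∀ (e : ℕ → ℝ) (W : ℕ → ℕ → ℝ) (ρ : ℝ), Seq e W ρ →
    ∀ n : ℕ, |W (2 * l) n - ((2 * l - 1)‼ : ℝ) * (e 2 * n) ^ l| ≤ C * (1 + n * ρ) ^ (l - 1) := by
  induction l using Nat.strong_induction_on with
  | _ l ih =>
    rcases Nat.lt_or_ge l 2 with hl | hl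
    · refine ⟨0, le_refl _, ?_⟩
      intro e W ρ h n
      interval_cases l
      · simp [h.W0]
      · rw [show 2 * 1 = 2 by norm_num, h.W2]
        norm_num
    · choose! C hC0 hC using ih
      choose U hU0 hU using upper
      set a : ℕ → ℝ := fun i => ((2 * i - 1)‼ : ℝ) with ha
      have ha0 : ∀ i, 0 ≤ a i := fun i => by
        simp only [ha]
        positivity
      set K : ℝ := ((2 * l).choose 2 : ℝ) * C (l - 1) +
        ∑ j ∈ Icc 3 (2 * l), ((2 * l).choose j : ℝ) * U (2 * l - j) + a l * (l : ℝ) ^ 2 with hK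
      have hK0 : 0 ≤ K := by
        rw [hK]
        have h1 := hC0 (l - 1) (by omega)
        have h2 : 0 ≤ ∑ j ∈ Icc 3 (2 * l), ((2 * l).choose j : ℝ) * U (2 * l - j) := by
          apply sum_nonneg
          intro j hj
          have := hU0 (2 * l - j)
          positivity
        have := ha0 l
        positivity
      refine ⟨K, hK0, ?_⟩
      intro e W ρ h n
      have hρ0 := h.ρ0
      have hρ1 := h.ρ1
      set v := e 2 with hv
      have hvρ : |v| ≤ ρ := h.eb 2 le_rfl
      -- the increment
      have hinc : ∀ n : ℕ, |(W (2 * l) (n + 1) - a l * (v * ((n + 1 : ℕ) : ℝ)) ^ l) -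
          (W (2 * l) n - a l * (v * n) ^ l)| ≤ K * ρ * (1 + (n : ℝ) * ρ) ^ (l - 2) := by
        intro n
        have hn0 : (0 : ℝ) ≤ n := Nat.cast_nonneg n
        rw [h.inc]
        have hsplit : ∑ j ∈ Icc 2 (2 * l), ((2 * l).choose j : ℝ) * e j * W (2 * l - j) n =
            ((2 * l).choose 2 : ℝ) * v * W (2 * (l - 1)) n +
            ∑ j ∈ Icc 3 (2 * l), ((2 * l).choose j : ℝ) * e j * W (2 * l - j) n := by
          have : Icc 2 (2 * l) = insert 2 (Icc 3 (2 * l)) := by
            ext j
            simp only [mem_Icc, mem_insert]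
            omega
          rw [this, sum_insert (by simp)]
          have : 2 * l - 2 = 2 * (l - 1) := by omega
          rw [this]
        rw [hsplit]
        have hd := dfact_succ l (by omega)
        have e1 : l - 1 + 1 = l := by omega
        have hvl : v ^ l = v * v ^ (l - 1) := by rw [← pow_succ', e1]
        have key : (W (2 * l) n + (((2 * l).choose 2 : ℝ) * v * W (2 * (l - 1)) n +
            ∑ j ∈ Icc 3 (2 * l), ((2 * l).choose j : ℝ) * e j * W (2 * l - j) n) -
            a l * (v * ((n + 1 : ℕ) : ℝ)) ^ l) - (W (2 * l) n - a l * (v * n) ^ l) =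
            v * (((2 * l).choose 2 : ℝ) * (W (2 * (l - 1)) n - a (l - 1) * (v * n) ^ (l - 1))) +
            ∑ j ∈ Icc 3 (2 * l), ((2 * l).choose j : ℝ) * e j * W (2 * l - j) n -
            v ^ l * (a l * (((n : ℝ) + 1) ^ l - (n : ℝ) ^ l - l * (n : ℝ) ^ (l - 1))) := by
          have h3 : ((2 * l).choose 2 : ℝ) * a (l - 1) = l * a l := hd
          push_cast
          rw [mul_pow, mul_pow, mul_pow]
          have h4 : v * ((2 * l).choose 2 : ℝ) * (a (l - 1) * (v ^ (l - 1) * (n : ℝ) ^ (l - 1))) =
              a l * v ^ l * (l * (n : ℝ) ^ (l - 1)) := by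
            rw [hvl]
            calc v * ((2 * l).choose 2 : ℝ) * (a (l - 1) * (v ^ (l - 1) * (n : ℝ) ^ (l - 1)))
                = (((2 * l).choose 2 : ℝ) * a (l - 1)) * (v * v ^ (l - 1)) * (n : ℝ) ^ (l - 1) := by ring
              _ = _ := by rw [h3]; ring
          linear_combination h4
        rw [key]
        set P : ℝ := (1 + (n : ℝ) * ρ) ^ (l - 2) with hP
        have hP0 : 0 ≤ P := by positivity
        have b1 : |v * (((2 * l).choose 2 : ℝ) * (W (2 * (l - 1)) n - a (l - 1) * (v * n) ^ (l - 1)))| ≤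
            ((2 * l).choose 2 : ℝ) * C (l - 1) * ρ * P := by
          have h5 := hC (l - 1) (by omega) e W ρ h n
          have h6 : l - 1 - 1 = l - 2 := by omega
          rw [h6] at h5
          have hc0 := hC0 (l - 1) (by omega)
          rw [abs_mul, abs_mul, Nat.abs_cast]
          calc |v| * (((2 * l).choose 2 : ℝ) * |W (2 * (l - 1)) n - a (l - 1) * (v * n) ^ (l - 1)|)
              ≤ ρ * (((2 * l).choose 2 : ℝ) * (C (l - 1) * P)) := by
                apply mul_le_mul hvρ _ (by positivity) hρ0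
                exact mul_le_mul_of_nonneg_left h5 (Nat.cast_nonneg _)
            _ = _ := by ring
        have b2 : |∑ j ∈ Icc 3 (2 * l), ((2 * l).choose j : ℝ) * e j * W (2 * l - j) n| ≤
            (∑ j ∈ Icc 3 (2 * l), ((2 * l).choose j : ℝ) * U (2 * l - j)) * ρ * P := by
          calc |∑ j ∈ Icc 3 (2 * l), ((2 * l).choose j : ℝ) * e j * W (2 * l - j) n|
              ≤ ∑ j ∈ Icc 3 (2 * l), |((2 * l).choose j : ℝ) * e j * W (2 * l - j) n| :=
                abs_sum_le_sum_abs _ _
            _ ≤ ∑ j ∈ Icc 3 (2 * l), ((2 * l).choose j : ℝ) * ρ * (U (2 * l - j) * P) := by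
                apply sum_le_sum
                intro j hj
                rw [mem_Icc] at hj
                rw [abs_mul, abs_mul, Nat.abs_cast]
                have hc0 := hU0 (2 * l - j)
                apply mul_le_mul _ _ (abs_nonneg _) (by positivity)
                · exact mul_le_mul_of_nonneg_left (h.eb j (by omega)) (Nat.cast_nonneg _)
                · refine (hU (2 * l - j) e W ρ h n).trans ?_
                  apply mul_le_mul_of_nonneg_left _ hc0
                  apply pow_le_pow_right₀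
                  · have : (0 : ℝ) ≤ n * ρ := by positivity
                    linarith
                  · omega
            _ = _ := by
                rw [sum_mul, sum_mul]
                refine sum_congr rfl fun j _ => by ring
        have b3 : |v ^ l * (a l * (((n : ℝ) + 1) ^ l - (n : ℝ) ^ l - l * (n : ℝ) ^ (l - 1)))| ≤
            a l * (l : ℝ) ^ 2 * ρ * P := by
          obtain ⟨h8, h9⟩ := pow_diff l hl (n : ℝ) hn0
          have hal := ha0 l
          rw [abs_mul, abs_pow, abs_of_nonneg (mul_nonneg hal h8)]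
          have hvl1 : |v| ^ l ≤ ρ * ρ ^ (l - 2) := by
            calc |v| ^ l ≤ ρ ^ l := pow_le_pow_left₀ (abs_nonneg _) hvρ _
              _ = ρ * ρ * ρ ^ (l - 2) := by
                  rw [← sq, ← pow_add]
                  congr 1
                  omega
              _ ≤ ρ * 1 * ρ ^ (l - 2) := by
                  apply mul_le_mul_of_nonneg_right _ (by positivity)
                  exact mul_le_mul_of_nonneg_left hρ1 hρ0
              _ = _ := by ring
          have hρP : ρ ^ (l - 2) * ((n : ℝ) + 1) ^ (l - 2) ≤ P := by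
            rw [← mul_pow]
            apply pow_le_pow_left₀ (by positivity)
            nlinarith
          calc |v| ^ l * (a l * (((n : ℝ) + 1) ^ l - (n : ℝ) ^ l - l * (n : ℝ) ^ (l - 1)))
              ≤ (ρ * ρ ^ (l - 2)) * (a l * ((l : ℝ) ^ 2 * ((n : ℝ) + 1) ^ (l - 2))) := by
                apply mul_le_mul hvl1 _ (mul_nonneg hal h8) (by positivity)
                exact mul_le_mul_of_nonneg_left h9 hal
            _ = a l * (l : ℝ) ^ 2 * ρ * (ρ ^ (l - 2) * ((n : ℝ) + 1) ^ (l - 2)) := by ring
            _ ≤ _ := mul_le_mul_of_nonneg_left hρP (by positivity)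
        calc _ ≤ |v * (((2 * l).choose 2 : ℝ) * (W (2 * (l - 1)) n - a (l - 1) * (v * n) ^ (l - 1)))| +
              |∑ j ∈ Icc 3 (2 * l), ((2 * l).choose j : ℝ) * e j * W (2 * l - j) n| +
              |v ^ l * (a l * (((n : ℝ) + 1) ^ l - (n : ℝ) ^ l - l * (n : ℝ) ^ (l - 1)))| := by
              refine (abs_sub _ _).trans ?_
              exact add_le_add (abs_add_le _ _) le_rfl
          _ ≤ ((2 * l).choose 2 : ℝ) * C (l - 1) * ρ * P +
              (∑ j ∈ Icc 3 (2 * l), ((2 * l).choose j : ℝ) * U (2 * l - j)) * ρ * P +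
              a l * (l : ℝ) ^ 2 * ρ * P := add_le_add (add_le_add b1 b2) b3
          _ = K * ρ * P := by rw [hK]; ring
      have hsum : ∀ n : ℕ, |W (2 * l) n - a l * (v * n) ^ l| ≤
          K * ((n : ℝ) * ρ) * (1 + (n : ℝ) * ρ) ^ (l - 2) := by
        intro n
        induction n with
        | zero =>
          rw [h.Wz _ (by omega)]
          have : l ≠ 0 := by omega
          simp [this]
        | succ n ihn =>
          have hn0 : (0 : ℝ) ≤ n := Nat.cast_nonneg n
          have h1 := hinc n
          have hstep : (1 + (n : ℝ) * ρ) ^ (l - 2) ≤ (1 + ((n + 1 : ℕ) : ℝ) * ρ) ^ (l - 2) := by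
            apply pow_le_pow_left₀ (by positivity)
            push_cast
            nlinarith
          calc |W (2 * l) (n + 1) - a l * (v * ((n + 1 : ℕ) : ℝ)) ^ l|
              = |((W (2 * l) (n + 1) - a l * (v * ((n + 1 : ℕ) : ℝ)) ^ l) -
                (W (2 * l) n - a l * (v * n) ^ l)) + (W (2 * l) n - a l * (v * n) ^ l)| := by
                congr 1; ring
            _ ≤ K * ρ * (1 + (n : ℝ) * ρ) ^ (l - 2) + K * ((n : ℝ) * ρ) * (1 + (n : ℝ) * ρ) ^ (l - 2) :=
                (abs_add_le _ _).trans (add_le_add h1 ihn)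
            _ = K * (((n + 1 : ℕ) : ℝ) * ρ) * (1 + (n : ℝ) * ρ) ^ (l - 2) := by
                push_cast
                ring
            _ ≤ _ := mul_le_mul_of_nonneg_left hstep (by positivity)
      have hn0 : (0 : ℝ) ≤ n * ρ := by positivity
      refine (hsum n).trans ?_
      have e1 : l - 2 + 1 = l - 1 := by omega
      calc K * (n * ρ) * (1 + n * ρ) ^ (l - 2) ≤ K * (1 + n * ρ) * (1 + n * ρ) ^ (l - 2) := by
            apply mul_le_mul_of_nonneg_right _ (by positivity)
            apply mul_le_mul_of_nonneg_left _ hK0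
            linarith
        _ = K * ((1 + n * ρ) ^ (l - 2) * (1 + n * ρ)) := by ring
        _ = _ := by rw [← pow_succ, e1]

lemma mom_nonneg (m : ℕ) : 0 ≤ mom m := by
  unfold mom
  split_ifs
  · positivity
  · exact le_refl _

/-- the normalised moments -/
theorem normal (m : ℕ) : ∃ C : ℝ, 0 ≤ C ∧ ∀ (e : ℕ → ℝ) (W : ℕ → ℕ → ℝ) (ρ : ℝ), Seq e W ρ →
    ∀ (n : ℕ) (q Q : ℝ), 1 ≤ q → q ≤ Q → n * ρ ≤ 2 * Q → |e 2 * n / Q - 1| ≤ 1 / q →
    |W m n / √Q ^ m - mom m| ≤ C / √q := by
  obtain ⟨U, hU0, hU⟩ := upper m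
  rcases Nat.even_or_odd' m with ⟨l, rfl | rfl⟩
  · -- even
    obtain ⟨C, hC0, hC⟩ := even_asymp l
    set a : ℝ := ((2 * l - 1)‼ : ℝ) with ha
    have ha0 : 0 ≤ a := by rw [ha]; positivity
    refine ⟨C * 3 ^ (l - 1) + a * l * 2 ^ l, by positivity, ?_⟩
    intro e W ρ h n q Q hq hqQ hn hv
    have hρ0 := h.ρ0
    have hq0 : 0 < q := by linarith
    have hQ0 : 0 < Q := by linarith
    have hmom : mom (2 * l) = a := by
      unfold mom
      rw [if_pos (by simp)]
    have hsq : √q ≤ q := by
      rw [Real.sqrt_le_left (by linarith)]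
      nlinarith
    have hsq0 : 0 < √q := Real.sqrt_pos.2 hq0
    have hqq : 1 / q ≤ 1 / √q := one_div_le_one_div_of_le hsq0 hsq
    rw [hmom, pow_mul, Real.sq_sqrt hQ0.le]
    set t : ℝ := e 2 * n / Q with ht
    have ht1 : |t| ≤ 2 := by
      have h1 : 1 / q ≤ 1 := by
        rw [div_le_one hq0]
        exact hq
      calc |t| = |(t - 1) + 1| := by ring_nf
        _ ≤ |t - 1| + |1| := abs_add_le _ _
        _ ≤ 2 := by rw [abs_one]; linarith
    have hpow : |t ^ l - 1| ≤ l * 2 ^ l * |t - 1| := by
      have key : ∀ k : ℕ, |t ^ k - 1| ≤ k * 2 ^ k * |t - 1| := by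
        intro k
        induction k with
        | zero => simp
        | succ k ihk =>
          have e1 : t ^ (k + 1) - 1 = (t ^ k - 1) * t + (t - 1) := by ring
          rw [e1]
          have h2 : (1 : ℝ) ≤ 2 ^ (k + 1) := one_le_pow₀ (by norm_num)
          calc |(t ^ k - 1) * t + (t - 1)| ≤ |t ^ k - 1| * |t| + |t - 1| := by
                rw [← abs_mul]; exact abs_add_le _ _
            _ ≤ (k * 2 ^ k * |t - 1|) * 2 + 2 ^ (k + 1) * |t - 1| := by
                apply add_le_add
                · exact mul_le_mul ihk ht1 (abs_nonneg _) (by positivity)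
                · nlinarith [abs_nonneg (t - 1)]
            _ = _ := by push_cast; ring
      exact key l
    have hQl : 0 < Q ^ l := by positivity
    have e2 : W (2 * l) n / Q ^ l - a = (W (2 * l) n - a * (e 2 * n) ^ l) / Q ^ l + a * (t ^ l - 1) := by
      rw [ht, div_pow]
      field_simp
      ring
    rw [e2]
    have b1 : |(W (2 * l) n - a * (e 2 * n) ^ l) / Q ^ l| ≤ C * 3 ^ (l - 1) / √q := by
      rcases Nat.eq_zero_or_pos l with hl0 | hl0
      · have : W (2 * l) n - a * (e 2 * n) ^ l = 0 := by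
          rw [ha, hl0]
          simp [h.W0]
        rw [this, zero_div, abs_zero]
        positivity
      · rw [abs_div, abs_of_pos hQl, div_le_iff₀ hQl]
        refine (hC e W ρ h n).trans ?_
        have e3 : Q ^ l = Q ^ (l - 1) * Q := by
          rw [← pow_succ]
          congr 1
          omega
        have h3 : (1 + (n : ℝ) * ρ) ^ (l - 1) ≤ 3 ^ (l - 1) * Q ^ (l - 1) := by
          rw [← mul_pow]
          apply pow_le_pow_left₀ (by positivity)
          linarith
        have h4 : 1 ≤ 1 / √q * Q := by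
          rw [one_div, inv_mul_eq_div, le_div_iff₀ hsq0]
          linarith
        calc C * (1 + (n : ℝ) * ρ) ^ (l - 1) ≤ C * (3 ^ (l - 1) * Q ^ (l - 1)) :=
              mul_le_mul_of_nonneg_left h3 hC0
          _ = C * (3 ^ (l - 1) * Q ^ (l - 1)) * 1 := by ring
          _ ≤ C * (3 ^ (l - 1) * Q ^ (l - 1)) * (1 / √q * Q) :=
              mul_le_mul_of_nonneg_left h4 (by positivity)
          _ = _ := by rw [e3]; ring
    have b2 : |a * (t ^ l - 1)| ≤ a * l * 2 ^ l / √q := by
      rw [abs_mul, abs_of_nonneg ha0]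
      calc a * |t ^ l - 1| ≤ a * (l * 2 ^ l * |t - 1|) := mul_le_mul_of_nonneg_left hpow ha0
        _ ≤ a * (l * 2 ^ l * (1 / √q)) := by
            apply mul_le_mul_of_nonneg_left _ ha0
            apply mul_le_mul_of_nonneg_left _ (by positivity)
            exact hv.trans hqq
        _ = _ := by ring
    calc _ ≤ _ := abs_add_le _ _
      _ ≤ C * 3 ^ (l - 1) / √q + a * l * 2 ^ l / √q := add_le_add b1 b2
      _ = _ := by ring
  · -- odd
    refine ⟨U * 3 ^ l, by positivity, ?_⟩
    intro e W ρ h n q Q hq hqQ hn hv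
    have hρ0 := h.ρ0
    have hq0 : 0 < q := by linarith
    have hQ0 : 0 < Q := by linarith
    have hmom : mom (2 * l + 1) = 0 := by
      unfold mom
      rw [if_neg]
      simp
    have hsqQ : 0 < √Q := Real.sqrt_pos.2 hQ0
    rw [hmom, sub_zero, pow_succ, pow_mul, Real.sq_sqrt hQ0.le, abs_div,
      abs_of_pos (by positivity : 0 < Q ^ l * √Q)]
    have h1 := hU e W ρ h n
    have e1 : (2 * l + 1) / 2 = l := by omega
    rw [e1] at h1
    have h3 : (1 + (n : ℝ) * ρ) ^ l ≤ 3 ^ l * Q ^ l := by
      rw [← mul_pow]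
      apply pow_le_pow_left₀ (by positivity)
      linarith
    calc |W (2 * l + 1) n| / (Q ^ l * √Q) ≤ (U * (3 ^ l * Q ^ l)) / (Q ^ l * √Q) := by
          apply div_le_div_of_nonneg_right _ (by positivity)
          exact h1.trans (mul_le_mul_of_nonneg_left h3 hU0)
      _ = U * 3 ^ l / √Q := by
          field_simp
      _ ≤ U * 3 ^ l / √q := by
          apply div_le_div_of_nonneg_left (by positivity) (Real.sqrt_pos.2 hq0)
          exact Real.sqrt_le_sqrt hqQ

end Pool.Agent.W406.HV
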