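import Mathlib
import Pool.Agent.W406.HV.Rec
import Pool.Agent.W406.HM.Per

set_option autoImplicit false

/-! # The values of a random form of degree `D` at `D + 1` points are independent -/

namespace Pool.Agent.W406.HV

open Finset
open scoped LinearAlgebra.Projectivization

section ring

variable {r D : ℕ} {K : Type} [CommRing K]

lemma ev_add (u v : Ix r D → K) (x : Fin r → K) : ev (u + v) x = ev u x + ev v x := by
  unfold ev
  rw [← sum_add_distrib]
  refine sum_congr rfl fun α _ => ?_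
  rw [Pi.add_apply, add_mul]

lemma ev_zero (x : Fin r → K) : ev (0 : Ix r D → K) x = 0 := by
  unfold ev
  simp

lemma ev_smul_left (c : K) (u : Ix r D → K) (x : Fin r → K) : ev (c • u) x = c * ev u x := by
  unfold ev
  rw [mul_sum]
  refine sum_congr rfl fun α _ => ?_
  rw [Pi.smul_apply, smul_eq_mul, mul_assoc]

lemma ev_sum {τ : Type} (s : Finset τ) (u : τ → Ix r D → K) (x : Fin r → K) :
    ev (∑ t ∈ s, u t) x = ∑ t ∈ s, ev (u t) x := by
  classical
  induction s using Finset.induction_on with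
  | empty => simp [ev_zero]
  | insert a s ha ih => rw [sum_insert ha, sum_insert ha, ev_add, ih]

lemma ev_smul (u : Ix r D → K) (c : K) (x : Fin r → K) : ev u (c • x) = c ^ D * ev u x := by
  unfold ev
  rw [mul_sum]
  refine sum_congr rfl fun α _ => ?_
  have h : ∏ i, (c • x) i ^ (α.1 i : ℕ) = c ^ D * ∏ i, x i ^ (α.1 i : ℕ) := by
    have h1 : ∀ i, (c • x) i ^ (α.1 i : ℕ) = c ^ (α.1 i : ℕ) * x i ^ (α.1 i : ℕ) := by
      intro i
      rw [Pi.smul_apply, smul_eq_mul, mul_pow]
    rw [prod_congr rfl (fun i _ => h1 i), prod_mul_distrib, prod_pow_eq_pow_sum, α.2]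
  rw [h]
  ring

lemma ev_map {K' : Type} [CommRing K'] (f : K →+* K') (u : Ix r D → K) (x : Fin r → K) :
    f (ev u x) = ev (fun α => f (u α)) (fun i => f (x i)) := by
  unfold ev
  rw [map_sum]
  refine sum_congr rfl fun α _ => ?_
  rw [map_mul, map_prod]
  simp_rw [map_pow]

/-- homogeneous polynomials are forms in our sense -/
lemma exists_ev (φ : MvPolynomial (Fin r) K) (hφ : φ.IsHomogeneous D) :
    ∃ u : Ix r D → K, ∀ x, ev u x = MvPolynomial.eval x φ := by
  classical
  set g : Ix r D → (Fin r →₀ ℕ) := fun α => Finsupp.equivFunOnFinite.symm (fun i => (α.1 i : ℕ)) with hg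
  have hgi : Function.Injective g := by
    intro α β h
    apply Subtype.ext
    funext i
    have := DFunLike.congr_fun h i
    simp only [hg, Finsupp.equivFunOnFinite_symm_apply_apply] at this
    exact Fin.ext this
  refine ⟨fun α => φ.coeff (g α), fun x => ?_⟩
  rw [MvPolynomial.eval_eq']
  unfold ev
  have h1 : ∑ α : Ix r D, φ.coeff (g α) * ∏ i, x i ^ (α.1 i : ℕ) =
      ∑ s ∈ univ.image g, φ.coeff s * ∏ i, x i ^ s i := by
    rw [sum_image (fun a _ b _ h => hgi h)]
    rfl
  rw [h1]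
  symm
  apply sum_subset
  · intro s hs
    have hc : φ.coeff s ≠ 0 := MvPolynomial.mem_support_iff.1 hs
    have hd : s.degree = D := by
      by_contra hne
      exact hc (hφ.coeff_eq_zero hne)
    have hsum : ∑ i, s i = D := by
      rw [← hd, Finsupp.degree_eq_sum]
    have hlt : ∀ i, s i < D + 1 := by
      intro i
      have : s i ≤ ∑ i, s i := single_le_sum (f := fun i => s i) (fun _ _ => Nat.zero_le _) (mem_univ i)
      omega
    refine mem_image.2 ⟨⟨fun i => ⟨s i, hlt i⟩, hsum⟩, mem_univ _, ?_⟩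
    ext i
    simp [hg]
  · intro s _ hs
    have hc : φ.coeff s = 0 := by
      by_contra h
      exact hs (MvPolynomial.mem_support_iff.2 h)
    rw [hc, zero_mul]

end ring

section field

variable {r D : ℕ} {K : Type} [Field K]

/-- the linear polynomial of a functional -/
noncomputable def lin (f : (Fin r → K) →ₗ[K] K) : MvPolynomial (Fin r) K :=
  ∑ i, MvPolynomial.C (f (Pi.single i 1)) * MvPolynomial.X i

lemma lin_hom (f : (Fin r → K) →ₗ[K] K) : (lin f).IsHomogeneous 1 := by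
  unfold lin
  apply MvPolynomial.IsHomogeneous.sum
  intro i _
  exact MvPolynomial.isHomogeneous_C_mul_X _ _

lemma lin_eval (f : (Fin r → K) →ₗ[K] K) (x : Fin r → K) : MvPolynomial.eval x (lin f) = f x := by
  unfold lin
  rw [map_sum]
  have h : x = ∑ i, x i • (Pi.single i 1 : Fin r → K) := by
    ext j
    simp [Finset.sum_apply, Pi.single_apply]
  conv_rhs => rw [h]
  rw [map_sum]
  refine sum_congr rfl fun i _ => ?_
  rw [map_mul, MvPolynomial.eval_C, MvPolynomial.eval_X, map_smul, smul_eq_mul, mul_comm]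

/-- separation of two points -/
lemma sep {P Q : ℙ K (Fin r → K)} (h : Q ≠ P) :
    ∃ f : (Fin r → K) →ₗ[K] K, f Q.rep = 0 ∧ f P.rep ≠ 0 := by
  have h1 : P.rep ∉ Submodule.span K {Q.rep} := by
    intro hmem
    obtain ⟨c, hc⟩ := Submodule.mem_span_singleton.1 hmem
    apply h
    rw [← P.mk_rep, ← Q.mk_rep, Projectivization.mk_eq_mk_iff']
    have hc0 : c ≠ 0 := by
      rintro rfl
      rw [zero_smul] at hc
      exact P.rep_nonzero hc.symm
    exact ⟨c⁻¹, by rw [← hc, smul_smul, inv_mul_cancel₀ hc0, one_smul]⟩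
  obtain ⟨f, hf1, hf2⟩ := Submodule.exists_le_ker_of_notMem h1
  refine ⟨f, ?_, hf1⟩
  exact hf2 (Submodule.mem_span_singleton_self _)

lemma sep' (P : ℙ K (Fin r → K)) : ∃ f : (Fin r → K) →ₗ[K] K, f P.rep ≠ 0 := by
  have h1 : P.rep ∉ (⊥ : Submodule K (Fin r → K)) := by
    rw [Submodule.mem_bot]
    exact P.rep_nonzero
  obtain ⟨f, hf1, _⟩ := Submodule.exists_le_ker_of_notMem h1
  exact ⟨f, hf1⟩

/-- interpolation -/
lemma single_form (T : Finset (ℙ K (Fin r → K))) (hT : T.card ≤ D + 1) (P : ℙ K (Fin r → K)) (hP : P ∈ T) :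
    ∃ u : Ix r D → K, ev u P.rep = 1 ∧ ∀ Q ∈ T, Q ≠ P → ev u Q.rep = 0 := by
  classical
  have hs : ∀ Q : ℙ K (Fin r → K), ∃ f : (Fin r → K) →ₗ[K] K, (Q ≠ P → f Q.rep = 0) ∧ f P.rep ≠ 0 := by
    intro Q
    by_cases h : Q = P
    · obtain ⟨f, hf⟩ := sep' P
      exact ⟨f, fun h' => absurd h h', hf⟩
    · obtain ⟨f, hf1, hf2⟩ := sep h
      exact ⟨f, fun _ => hf1, hf2⟩
  choose f hf1 hf2 using hs
  set φ : MvPolynomial (Fin r) K := (∏ Q ∈ T.erase P, lin (f Q)) * (lin (f P)) ^ (D - (T.erase P).card)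
    with hφ
  have hc : (T.erase P).card ≤ D := by
    rw [card_erase_of_mem hP]
    omega
  have hhom : φ.IsHomogeneous D := by
    have h1 : (∏ Q ∈ T.erase P, lin (f Q)).IsHomogeneous (T.erase P).card := by
      have := MvPolynomial.IsHomogeneous.prod (T.erase P) (fun Q => lin (f Q)) (fun _ => 1)
        (fun Q _ => lin_hom (f Q))
      simpa using this
    have h2 : ((lin (f P)) ^ (D - (T.erase P).card)).IsHomogeneous (D - (T.erase P).card) := by
      have := (lin_hom (f P)).pow (D - (T.erase P).card)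
      simpa using this
    have h3 := h1.mul h2
    have e : (T.erase P).card + (D - (T.erase P).card) = D := by omega
    rw [e] at h3
    exact h3
  obtain ⟨u, hu⟩ := exists_ev φ hhom
  have hPne : MvPolynomial.eval P.rep φ ≠ 0 := by
    rw [hφ, map_mul, map_prod, map_pow]
    apply mul_ne_zero
    · rw [prod_ne_zero_iff]
      intro Q _
      rw [lin_eval]
      exact hf2 Q
    · apply pow_ne_zero
      rw [lin_eval]
      exact hf2 P
  have hQz : ∀ Q ∈ T, Q ≠ P → MvPolynomial.eval Q.rep φ = 0 := by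
    intro Q hQ hne
    rw [hφ, map_mul, map_prod]
    rw [prod_eq_zero (mem_erase.2 ⟨hne, hQ⟩), zero_mul]
    rw [lin_eval]
    exact hf1 Q hne
  refine ⟨(MvPolynomial.eval P.rep φ)⁻¹ • u, ?_, ?_⟩
  · rw [ev_smul_left, hu, inv_mul_cancel₀ hPne]
  · intro Q hQ hne
    rw [ev_smul_left, hu, hQz Q hQ hne, mul_zero]

/-- the values at the points of `T` -/
noncomputable def evl (D : ℕ) (T : Finset (ℙ K (Fin r → K))) : (Ix r D → K) →+ (T → K) where
  toFun u := fun P => ev u P.1.rep
  map_zero' := by funext P; exact ev_zero _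
  map_add' u v := by funext P; exact ev_add _ _ _

lemma evl_surj (T : Finset (ℙ K (Fin r → K))) (hT : T.card ≤ D + 1) :
    Function.Surjective (evl D T) := by
  classical
  intro w
  have hs : ∀ P : T, ∃ u : Ix r D → K, ev u P.1.rep = 1 ∧ ∀ Q ∈ T, Q ≠ P.1 → ev u Q.rep = 0 :=
    fun P => single_form T hT P.1 P.2
  choose u hu1 hu2 using hs
  refine ⟨∑ P : T, w P • u P, ?_⟩
  funext Q
  show ev (∑ P : T, w P • u P) Q.1.rep = w Q
  rw [ev_sum]
  rw [sum_eq_single Q]
  · rw [ev_smul_left, hu1, mul_one]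
  · intro P _ hne
    rw [ev_smul_left, hu2 P Q.1 Q.2 (fun h => hne (Subtype.ext h.symm)), mul_zero]
  · intro h
    exact absurd (mem_univ _) h

end field

section gen

variable {F : Type} [Fintype F] [Nonempty F]

/-- the `m`-th moment of a sum of `n` independent values of `c` -/
noncomputable def W (c : F → ℝ) (m n : ℕ) : ℝ :=
  (∑ ω : Fin n → F, (∑ i, c (ω i)) ^ m) / (Fintype.card F : ℝ) ^ n

/-- the mean of `c ^ j` -/
noncomputable def ej (c : F → ℝ) (j : ℕ) : ℝ := (∑ u : F, c u ^ j) / (Fintype.card F : ℝ)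

lemma q_pos' (F : Type) [Fintype F] [Nonempty F] : (0 : ℝ) < Fintype.card F := by
  have : 0 < Fintype.card F := Fintype.card_pos
  exact_mod_cast this

lemma W_zero_left (c : F → ℝ) (n : ℕ) : W c 0 n = 1 := by
  unfold W
  have h := q_pos' F
  simp only [pow_zero, sum_const, card_univ, nsmul_eq_mul, mul_one, Fintype.card_fun, Fintype.card_fin]
  push_cast
  exact div_self (by positivity)

lemma W_zero_right (c : F → ℝ) (m : ℕ) (hm : 1 ≤ m) : W c m 0 = 0 := by
  unfold W
  simp
  omega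

lemma W_succ (c : F → ℝ) (m n : ℕ) :
    W c m (n + 1) = ∑ j ∈ range (m + 1), (m.choose j : ℝ) * ej c j * W c (m - j) n := by
  have h := q_pos' F
  have h1 : ∑ ω : Fin (n + 1) → F, (∑ i, c (ω i)) ^ m =
      ∑ u : F, ∑ ω : Fin n → F, (c u + ∑ i, c (ω i)) ^ m := by
    rw [← Equiv.sum_comp (Fin.consEquiv (fun _ => F)), Fintype.sum_prod_type]
    refine sum_congr rfl fun u _ => sum_congr rfl fun ω _ => ?_
    rw [Fin.sum_univ_succ]
    simp [Fin.consEquiv]
  have h2 : ∀ (u : F) (ω : Fin n → F), (c u + ∑ i, c (ω i)) ^ m =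
      ∑ j ∈ range (m + 1), (m.choose j : ℝ) * (c u ^ j * (∑ i, c (ω i)) ^ (m - j)) := by
    intro u ω
    rw [add_pow]
    refine sum_congr rfl fun j _ => by ring
  unfold W
  rw [h1]
  simp_rw [h2]
  rw [sum_congr rfl (fun u _ => sum_comm), sum_comm, sum_div]
  refine sum_congr rfl fun j _ => ?_
  unfold ej
  simp_rw [← mul_sum]
  rw [← sum_mul, pow_succ]
  field_simp

/-- the sequence of moments satisfies the axioms -/
lemma seq (c : F → ℝ) (hc : ∀ u, |c u| ≤ 1) (h1 : ∑ u, c u = 0) (ρ : ℝ) (hρ : ej c 2 ≤ ρ) (hρ1 : ρ ≤ 1) :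
    Seq (ej c) (W c) ρ := by
  have h := q_pos' F
  have h20 : 0 ≤ ej c 2 := by
    unfold ej
    positivity
  refine ⟨h20.trans hρ, hρ1, ?_, ?_, ?_, W_zero_left c, W_zero_right c, W_succ c⟩
  · unfold ej
    simp only [pow_zero, sum_const, card_univ, nsmul_eq_mul, mul_one]
    exact div_self h.ne'
  · unfold ej
    simp only [pow_one]
    rw [h1, zero_div]
  · intro j hj
    refine le_trans ?_ hρ
    unfold ej
    rw [abs_div, abs_of_pos h]
    apply div_le_div_of_nonneg_right _ h.le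
    refine (abs_sum_le_sum_abs _ _).trans ?_
    apply sum_le_sum
    intro u _
    rw [abs_pow, ← sq_abs (c u)]
    exact pow_le_pow_of_le_one (abs_nonneg _) (hc u) hj

/-- `W` over an arbitrary index type -/
lemma W_univ (c : F → ℝ) (Ω : Type) [Fintype Ω] [DecidableEq Ω] (m : ℕ) : W c m (Fintype.card Ω) =
    (∑ ω : Ω → F, (∑ x, c (ω x)) ^ m) / (Fintype.card (Ω → F) : ℝ) := by
  unfold W
  have e := Fintype.equivFin Ω
  rw [← Equiv.sum_comp (Equiv.arrowCongr e (Equiv.refl F))]
  congr 1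
  · refine sum_congr rfl fun ω _ => ?_
    congr 1
    rw [← Equiv.sum_comp e]
    refine sum_congr rfl fun x _ => ?_
    simp
  · rw [Fintype.card_fun]
    push_cast
    rfl

end gen

section tie

variable {r D : ℕ} {K : Type} [Field K] [Fintype K] [DecidableEq K]

/-- the restriction of functions to `Y` -/
def rst {Ω : Type} (Y : Finset Ω) : (Ω → K) →+ (Y → K) where
  toFun ω := fun y => ω y
  map_zero' := rfl
  map_add' _ _ := rfl

omit [Fintype K] [DecidableEq K] in
lemma rst_surj {Ω : Type} (Y : Finset Ω) : Function.Surjective (rst (K := K) Y) := by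
  classical
  intro w
  refine ⟨fun y => if h : y ∈ Y then w ⟨y, h⟩ else 0, ?_⟩
  funext y
  show (if h : (y : Ω) ∈ Y then w ⟨y, h⟩ else 0) = w y
  rw [dif_pos y.2]

noncomputable instance instFP : Fintype (ℙ K (Fin r → K)) := Fintype.ofFinite _
noncomputable instance instDP : DecidableEq (ℙ K (Fin r → K)) := Classical.decEq _

open Pool.Agent.W406.HM (sum_surj)

/-- the moments of the sums over the projective space -/
lemma moment_tie (c : K → ℝ) (m : ℕ) (hm : m ≤ D + 1) :
    (∑ u : Ix r D → K, (∑ P : ℙ K (Fin r → K), c (ev u P.rep)) ^ m) /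
      (Fintype.card (Ix r D → K) : ℝ) = W c m (Fintype.card (ℙ K (Fin r → K))) := by
  rw [W_univ]
  set Ω := ℙ K (Fin r → K) with hΩ
  have hV : (Fintype.card (Ix r D → K) : ℝ) ≠ 0 := by
    have : 0 < Fintype.card (Ix r D → K) := Fintype.card_pos
    exact_mod_cast this.ne'
  have hV' : (Fintype.card (Ω → K) : ℝ) ≠ 0 := by
    have : 0 < Fintype.card (Ω → K) := Fintype.card_pos
    exact_mod_cast this.ne'
  have hexp : ∀ h : Ω → K, (∑ x, c (h x)) ^ m = ∑ t : Fin m → Ω, ∏ i, c (h (t i)) := by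
    intro h
    have := Finset.prod_univ_sum (fun _ : Fin m => (univ : Finset Ω)) (fun _ x => c (h x))
    rw [prod_const, card_univ, Fintype.card_fin] at this
    rw [this]
    simp
  rw [sum_congr rfl (fun u _ => hexp (fun x => ev u x.rep)), sum_congr rfl (fun ω _ => hexp ω),
    sum_comm, sum_comm (s := (univ : Finset (Ω → K))), sum_div, sum_div]
  refine sum_congr rfl fun t _ => ?_
  set Y : Finset Ω := univ.image t with hY
  have hYc : Y.card ≤ D + 1 := (card_image_le.trans (by simp)).trans hm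
  have hmem : ∀ i, t i ∈ Y := fun i => mem_image.2 ⟨i, mem_univ _, rfl⟩
  set Φ : (Y → K) → ℝ := fun w => ∏ i, c (w ⟨t i, hmem i⟩) with hΦ
  have h1 := sum_surj (evl D Y) (evl_surj Y hYc) 0 Φ
  have h2 := sum_surj (rst (K := K) Y) (rst_surj Y) 0 Φ
  have hU : (Fintype.card (Y → K) : ℝ) ≠ 0 := by
    have : 0 < Fintype.card (Y → K) := Fintype.card_pos
    exact_mod_cast this.ne'
  have e1 : ∑ u : Ix r D → K, ∏ i, c (ev u (t i).rep) =
      ∑ u : Ix r D → K, Φ (evl D Y u + 0) := by
    refine sum_congr rfl fun u _ => ?_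
    rw [add_zero]
    rfl
  have e2 : ∑ ω : Ω → K, ∏ i, c (ω (t i)) = ∑ ω : Ω → K, Φ (rst Y ω + 0) := by
    refine sum_congr rfl fun ω _ => ?_
    rw [add_zero]
    rfl
  rw [e1, e2, div_eq_div_iff hV hV']
  have h3 : (Fintype.card (Y → K) : ℝ) *
      ((∑ u : Ix r D → K, Φ (evl D Y u + 0)) * (Fintype.card (Ω → K) : ℝ)) =
      (Fintype.card (Y → K) : ℝ) *
      ((∑ ω : Ω → K, Φ (rst Y ω + 0)) * (Fintype.card (Ix r D → K) : ℝ)) := by
    calc _ = ((Fintype.card (Y → K) : ℝ) * (∑ u : Ix r D → K, Φ (evl D Y u + 0))) *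
          (Fintype.card (Ω → K) : ℝ) := by ring
      _ = ((Fintype.card (Y → K) : ℝ) * (∑ ω : Ω → K, Φ (rst Y ω + 0))) *
          (Fintype.card (Ix r D → K) : ℝ) := by rw [h1, h2]; ring
      _ = _ := by ring
  exact mul_left_cancel₀ hU h3

/-- nonzero vectors and projective points -/
noncomputable def fr (z : ℙ K (Fin r → K) × Kˣ) : {v : Fin r → K // v ≠ 0} :=
  ⟨(z.2 : K) • z.1.rep, smul_ne_zero z.2.ne_zero z.1.rep_nonzero⟩

omit [Fintype K] [DecidableEq K] in
lemma fr_bij : Function.Bijective (fr (r := r) (K := K)) := by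
  constructor
  · rintro ⟨P, a⟩ ⟨Q, b⟩ h
    have h1 : (a : K) • P.rep = (b : K) • Q.rep := congrArg Subtype.val h
    have hPQ : P = Q := by
      rw [← P.mk_rep, ← Q.mk_rep, Projectivization.mk_eq_mk_iff']
      refine ⟨(a : K)⁻¹ * b, ?_⟩
      rw [mul_smul, ← h1, smul_smul, inv_mul_cancel₀ a.ne_zero, one_smul]
    subst hPQ
    have h2 : ((a : K) - b) • P.rep = 0 := by rw [sub_smul, h1, sub_self]
    rcases smul_eq_zero.1 h2 with h3 | h3
    · have : a = b := Units.ext (sub_eq_zero.1 h3)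
      rw [this]
    · exact absurd h3 P.rep_nonzero
  · rintro ⟨v, hv⟩
    obtain ⟨a, ha⟩ := Projectivization.exists_smul_eq_mk_rep K v hv
    refine ⟨(Projectivization.mk K v hv, a⁻¹), ?_⟩
    apply Subtype.ext
    show ((a⁻¹ : Kˣ) : K) • (Projectivization.mk K v hv).rep = v
    rw [← ha]
    show ((a⁻¹ : Kˣ) : K) • ((a : K) • v) = v
    rw [smul_smul, Units.inv_mul, one_smul]

lemma sum_nonzero (f : (Fin r → K) → ℝ) (hf : ∀ (a : Kˣ) (v : Fin r → K), f ((a : K) • v) = f v) :
    ∑ v ∈ univ.filter (fun v : Fin r → K => v ≠ 0), f v =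
      ((Fintype.card K : ℝ) - 1) * ∑ P : ℙ K (Fin r → K), f P.rep := by
  have h1 : ∑ v ∈ univ.filter (fun v : Fin r → K => v ≠ 0), f v =
      ∑ v : {v : Fin r → K // v ≠ 0}, f v.1 := by
    rw [Finset.sum_subtype (p := fun v : Fin r → K => v ≠ 0)]
    intro v
    simp
  rw [h1, ← (Equiv.ofBijective _ (fr_bij (r := r) (K := K))).sum_comp, Fintype.sum_prod_type, mul_sum]
  refine sum_congr rfl fun P _ => ?_
  have h2 : ∀ a : Kˣ, f ((Equiv.ofBijective _ (fr_bij (r := r) (K := K))) (P, a)).1 = f P.rep :=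
    fun a => hf a P.rep
  rw [sum_congr rfl (fun a _ => h2 a), sum_const, card_univ, Fintype.card_units, nsmul_eq_mul,
    Nat.cast_sub Fintype.card_pos]
  push_cast
  rfl

lemma card_proj : ((Fintype.card K : ℝ) - 1) * (Fintype.card (ℙ K (Fin r → K)) : ℝ) =
    (Fintype.card K : ℝ) ^ r - 1 := by
  have h := sum_nonzero (K := K) (r := r) (fun _ => 1) (fun _ _ => rfl)
  simp only [sum_const, nsmul_eq_mul, mul_one, card_univ] at h
  rw [← h]
  have h1 : univ.filter (fun v : Fin r → K => v ≠ 0) = univ.erase 0 := by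
    ext v
    simp
  rw [h1, card_erase_of_mem (mem_univ _), card_univ, Fintype.card_fun, Fintype.card_fin,
    Nat.cast_sub (Nat.one_le_pow _ _ Fintype.card_pos)]
  push_cast
  rfl

end tie

end Pool.Agent.W406.HV
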