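import Mathlib
import Pool.Agent.W406.HV.Form

set_option autoImplicit false

/-! # Moments over the forms with coefficients in a finite field -/

namespace Pool.Agent.W406.HV

open Finset
open scoped LinearAlgebra.Projectivization

/-- the sum of `c (F(P))` over the points of the projective space -/
noncomputable def Sm {r D : ℕ} {K : Type} [Field K] [Fintype K] [DecidableEq K] (c : K → ℝ)
    (u : Ix r D → K) : ℝ :=
  (∑ v ∈ univ.filter (fun v : Fin r → K => v ≠ 0), c (ev u v)) / ((Fintype.card K : ℝ) - 1)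

section one

variable {r D : ℕ} {K : Type} [Field K] [Fintype K] [DecidableEq K]

omit [DecidableEq K] in
lemma q_gt_one : (1 : ℝ) < Fintype.card K := by
  have : 1 < Fintype.card K := Fintype.one_lt_card
  exact_mod_cast this

lemma Sm_eq (c : K → ℝ) (hinv : ∀ (a : Kˣ) (y : K), c ((a : K) ^ D * y) = c y) (u : Ix r D → K) :
    Sm c u = ∑ P : ℙ K (Fin r → K), c (ev u P.rep) := by
  have h := q_gt_one (K := K)
  unfold Sm
  rw [sum_nonzero (fun v => c (ev u v)) (fun a v => by rw [ev_smul]; exact hinv a _)]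
  rw [mul_div_cancel_left₀]
  linarith

lemma proj_le : (Fintype.card (ℙ K (Fin r → K)) : ℝ) ≤ (Fintype.card K : ℝ) ^ r := by
  have h := q_gt_one (K := K)
  have hc := card_proj (r := r) (K := K)
  set n : ℝ := (Fintype.card (ℙ K (Fin r → K)) : ℝ) with hn
  have hn0 : 0 ≤ n := Nat.cast_nonneg _
  rcases Nat.eq_zero_or_pos (Fintype.card (ℙ K (Fin r → K))) with h0 | h0
  · rw [hn, h0]
    push_cast
    positivity
  · have h2 : (2 : ℝ) ≤ Fintype.card K := by
      have : 2 ≤ Fintype.card K := Fintype.one_lt_card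
      exact_mod_cast this
    nlinarith

lemma Sm_le (c : K → ℝ) (hc : ∀ u, |c u| ≤ 1) (hinv : ∀ (a : Kˣ) (y : K), c ((a : K) ^ D * y) = c y)
    (u : Ix r D → K) : |Sm c u| ≤ (Fintype.card K : ℝ) ^ r := by
  rw [Sm_eq c hinv]
  calc |∑ P : ℙ K (Fin r → K), c (ev u P.rep)| ≤ ∑ P : ℙ K (Fin r → K), |c (ev u P.rep)| :=
        abs_sum_le_sum_abs _ _
    _ ≤ ∑ P : ℙ K (Fin r → K), 1 := sum_le_sum fun P _ => hc _
    _ = (Fintype.card (ℙ K (Fin r → K)) : ℝ) := by simp
    _ ≤ _ := proj_le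

end one

theorem local_bound (r D m t s : ℕ) (hs : 1 ≤ s) (hr : s + t + 1 = r) (hm : m ≤ D + 1) :
    ∃ C : ℝ, 0 ≤ C ∧ ∀ (K : Type) [Field K] [Fintype K] [DecidableEq K] (c : K → ℝ) (δ : ℝ),
      (∀ u, |c u| ≤ 1) → ∑ u, c u = 0 →
      ej c 2 = (1 - 1 / (Fintype.card K : ℝ)) / (Fintype.card K : ℝ) ^ t →
      (∀ (a : Kˣ) (y : K), c ((a : K) ^ D * y) = c y) → 0 ≤ δ → δ ≤ 1 / (Fintype.card K : ℝ) →
      |(∑ u : Ix r D → K, ((Sm c u + δ) / √((Fintype.card K : ℝ) ^ s)) ^ m) /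
        (Fintype.card (Ix r D → K) : ℝ) - mom m| ≤ C / √(Fintype.card K : ℝ) := by
  choose C hC0 hC using normal
  set C' : ℝ := C m + ∑ j ∈ Icc 1 m, (m.choose j : ℝ) * (mom (m - j) + C (m - j)) with hC'
  have hs0 : 0 ≤ ∑ j ∈ Icc 1 m, (m.choose j : ℝ) * (mom (m - j) + C (m - j)) := by
    apply sum_nonneg
    intro j _
    have := mom_nonneg (m - j)
    have := hC0 (m - j)
    positivity
  refine ⟨C', by have := hC0 m; positivity, ?_⟩
  intro K _ _ _ c δ hc h1 he2 hinv hδ0 hδ1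
  set q : ℝ := (Fintype.card K : ℝ) with hq
  have hq1 : 1 < q := q_gt_one
  have hq2 : 2 ≤ q := by
    have : 2 ≤ Fintype.card K := Fintype.one_lt_card
    rw [hq]
    exact_mod_cast this
  have hq0 : 0 < q := by linarith
  set Q : ℝ := q ^ s with hQ
  have hQ0 : 0 < Q := by positivity
  have hqQ : q ≤ Q := by
    calc q = q ^ 1 := (pow_one q).symm
      _ ≤ q ^ s := pow_le_pow_right₀ hq1.le hs
  set n : ℕ := Fintype.card (ℙ K (Fin r → K)) with hn
  have hcard : (q - 1) * n = q ^ r - 1 := card_proj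
  set ρ : ℝ := 1 / q ^ t with hρ
  have hρ0 : 0 ≤ ρ := by positivity
  have hρ1 : ρ ≤ 1 := by
    rw [hρ, div_le_one (by positivity)]
    exact one_le_pow₀ hq1.le
  have hiq : 1 / q ≤ 1 := by
    rw [div_le_one hq0]
    exact hq1.le
  have hiq0 : 0 < 1 / q := by positivity
  have he2ρ : ej c 2 ≤ ρ := by
    rw [he2, hρ]
    apply div_le_div_of_nonneg_right _ (by positivity)
    linarith
  have hseq := seq c hc h1 ρ he2ρ hρ1
  have hqr : q ^ r = q ^ s * q ^ t * q := by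
    rw [← hr, pow_succ, pow_add]
  have hqt : 0 < q ^ t := by positivity
  have hnρ : (n : ℝ) * ρ ≤ 2 * Q := by
    rw [hρ, mul_one_div, div_le_iff₀ hqt, hQ]
    have h2 : (q - 1) * n ≤ (q - 1) * (2 * q ^ s * q ^ t) := by
      rw [hcard, hqr]
      have h3 : 0 < q ^ s * q ^ t := by positivity
      nlinarith
    exact le_of_mul_le_mul_left h2 (by linarith)
  have hv : |ej c 2 * n / Q - 1| ≤ 1 / q := by
    have e1 : ej c 2 * n / Q - 1 = -(1 / q ^ r) := by
      rw [he2]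
      have e2 : (1 - 1 / q) / q ^ t * n / Q = ((q - 1) * n) / (q ^ s * q ^ t * q) := by
        rw [hQ]
        field_simp
      rw [e2, hcard, ← hqr]
      have : q ^ r ≠ 0 := by positivity
      field_simp
      ring
    rw [e1, abs_neg, abs_of_nonneg (by positivity)]
    apply one_div_le_one_div_of_le hq0
    calc q = q ^ 1 := (pow_one q).symm
      _ ≤ q ^ r := pow_le_pow_right₀ hq1.le (by omega)
  have hW : ∀ k, |W c k n / √Q ^ k - mom k| ≤ C k / √q :=
    fun k => hC k (ej c) (W c) ρ hseq n q Q hq1.le hqQ hnρ hv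
  have hsq0 : 0 < √q := Real.sqrt_pos.2 hq0
  have hsq1 : 1 ≤ √q := by
    rw [Real.one_le_sqrt]
    exact hq1.le
  have hsQ0 : 0 < √Q := Real.sqrt_pos.2 hQ0
  have hsQ1 : 1 ≤ √Q := by
    rw [Real.one_le_sqrt]
    linarith
  have hsqq : √q ≤ q := by
    rw [Real.sqrt_le_left (by linarith)]
    nlinarith
  -- the moments
  have hV0 : (Fintype.card (Ix r D → K) : ℝ) ≠ 0 := by
    have : 0 < Fintype.card (Ix r D → K) := Fintype.card_pos
    exact_mod_cast this.ne'
  have hexp : (∑ u : Ix r D → K, ((Sm c u + δ) / √Q) ^ m) / (Fintype.card (Ix r D → K) : ℝ) =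
      ∑ j ∈ range (m + 1), (m.choose j : ℝ) * (δ / √Q) ^ j * (W c (m - j) n / √Q ^ (m - j)) := by
    have h2 : ∀ u : Ix r D → K, ((Sm c u + δ) / √Q) ^ m = ∑ j ∈ range (m + 1),
        (m.choose j : ℝ) * (δ / √Q) ^ j * ((∑ P : ℙ K (Fin r → K), c (ev u P.rep)) ^ (m - j) / √Q ^ (m - j)) := by
      intro u
      rw [Sm_eq c hinv, add_comm, add_div, add_pow]
      refine sum_congr rfl fun j _ => ?_
      rw [div_pow (∑ P : ℙ K (Fin r → K), c (ev u P.rep))]
      ring
    rw [sum_congr rfl (fun u _ => h2 u), sum_comm, sum_div]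
    refine sum_congr rfl fun j hj => ?_
    rw [mem_range] at hj
    rw [← moment_tie (r := r) (D := D) c (m - j) (by omega), ← mul_sum, ← sum_div]
    field_simp
  rw [hexp]
  have hsplit : ∑ j ∈ range (m + 1), (m.choose j : ℝ) * (δ / √Q) ^ j * (W c (m - j) n / √Q ^ (m - j)) =
      W c m n / √Q ^ m +
      ∑ j ∈ Icc 1 m, (m.choose j : ℝ) * (δ / √Q) ^ j * (W c (m - j) n / √Q ^ (m - j)) := by
    have h3 : range (m + 1) = insert 0 (Icc 1 m) := by
      ext j
      simp only [mem_range, mem_insert, mem_Icc]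
      omega
    rw [h3, sum_insert (by simp)]
    simp
  rw [hsplit]
  have hδQ : δ / √Q ≤ 1 / q := by
    rw [div_le_iff₀ hsQ0]
    calc δ ≤ 1 / q := hδ1
      _ = 1 / q * 1 := (mul_one _).symm
      _ ≤ 1 / q * √Q := mul_le_mul_of_nonneg_left hsQ1 hiq0.le
  have hδQ0 : 0 ≤ δ / √Q := by positivity
  have b2 : |∑ j ∈ Icc 1 m, (m.choose j : ℝ) * (δ / √Q) ^ j * (W c (m - j) n / √Q ^ (m - j))| ≤
      (∑ j ∈ Icc 1 m, (m.choose j : ℝ) * (mom (m - j) + C (m - j))) / √q := by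
    rw [sum_div]
    refine (abs_sum_le_sum_abs _ _).trans ?_
    apply sum_le_sum
    intro j hj
    rw [mem_Icc] at hj
    rw [abs_mul, abs_mul, Nat.abs_cast, abs_pow, abs_of_nonneg hδQ0]
    have h4 : (δ / √Q) ^ j ≤ 1 / √q := by
      calc (δ / √Q) ^ j ≤ (δ / √Q) ^ 1 :=
            pow_le_pow_of_le_one hδQ0 (hδQ.trans hiq) hj.1
        _ = δ / √Q := pow_one _
        _ ≤ 1 / q := hδQ
        _ ≤ 1 / √q := one_div_le_one_div_of_le hsq0 hsqq
    have h5 : |W c (m - j) n / √Q ^ (m - j)| ≤ mom (m - j) + C (m - j) := by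
      have h6 := hW (m - j)
      have h7 : C (m - j) / √q ≤ C (m - j) := div_le_self (hC0 _) hsq1
      calc |W c (m - j) n / √Q ^ (m - j)| =
            |(W c (m - j) n / √Q ^ (m - j) - mom (m - j)) + mom (m - j)| := by ring_nf
        _ ≤ |W c (m - j) n / √Q ^ (m - j) - mom (m - j)| + |mom (m - j)| := abs_add_le _ _
        _ ≤ _ := by
            rw [abs_of_nonneg (mom_nonneg _)]
            linarith
    have h8 : 0 ≤ mom (m - j) + C (m - j) := (abs_nonneg _).trans h5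
    calc (m.choose j : ℝ) * (δ / √Q) ^ j * |W c (m - j) n / √Q ^ (m - j)|
        ≤ (m.choose j : ℝ) * (1 / √q) * (mom (m - j) + C (m - j)) := by gcongr
      _ = _ := by ring
  have e3 : W c m n / √Q ^ m + ∑ j ∈ Icc 1 m, (m.choose j : ℝ) * (δ / √Q) ^ j *
      (W c (m - j) n / √Q ^ (m - j)) - mom m = (W c m n / √Q ^ m - mom m) +
      ∑ j ∈ Icc 1 m, (m.choose j : ℝ) * (δ / √Q) ^ j * (W c (m - j) n / √Q ^ (m - j)) := by ring
  rw [e3]
  calc _ ≤ _ := abs_add_le _ _
    _ ≤ C m / √q + (∑ j ∈ Icc 1 m, (m.choose j : ℝ) * (mom (m - j) + C (m - j))) / √q :=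
        add_le_add (hW m) b2
    _ = _ := by rw [hC']; ring

end Pool.Agent.W406.HV
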