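import Mathlib
import Pool.Agent.W406.HM.Per

set_option autoImplicit false

/-! # Sums of periodic functions of mean zero over boxes in `ℤ ^ ι` -/

namespace Pool.Agent.W406.HV

open Finset

open Pool.Agent.W406.HM (fib pow_sub_le sum_surj)

variable {ι : Type} [Fintype ι] [DecidableEq ι]

/-- reduction mod `q` of an integer vector -/
def redv {ι : Type} (q : ℕ) (a : ι → ℤ) : ι → ZMod q := fun i => (a i : ZMod q)

/-- the representatives of a residue vector -/
def valv {ι : Type} {q : ℕ} (u : ι → ZMod q) : ι → ℤ := fun i => ((u i).val : ℤ)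

/-- the box with centre `b` and side `2 N` -/
noncomputable def Box (b : ι → ℤ) (N : ℕ) : Finset (ι → ℤ) :=
  Fintype.piFinset fun i => Icc (b i - N) (b i + N)

lemma mem_Box {b : ι → ℤ} {N : ℕ} {a : ι → ℤ} : a ∈ Box b N ↔ ∀ i, |a i - b i| ≤ N := by
  unfold Box
  rw [Fintype.mem_piFinset]
  simp only [mem_Icc, abs_le]
  constructor
  · intro h i
    have := h i
    constructor <;> linarith
  · intro h i
    have := h i
    constructor <;> linarith

lemma card_Box (b : ι → ℤ) (N : ℕ) : (Box b N).card = (2 * N + 1) ^ (Fintype.card ι) := by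
  unfold Box
  rw [Fintype.card_piFinset]
  have : ∀ i, (Icc (b i - N) (b i + N)).card = 2 * N + 1 := by
    intro i
    rw [Int.card_Icc]
    omega
  simp only [this, prod_const, card_univ]

lemma inner_zero (q : ℕ) [NeZero q] (A : ι → ℤ) (M : ℕ) (Φ : (ι → ZMod q) → ℝ)
    (h0 : ∑ u, Φ u = 0) :
    ∑ a ∈ Fintype.piFinset (fun i : ι => Ico (A i) (A i + M * q)), Φ (redv q a) = 0 := by
  have h1 : ∑ a ∈ Fintype.piFinset (fun i : ι => Ico (A i) (A i + M * q)), Φ (redv q a) =
      ∑ u : ι → ZMod q, (M : ℝ) ^ (Fintype.card ι) * Φ u := by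
    rw [← sum_fiberwise_of_maps_to (s := Fintype.piFinset (fun i : ι => Ico (A i) (A i + M * q)))
      (t := (univ : Finset (ι → ZMod q))) (g := redv q) (fun _ _ => mem_univ _)]
    refine sum_congr rfl fun u _ => ?_
    rw [sum_congr rfl (g := fun _ => Φ u)]
    · rw [sum_const, nsmul_eq_mul]
      congr 1
      have h2 : (Fintype.piFinset (fun i : ι => Ico (A i) (A i + M * q))).filter
          (fun a => redv q a = u) = Fintype.piFinset (fun i : ι =>
            (Ico (A i) (A i + M * q)).filter (fun z : ℤ => (z : ZMod q) = u i)) := by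
        ext a
        simp only [mem_filter, Fintype.mem_piFinset, redv, funext_iff]
        constructor
        · rintro ⟨h, h'⟩ i
          exact ⟨h i, h' i⟩
        · intro h
          exact ⟨fun i => (h i).1, fun i => (h i).2⟩
      rw [h2, Fintype.card_piFinset]
      simp only [fib, prod_const, card_univ]
      push_cast
      rfl
    · intro a ha
      rw [(mem_filter.1 ha).2]
  rw [h1, ← mul_sum, h0, mul_zero]

lemma box_sum (q : ℕ) [NeZero q] (b : ι → ℤ) (N : ℕ) (B : ℝ) (hB : 0 ≤ B) (Φ : (ι → ZMod q) → ℝ)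
    (h1 : ∀ u, |Φ u| ≤ B) (h0 : ∑ u, Φ u = 0) :
    |∑ a ∈ Box b N, Φ (redv q a)| ≤
      B * (Fintype.card ι * q * (2 * N + 1) ^ (Fintype.card ι - 1)) := by
  set d := Fintype.card ι with hd
  set L : ℕ := 2 * N + 1 with hL
  set M : ℕ := L / q with hM
  have hMq : M * q ≤ L := Nat.div_mul_le_self _ _
  have hMq' : L - M * q ≤ q := by
    have h := Nat.div_add_mod L q
    have h' := Nat.mod_lt L (NeZero.pos q)
    rw [mul_comm] at h
    rw [← hM] at h
    omega
  set I : Finset (ι → ℤ) := Fintype.piFinset (fun i : ι => Ico (b i - N) (b i - N + M * q)) with hI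
  have hsub : I ⊆ Box b N := by
    intro a ha
    unfold Box
    rw [hI, Fintype.mem_piFinset] at ha
    rw [Fintype.mem_piFinset]
    intro i
    have := mem_Ico.1 (ha i)
    have h2 : (M : ℤ) * q ≤ L := by exact_mod_cast hMq
    rw [mem_Icc]
    constructor
    · exact this.1
    · have : (L : ℤ) = 2 * N + 1 := by rw [hL]; push_cast; ring
      omega
  have h2 : ∑ a ∈ Box b N, Φ (redv q a) = ∑ a ∈ Box b N \ I, Φ (redv q a) := by
    rw [← sum_sdiff hsub, inner_zero q _ M Φ h0, add_zero]
  have hcI : I.card = (M * q) ^ d := by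
    rw [hI, Fintype.card_piFinset]
    have : ∀ i, (Ico (b i - N) (b i - N + M * q)).card = M * q := by
      intro i
      rw [Int.card_Ico]
      have : (b i - N + M * q - (b i - N)) = ((M * q : ℕ) : ℤ) := by push_cast; ring
      rw [this, Int.toNat_natCast]
    simp only [this, prod_const, card_univ, ← hd]
  rw [h2]
  have h3 : ((Box b N \ I).card : ℝ) ≤ d * q * (2 * N + 1) ^ (d - 1) := by
    calc ((Box b N \ I).card : ℝ) = (L : ℝ) ^ d - ((M * q : ℕ) : ℝ) ^ d := by
          rw [card_sdiff_of_subset hsub, card_Box, hcI, Nat.cast_sub]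
          · rw [hL]
            push_cast
            rfl
          · exact Nat.pow_le_pow_left hMq d
      _ ≤ d * (L : ℝ) ^ (d - 1) * (L - ((M * q : ℕ) : ℝ)) :=
          pow_sub_le _ _ (by positivity) (by exact_mod_cast hMq) d
      _ ≤ d * (L : ℝ) ^ (d - 1) * q := by
          apply mul_le_mul_of_nonneg_left _ (by positivity)
          have : ((L - M * q : ℕ) : ℝ) ≤ q := by exact_mod_cast hMq'
          rwa [Nat.cast_sub hMq] at this
      _ = d * q * (2 * N + 1) ^ (d - 1) := by
          rw [hL]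
          push_cast
          ring
  calc |∑ a ∈ Box b N \ I, Φ (redv q a)| ≤ ∑ a ∈ Box b N \ I, |Φ (redv q a)| := abs_sum_le_sum_abs _ _
    _ ≤ ∑ a ∈ Box b N \ I, B := sum_le_sum fun a _ => h1 _
    _ = ((Box b N \ I).card : ℝ) * B := by rw [sum_const, nsmul_eq_mul]
    _ ≤ (d * q * (2 * N + 1) ^ (d - 1)) * B := mul_le_mul_of_nonneg_right h3 hB
    _ = _ := by ring

/-- `G` depends only on the residues mod `p` -/
def Per {ι : Type} (p : ℕ) (G : (ι → ℤ) → ℝ) : Prop :=
  ∀ a b : ι → ℤ, (∀ i, (p : ℤ) ∣ a i - b i) → G a = G b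

lemma Per.eq_redv {ι : Type} {p : ℕ} {G : (ι → ℤ) → ℝ} (h : Per p G) [NeZero p] (a : ι → ℤ) :
    G a = G (valv (redv p a)) := by
  apply h
  intro i
  rw [← ZMod.intCast_eq_intCast_iff_dvd_sub]
  unfold valv redv
  simp

/-- the map `ZMod Q → ZMod p`, coordinatewise -/
def cst {ι : Type} {Q p : ℕ} (h : p ∣ Q) : (ι → ZMod Q) →+ (ι → ZMod p) where
  toFun u := fun i => ZMod.castHom h (ZMod p) (u i)
  map_zero' := by funext i; exact map_zero _
  map_add' u v := by funext i; exact map_add _ _ _

lemma cst_redv {ι : Type} {Q p : ℕ} (h : p ∣ Q) (a : ι → ℤ) : cst h (redv Q a) = redv p a := by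
  funext i
  exact map_intCast (ZMod.castHom h (ZMod p)) (a i)

lemma redv_valv {ι : Type} {Q : ℕ} [NeZero Q] (u : ι → ZMod Q) : redv Q (valv u) = u := by
  ext i
  simp [redv, valv]

lemma cst_surj {ι : Type} {Q p : ℕ} (h : p ∣ Q) : Function.Surjective (cst (ι := ι) h) := by
  intro w
  choose v hv using fun i => ZMod.castHom_surjective h (w i)
  exact ⟨v, funext hv⟩

/-- the mean value over the residues mod `p q` of a product of two functions -/
lemma pair_zero {p q : ℕ} (hp : p.Prime) (hq : q.Prime) (hpq : p ≠ q) [NeZero (p * q)] [NeZero q]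
    (G H : (ι → ℤ) → ℝ) (hG : Per p G) (hH : Per q H)
    (hz : ∑ u : ι → ZMod q, H (valv u) = 0) :
    ∑ u : ι → ZMod (p * q), G (valv u) * H (valv u) = 0 := by
  have : Fact q.Prime := ⟨hq⟩
  have : NeZero p := ⟨hp.ne_zero⟩
  have hdp : p ∣ p * q := Dvd.intro q rfl
  have hdq : q ∣ p * q := Dvd.intro_left p rfl
  have hfG : ∀ u : ι → ZMod (p * q), G (valv u) = G (valv (cst hdp u)) := by
    intro u
    rw [hG.eq_redv (valv u), ← cst_redv hdp, redv_valv]
  have hfH : ∀ u : ι → ZMod (p * q), H (valv u) = H (valv (cst hdq u)) := by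
    intro u
    rw [hH.eq_redv (valv u), ← cst_redv hdq, redv_valv]
  set sh : (ι → ZMod (p * q)) → (ι → ZMod (p * q)) := fun t => ((p : ℕ) : ZMod (p * q)) • t with hsh
  have hshp : ∀ t, cst hdp (sh t) = 0 := by
    intro t
    ext i
    have h1 : cst hdp (sh t) i = ZMod.castHom hdp (ZMod p) (((p : ℕ) : ZMod (p * q)) * t i) := rfl
    rw [h1, map_mul, map_natCast, ZMod.natCast_self, zero_mul]
    rfl
  set ψ : (ι → ZMod (p * q)) →+ (ι → ZMod q) :=
    (cst hdq).comp (AddMonoidHom.mk' sh (fun s t => by simp only [hsh, smul_add])) with hψ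
  have hψs : Function.Surjective ψ := by
    intro w
    have hunit : ((p : ℕ) : ZMod q) ≠ 0 := by
      intro h
      have := (ZMod.natCast_eq_zero_iff _ _).1 h
      exact hpq ((Nat.prime_dvd_prime_iff_eq hq hp).1 this).symm
    obtain ⟨v, hv⟩ := cst_surj (ι := ι) hdq (fun i => ((p : ℕ) : ZMod q)⁻¹ * w i)
    refine ⟨v, ?_⟩
    ext i
    have h1 := congrFun hv i
    simp only [cst, AddMonoidHom.coe_mk, ZeroHom.coe_mk] at h1
    have h2 : ψ v i = ZMod.castHom hdq (ZMod q) (((p : ℕ) : ZMod (p * q)) * v i) := rfl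
    rw [h2, map_mul, map_natCast, h1, ← mul_assoc, mul_inv_cancel₀ hunit, one_mul]
  have hinner : ∀ u : ι → ZMod (p * q),
      ∑ t : ι → ZMod (p * q), H (valv (cst hdq (u + sh t))) = 0 := by
    intro u
    have h1 := sum_surj ψ hψs (cst hdq u) (fun w => H (valv w))
    rw [hz, mul_zero] at h1
    have h2 : (Fintype.card (ι → ZMod q) : ℝ) ≠ 0 := by
      have : 0 < Fintype.card (ι → ZMod q) := Fintype.card_pos
      exact_mod_cast this.ne'
    have h3 := (mul_eq_zero.1 h1).resolve_left h2
    rw [← h3]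
    refine sum_congr rfl fun t _ => ?_
    rw [map_add, add_comm]
    rfl
  have hshift : ∀ t : ι → ZMod (p * q), ∑ u : ι → ZMod (p * q),
      G (valv (u + sh t)) * H (valv (u + sh t)) = ∑ u : ι → ZMod (p * q), G (valv u) * H (valv u) := by
    intro t
    exact Equiv.sum_comp (Equiv.addRight (sh t)) (fun u => G (valv u) * H (valv u))
  have htot : (Fintype.card (ι → ZMod (p * q)) : ℝ) *
      ∑ u : ι → ZMod (p * q), G (valv u) * H (valv u) = 0 := by
    calc (Fintype.card (ι → ZMod (p * q)) : ℝ) * ∑ u : ι → ZMod (p * q), G (valv u) * H (valv u)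
        = ∑ t : ι → ZMod (p * q), ∑ u : ι → ZMod (p * q), G (valv (u + sh t)) * H (valv (u + sh t)) := by
          rw [sum_congr rfl (fun t _ => hshift t), sum_const, card_univ, nsmul_eq_mul]
      _ = ∑ u : ι → ZMod (p * q), ∑ t : ι → ZMod (p * q),
            G (valv (u + sh t)) * H (valv (u + sh t)) := sum_comm
      _ = ∑ u : ι → ZMod (p * q), G (valv u) *
            ∑ t : ι → ZMod (p * q), H (valv (cst hdq (u + sh t))) := by
          refine sum_congr rfl fun u _ => ?_
          rw [mul_sum]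
          refine sum_congr rfl fun t _ => ?_
          rw [← hfH (u + sh t), hfG (u + sh t), map_add, hshp t, add_zero, ← hfG u]
      _ = 0 := by
          apply sum_eq_zero
          intro u _
          rw [hinner u, mul_zero]
  have h2 : (Fintype.card (ι → ZMod (p * q)) : ℝ) ≠ 0 := by
    have : 0 < Fintype.card (ι → ZMod (p * q)) := Fintype.card_pos
    exact_mod_cast this.ne'
  exact (mul_eq_zero.1 htot).resolve_left h2

end Pool.Agent.W406.HV
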