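import Mathlib
import Pool.Agent.W406.HV.Per

set_option autoImplicit false

/-! # Second moments and a maximal inequality -/

namespace Pool.Agent.W406.HV

open Finset

variable {ι : Type} [Fintype ι] [DecidableEq ι]

/-- the assumptions on the local terms -/
structure Loc (G : ℕ → (ι → ℤ) → ℝ) (B T₀ : ℝ) (κ : ℕ) : Prop where
  hB : 0 ≤ B
  hT : 0 ≤ T₀
  per : ∀ p : ℕ, p.Prime → Per p (G p)
  zero : ∀ p : ℕ, p.Prime → ∀ [NeZero p], ∑ u : ι → ZMod p, G p (valv u) = 0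
  bd : ∀ p : ℕ, p.Prime → ∀ a, |G p a| ≤ T₀ * (p : ℝ) ^ κ
  sq : ∀ p : ℕ, p.Prime → ∀ [NeZero p], ∑ u : ι → ZMod p, G p (valv u) ^ 2 ≤
    B * Fintype.card (ι → ZMod p)

lemma pair_bound {G : ℕ → (ι → ℤ) → ℝ} {B T₀ : ℝ} {κ : ℕ} (h : Loc G B T₀ κ) (b : ι → ℤ) (N X p q : ℕ)
    (hp : p.Prime) (hq : q.Prime) (hpX : p ≤ X) (hqX : q ≤ X) (hpq : p ≠ q) :
    |∑ a ∈ Box b N, G p a * G q a| ≤
      (T₀ * (X : ℝ) ^ κ) ^ 2 * (Fintype.card ι * (X : ℝ) ^ 2 * (2 * N + 1) ^ (Fintype.card ι - 1)) := by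
  have : NeZero q := ⟨hq.ne_zero⟩
  have : NeZero p := ⟨hp.ne_zero⟩
  have : NeZero (p * q) := ⟨mul_ne_zero hp.ne_zero hq.ne_zero⟩
  have hT := h.hT
  have hz := pair_zero hp hq hpq (G p) (G q) (h.per p hp) (h.per q hq) (h.zero q hq)
  have hpX' : (p : ℝ) ≤ X := by exact_mod_cast hpX
  have hqX' : (q : ℝ) ≤ X := by exact_mod_cast hqX
  have hb : ∀ a : ι → ℤ, |G p a * G q a| ≤ (T₀ * (X : ℝ) ^ κ) ^ 2 := by
    intro a
    rw [abs_mul, sq]
    apply mul_le_mul _ _ (abs_nonneg _) (by positivity)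
    · refine (h.bd p hp a).trans ?_
      gcongr
    · refine (h.bd q hq a).trans ?_
      gcongr
  have hrep : ∀ a : ι → ℤ, G p a * G q a = G p (valv (redv (p * q) a)) * G q (valv (redv (p * q) a)) := by
    intro a
    have h1 : ∀ r : ℕ, r ∣ p * q → ∀ i, (r : ℤ) ∣ a i - valv (redv (p * q) a) i := by
      intro r hr i
      refine dvd_trans (Int.natCast_dvd_natCast.2 hr) ?_
      rw [← ZMod.intCast_eq_intCast_iff_dvd_sub]
      simp [valv, redv]
    rw [h.per p hp a _ (h1 p (Dvd.intro q rfl)), h.per q hq a _ (h1 q (Dvd.intro_left p rfl))]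
  have h2 := box_sum (p * q) b N ((T₀ * (X : ℝ) ^ κ) ^ 2) (by positivity)
    (fun u : ι → ZMod (p * q) => G p (valv u) * G q (valv u)) (fun u => hb _) hz
  rw [sum_congr rfl (fun a _ => hrep a)]
  refine h2.trans ?_
  have h3 : ((p * q : ℕ) : ℝ) ≤ (X : ℝ) ^ 2 := by
    push_cast
    rw [sq]
    exact mul_le_mul hpX' hqX' (Nat.cast_nonneg _) (Nat.cast_nonneg _)
  gcongr

lemma diag_bound {G : ℕ → (ι → ℤ) → ℝ} {B T₀ : ℝ} {κ : ℕ} (h : Loc G B T₀ κ) (b : ι → ℤ) (N X p : ℕ)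
    (hp : p.Prime) (hpX : p ≤ X) :
    ∑ a ∈ Box b N, G p a ^ 2 ≤ B * (2 * N + 1) ^ (Fintype.card ι) +
      (T₀ * (X : ℝ) ^ κ) ^ 2 * (Fintype.card ι * (X : ℝ) ^ 2 * (2 * N + 1) ^ (Fintype.card ι - 1)) := by
  have : NeZero p := ⟨hp.ne_zero⟩
  have hT := h.hT
  have hX1 : (1 : ℝ) ≤ X := by
    have : 1 ≤ X := hp.one_lt.le.trans hpX
    exact_mod_cast this
  have hpX' : (p : ℝ) ≤ X := by exact_mod_cast hpX
  set V : ℝ := ((Fintype.card (ι → ZMod p) : ℕ) : ℝ) with hV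
  have hV0 : 0 < V := by
    have : 0 < Fintype.card (ι → ZMod p) := Fintype.card_pos
    rw [hV]
    exact_mod_cast this
  set E : ℝ := (∑ u : ι → ZMod p, G p (valv u) ^ 2) / V with hE
  have hb : ∀ a : ι → ℤ, G p a ^ 2 ≤ (T₀ * (X : ℝ) ^ κ) ^ 2 := by
    intro a
    rw [← sq_abs]
    apply pow_le_pow_left₀ (abs_nonneg _)
    refine (h.bd p hp a).trans ?_
    gcongr
  have hE0 : 0 ≤ E := by positivity
  have hE1 : E ≤ (T₀ * (X : ℝ) ^ κ) ^ 2 := by
    rw [hE, div_le_iff₀ hV0]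
    calc ∑ u : ι → ZMod p, G p (valv u) ^ 2 ≤ ∑ u : ι → ZMod p, (T₀ * (X : ℝ) ^ κ) ^ 2 :=
          sum_le_sum fun u _ => hb _
      _ = _ := by rw [sum_const, card_univ, nsmul_eq_mul]; ring
  have hE2 : E ≤ B := by
    rw [hE, div_le_iff₀ hV0]
    exact h.sq p hp
  have hz : ∑ u : ι → ZMod p, (G p (valv u) ^ 2 - E) = 0 := by
    rw [sum_sub_distrib, sum_const, card_univ, nsmul_eq_mul, hE, ← hV]
    field_simp
    ring
  have h2 := box_sum p b N ((T₀ * (X : ℝ) ^ κ) ^ 2) (by positivity)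
    (fun u : ι → ZMod p => G p (valv u) ^ 2 - E) (fun u => by
      rw [abs_le]
      have := hb (valv u)
      have : 0 ≤ G p (valv u) ^ 2 := sq_nonneg _
      constructor <;> linarith) hz
  have hrep : ∀ a : ι → ℤ, G p a ^ 2 = (G p (valv (redv p a)) ^ 2 - E) + E := by
    intro a
    rw [← (h.per p hp).eq_redv a]
    ring
  rw [sum_congr rfl (fun a _ => hrep a), sum_add_distrib, sum_const, card_Box, nsmul_eq_mul]
  push_cast
  have h3 : ∑ a ∈ Box b N, (G p (valv (redv p a)) ^ 2 - E) ≤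
      (T₀ * (X : ℝ) ^ κ) ^ 2 * (Fintype.card ι * (X : ℝ) ^ 2 * (2 * N + 1) ^ (Fintype.card ι - 1)) := by
    refine (le_abs_self _).trans (h2.trans ?_)
    have h4 : (p : ℝ) ≤ (X : ℝ) ^ 2 := by nlinarith
    gcongr
  have h5 : (2 * (N : ℝ) + 1) ^ Fintype.card ι * E ≤ B * (2 * N + 1) ^ (Fintype.card ι) := by
    rw [mul_comm]
    exact mul_le_mul_of_nonneg_right hE2 (by positivity)
  linarith

/-- the second moment of a sum over primes -/
theorem second {G : ℕ → (ι → ℤ) → ℝ} {B T₀ : ℝ} {κ : ℕ} (h : Loc G B T₀ κ) (b : ι → ℤ) (N X : ℕ)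
    (hX : (T₀ * (X : ℝ) ^ κ) ^ 2 * (Fintype.card ι * (X : ℝ) ^ 3) ≤ 2 * N + 1)
    (S : Finset ℕ) (hS : ∀ p ∈ S, p.Prime ∧ p ≤ X) :
    ∑ a ∈ Box b N, (∑ p ∈ S, G p a) ^ 2 ≤ (B + 1) * S.card * (2 * N + 1) ^ (Fintype.card ι) := by
  have hT := h.hT
  have hB := h.hB
  set D := Fintype.card ι with hD
  set L : ℝ := 2 * N + 1 with hL
  have hL0 : 0 < L := by positivity
  set R : ℝ := (T₀ * (X : ℝ) ^ κ) ^ 2 * (D * (X : ℝ) ^ 2 * L ^ (D - 1)) with hR
  have hR0 : 0 ≤ R := by positivity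
  have h1 : ∑ a ∈ Box b N, (∑ p ∈ S, G p a) ^ 2 = ∑ p ∈ S, ∑ q ∈ S, ∑ a ∈ Box b N, G p a * G q a := by
    calc ∑ a ∈ Box b N, (∑ p ∈ S, G p a) ^ 2 = ∑ a ∈ Box b N, ∑ p ∈ S, ∑ q ∈ S, G p a * G q a := by
          refine sum_congr rfl fun a _ => ?_
          rw [sq, sum_mul_sum]
      _ = ∑ p ∈ S, ∑ a ∈ Box b N, ∑ q ∈ S, G p a * G q a := sum_comm
      _ = _ := sum_congr rfl fun p _ => sum_comm
  have h2 : ∀ p ∈ S, ∑ q ∈ S, ∑ a ∈ Box b N, G p a * G q a ≤ B * L ^ D + S.card * R := by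
    intro p hp
    obtain ⟨hpp, hpX⟩ := hS p hp
    have h3 : ∀ q ∈ S, ∑ a ∈ Box b N, G p a * G q a ≤ (if q = p then B * L ^ D else 0) + R := by
      intro q hq
      obtain ⟨hqp, hqX⟩ := hS q hq
      split_ifs with hqp'
      · subst hqp'
        have := diag_bound h b N X q hqp hqX
        calc ∑ a ∈ Box b N, G q a * G q a = ∑ a ∈ Box b N, G q a ^ 2 :=
              sum_congr rfl fun a _ => by ring
          _ ≤ _ := this
      · have := pair_bound h b N X p q hpp hqp hpX hqX (Ne.symm hqp')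
        rw [zero_add]
        exact (le_abs_self _).trans this
    calc ∑ q ∈ S, ∑ a ∈ Box b N, G p a * G q a ≤ ∑ q ∈ S, ((if q = p then B * L ^ D else 0) + R) :=
          sum_le_sum h3
      _ = B * L ^ D + S.card * R := by
          rw [sum_add_distrib, sum_ite_eq', if_pos hp, sum_const, nsmul_eq_mul]
  have hcard : (S.card : ℝ) ≤ X := by
    have h : S ⊆ Icc 1 X := fun p hp => mem_Icc.2 ⟨(hS p hp).1.one_lt.le, (hS p hp).2⟩
    have := card_le_card h
    rw [Nat.card_Icc, Nat.add_sub_cancel] at this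
    exact_mod_cast this
  have h4 : (S.card : ℝ) * R ≤ L ^ D := by
    rcases Nat.eq_zero_or_pos D with h0 | h0
    · rw [hR, h0]
      simp
    · have e : L ^ D = L * L ^ (D - 1) := by
        rw [← pow_succ']
        congr 1
        omega
      calc (S.card : ℝ) * R ≤ X * R := mul_le_mul_of_nonneg_right hcard hR0
        _ = ((T₀ * (X : ℝ) ^ κ) ^ 2 * (D * (X : ℝ) ^ 3)) * L ^ (D - 1) := by rw [hR]; ring
        _ ≤ L * L ^ (D - 1) := mul_le_mul_of_nonneg_right hX (by positivity)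
        _ = L ^ D := e.symm
  rw [h1]
  calc ∑ p ∈ S, ∑ q ∈ S, ∑ a ∈ Box b N, G p a * G q a ≤ ∑ p ∈ S, (B * L ^ D + S.card * R) :=
        sum_le_sum h2
    _ = S.card * (B * L ^ D + S.card * R) := by rw [sum_const, nsmul_eq_mul]
    _ ≤ S.card * (B * L ^ D + L ^ D) := by
        apply mul_le_mul_of_nonneg_left _ (Nat.cast_nonneg _)
        linarith
    _ = _ := by ring

/-- a dyadic block -/
def blk (J j k : ℕ) : Finset ℕ := (range (2 ^ J)).filter (fun n => n / 2 ^ j = 2 * k)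

/-- a partial sum is a sum of at most `J` dyadic blocks -/
lemma dyadic (J : ℕ) (g : ℕ → ℝ) (x : ℕ) (hx' : x < 2 ^ J) :
    (∑ n ∈ range x, g n) ^ 2 ≤ J * ∑ j ∈ range J, ∑ k ∈ range (2 ^ J), (∑ n ∈ blk J j k, g n) ^ 2 := by
  set T : ℕ → ℝ := fun j => ∑ n ∈ range (x / 2 ^ j * 2 ^ j), g n with hT
  have hT0 : T 0 = ∑ n ∈ range x, g n := by simp [hT]
  have hTJ : T J = 0 := by
    simp only [hT]
    rw [Nat.div_eq_of_lt hx']
    simp
  have htel : ∑ n ∈ range x, g n = ∑ j ∈ range J, (T j - T (j + 1)) := by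
    rw [Finset.sum_range_sub', hTJ, sub_zero, hT0]
  have hstep : ∀ j ∈ range J, (T j - T (j + 1)) ^ 2 ≤
      ∑ k ∈ range (2 ^ J), (∑ n ∈ blk J j k, g n) ^ 2 := by
    intro j hj
    rw [mem_range] at hj
    have h2j : 0 < 2 ^ j := by positivity
    set m := x / 2 ^ j with hm
    have hm2 : x / 2 ^ (j + 1) = m / 2 := by
      rw [pow_succ, ← Nat.div_div_eq_div_mul]
    have hnn : 0 ≤ ∑ k ∈ range (2 ^ J), (∑ n ∈ blk J j k, g n) ^ 2 :=
      sum_nonneg fun _ _ => sq_nonneg _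
    rcases Nat.even_or_odd' m with ⟨k, hk | hk⟩
    · have : T j - T (j + 1) = 0 := by
        simp only [hT]
        rw [hm2, ← hm, hk, Nat.mul_div_cancel_left _ (by norm_num : 0 < 2), pow_succ]
        have : 2 * k * 2 ^ j = k * (2 ^ j * 2) := by ring
        rw [this, sub_self]
      rw [this]
      simpa using hnn
    · have hle : m * 2 ^ j ≤ x := Nat.div_mul_le_self _ _
      have e1 : T j - T (j + 1) = ∑ n ∈ blk J j k, g n := by
        simp only [hT]
        rw [hm2, ← hm]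
        have e2 : m / 2 * 2 ^ (j + 1) = 2 * k * 2 ^ j := by
          rw [hk]
          have : (2 * k + 1) / 2 = k := by omega
          rw [this, pow_succ]
          ring
        rw [e2, hk]
        have hsub : range (2 * k * 2 ^ j) ⊆ range ((2 * k + 1) * 2 ^ j) := by
          apply range_subset_range.2
          apply Nat.mul_le_mul_right
          omega
        rw [← sum_sdiff hsub, add_sub_cancel_right]
        apply sum_congr _ (fun _ _ => rfl)
        ext n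
        unfold blk
        rw [mem_sdiff, mem_range, mem_range, mem_filter, mem_range]
        constructor
        · rintro ⟨h1, h2⟩
          refine ⟨?_, ?_⟩
          · have : (2 * k + 1) * 2 ^ j ≤ x := by rw [← hk]; exact hle
            omega
          · push Not at h2
            apply Nat.div_eq_of_lt_le
            · exact h2
            · exact h1
        · rintro ⟨h1, h2⟩
          have h3 := Nat.div_mul_le_self n (2 ^ j)
          have h4 : n < (n / 2 ^ j + 1) * 2 ^ j := by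
            have := Nat.lt_div_mul_add (a := n) h2j
            linarith
          rw [h2] at h3 h4
          exact ⟨h4, by omega⟩
      rw [e1]
      have hkr : k ∈ range (2 ^ J) := by
        rw [mem_range]
        have : m ≤ x := Nat.div_le_self _ _
        omega
      exact single_le_sum (f := fun k => (∑ n ∈ blk J j k, g n) ^ 2) (fun _ _ => sq_nonneg _) hkr
  rw [htel]
  calc (∑ j ∈ range J, (T j - T (j + 1))) ^ 2
      ≤ (range J).card * ∑ j ∈ range J, (T j - T (j + 1)) ^ 2 := sq_sum_le_card_mul_sum_sq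
    _ ≤ J * ∑ j ∈ range J, ∑ k ∈ range (2 ^ J), (∑ n ∈ blk J j k, g n) ^ 2 := by
        rw [card_range]
        exact mul_le_mul_of_nonneg_left (sum_le_sum hstep) (Nat.cast_nonneg _)

lemma card_blk (J j : ℕ) (Q : ℕ → Prop) [DecidablePred Q] :
    ∑ k ∈ range (2 ^ J), (((blk J j k).filter Q).card : ℝ) ≤ 2 ^ J := by
  have h1 : ∑ k ∈ range (2 ^ J), ((blk J j k).filter Q).card ≤ (range (2 ^ J)).card := by
    rw [← card_biUnion]
    · apply card_le_card
      intro n hn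
      obtain ⟨k, _, hk⟩ := mem_biUnion.1 hn
      exact (mem_filter.1 (mem_filter.1 hk).1).1
    · intro k _ k' _ hkk
      rw [Function.onFun, disjoint_left]
      intro n hn hn'
      have h1 := (mem_filter.1 (mem_filter.1 hn).1).2
      have h2 := (mem_filter.1 (mem_filter.1 hn').1).2
      omega
  rw [card_range] at h1
  exact_mod_cast h1

open Classical in
/-- the maximal inequality -/
theorem maximal {G : ℕ → (ι → ℤ) → ℝ} {B T₀ : ℝ} {κ : ℕ} (h : Loc G B T₀ κ) (b : ι → ℤ) (N J : ℕ)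
    (hX : (T₀ * ((2 ^ J : ℕ) : ℝ) ^ κ) ^ 2 * (Fintype.card ι * ((2 ^ J : ℕ) : ℝ) ^ 3) ≤ 2 * N + 1)
    (V : ℝ) (hV : 0 < V) :
    (((Box b N).filter (fun a => ∃ x, x < 2 ^ J ∧ V < |∑ p ∈ (range x).filter Nat.Prime, G p a|)).card : ℝ) *
      V ^ 2 ≤ (J : ℝ) ^ 2 * (B + 1) * 2 ^ J * (2 * N + 1) ^ (Fintype.card ι) := by
  set g : (ι → ℤ) → ℕ → ℝ := fun a n => if n.Prime then G n a else 0 with hg
  have hB := h.hB
  set E : Finset (ι → ℤ) := (Box b N).filter
    (fun a => ∃ x, x < 2 ^ J ∧ V < |∑ p ∈ (range x).filter Nat.Prime, G p a|) with hE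
  have hpt : ∀ a ∈ E,
      V ^ 2 ≤ J * ∑ j ∈ range J, ∑ k ∈ range (2 ^ J), (∑ p ∈ (blk J j k).filter Nat.Prime, G p a) ^ 2 := by
    intro a ha
    obtain ⟨_, x, hx, hlt⟩ := mem_filter.1 ha
    have h1 := dyadic J (g a) x hx
    simp only [hg, ← sum_filter] at h1
    refine le_trans ?_ h1
    rw [← sq_abs (∑ p ∈ (range x).filter Nat.Prime, G p a)]
    exact pow_le_pow_left₀ hV.le hlt.le 2
  calc (E.card : ℝ) * V ^ 2 = ∑ a ∈ E, V ^ 2 := by
        rw [sum_const, nsmul_eq_mul]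
    _ ≤ ∑ a ∈ E,
        J * ∑ j ∈ range J, ∑ k ∈ range (2 ^ J), (∑ p ∈ (blk J j k).filter Nat.Prime, G p a) ^ 2 :=
        sum_le_sum hpt
    _ ≤ ∑ a ∈ Box b N,
        J * ∑ j ∈ range J, ∑ k ∈ range (2 ^ J), (∑ p ∈ (blk J j k).filter Nat.Prime, G p a) ^ 2 := by
        apply sum_le_sum_of_subset_of_nonneg (filter_subset _ _)
        intro a _ _
        positivity
    _ = J * ∑ j ∈ range J, ∑ k ∈ range (2 ^ J), ∑ a ∈ Box b N,
          (∑ p ∈ (blk J j k).filter Nat.Prime, G p a) ^ 2 := by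
        rw [← mul_sum, sum_comm]
        congr 1
        refine sum_congr rfl fun j _ => ?_
        rw [sum_comm]
    _ ≤ J * ∑ j ∈ range J, ∑ k ∈ range (2 ^ J),
          (B + 1) * ((blk J j k).filter Nat.Prime).card * (2 * N + 1) ^ (Fintype.card ι) := by
        apply mul_le_mul_of_nonneg_left _ (Nat.cast_nonneg _)
        apply sum_le_sum
        intro j _
        apply sum_le_sum
        intro k _
        apply second h b N (2 ^ J) hX
        intro p hp
        obtain ⟨h1, h2⟩ := mem_filter.1 hp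
        refine ⟨h2, ?_⟩
        have := (mem_filter.1 h1).1
        exact (mem_range.1 this).le
    _ ≤ J * ∑ j ∈ range J, ((B + 1) * 2 ^ J * (2 * N + 1) ^ (Fintype.card ι)) := by
        apply mul_le_mul_of_nonneg_left _ (Nat.cast_nonneg _)
        apply sum_le_sum
        intro j _
        rw [← sum_mul, ← mul_sum]
        apply mul_le_mul_of_nonneg_right _ (by positivity)
        apply mul_le_mul_of_nonneg_left _ (by linarith)
        exact card_blk J j Nat.Prime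
    _ = _ := by
        rw [sum_const, card_range, nsmul_eq_mul]
        ring

end Pool.Agent.W406.HV
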