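import Mathlib
import Pool.Agent.W406.HV.Sec

set_option autoImplicit false

/-! # The final form of the second moment theorem -/

namespace Pool.Agent.W406.HV

open Finset

lemma series (r : ℝ) (hr0 : 0 < r) (hr1 : r < 1) :
    ∃ S : ℝ, 0 ≤ S ∧ ∀ s : Finset ℕ, ∑ k ∈ s, ((k : ℝ) + 2) ^ 2 * r ^ k ≤ S := by
  have h1 : Summable (fun n : ℕ => ((n : ℝ)) ^ 2 * r ^ n) :=
    summable_pow_mul_geometric_of_norm_lt_one 2 (by rw [Real.norm_of_nonneg hr0.le]; exact hr1)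
  have h2 : Summable (fun n : ℕ => (((n + 2 : ℕ) : ℝ)) ^ 2 * r ^ (n + 2)) :=
    (summable_nat_add_iff (f := fun n : ℕ => ((n : ℝ)) ^ 2 * r ^ n) 2).2 h1
  have h3 : Summable (fun k : ℕ => ((k : ℝ) + 2) ^ 2 * r ^ k) := by
    have := h2.mul_right ((r ^ 2)⁻¹)
    refine this.congr fun k => ?_
    push_cast
    rw [pow_add]
    field_simp
  refine ⟨∑' k : ℕ, ((k : ℝ) + 2) ^ 2 * r ^ k, tsum_nonneg fun k => by positivity, fun s => ?_⟩
  exact h3.sum_le_tsum s (fun k _ => by positivity)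

open Classical in
theorem final (D : ℕ) (B T₀ : ℝ) (κ : ℕ) (hB : 0 ≤ B) (hT : 0 ≤ T₀) (ε : ℝ) (hε : 0 < ε) :
    ∃ c C : ℝ, 0 < c ∧ 0 ≤ C ∧ ∀ (ι : Type) [Fintype ι] [DecidableEq ι], Fintype.card ι = D →
      ∀ (G : ℕ → (ι → ℤ) → ℝ), Loc G B T₀ κ → ∀ (N : ℕ) (b : ι → ℤ) (y : ℝ), 1 ≤ y →
      (((Box b N).filter (fun a => ∃ x : ℕ, y ≤ x ∧ (x : ℝ) ≤ (N : ℝ) ^ c ∧
        (x : ℝ) ^ (1 / 2 + ε) < |∑ p ∈ (Icc 1 x).filter Nat.Prime, G p a|)).card : ℝ) ≤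
        C * y ^ (-ε) * (2 * N + 1) ^ D := by
  set c : ℝ := 1 / (2 * ((2 * κ + 3 : ℕ) : ℝ)) with hc
  have hκ : (0 : ℝ) < ((2 * κ + 3 : ℕ) : ℝ) := by positivity
  have hc0 : 0 < c := by rw [hc]; positivity
  have hcκ : c * ((2 * κ + 3 : ℕ) : ℝ) = 1 / 2 := by
    rw [hc]
    field_simp
  -- largeness of N
  have hN₀ : ∃ N₀ : ℕ, 1 ≤ N₀ ∧ ∀ N : ℕ, N₀ ≤ N →
      T₀ ^ 2 * D * (4 : ℝ) ^ (2 * κ + 3) * (N : ℝ) ^ (1 / 2 : ℝ) ≤ 2 * N + 1 := by
    set K : ℝ := T₀ ^ 2 * D * (4 : ℝ) ^ (2 * κ + 3) with hK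
    have hK0 : 0 ≤ K := by rw [hK]; positivity
    obtain ⟨M, hM⟩ := exists_nat_ge (K ^ 2 + 1)
    refine ⟨M, ?_, ?_⟩
    · have : (1 : ℝ) ≤ M := by nlinarith
      exact_mod_cast this
    · intro N hN
      have hN' : K ^ 2 + 1 ≤ N := hM.trans (by exact_mod_cast hN)
      have hN0 : (0 : ℝ) ≤ N := Nat.cast_nonneg N
      rw [← Real.sqrt_eq_rpow]
      have h1 : K ≤ √(N : ℝ) := Real.le_sqrt_of_sq_le (by linarith)
      have h2 : √(N : ℝ) * √(N : ℝ) = N := Real.mul_self_sqrt hN0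
      have h3 : 0 ≤ √(N : ℝ) := Real.sqrt_nonneg _
      nlinarith
  obtain ⟨N₀, hN₀1, hN₀⟩ := hN₀
  have hr0 : (0 : ℝ) < (2 : ℝ) ^ (-ε) := by positivity
  have hr1 : (2 : ℝ) ^ (-ε) < 1 := Real.rpow_lt_one_of_one_lt_of_neg (by norm_num) (by linarith)
  obtain ⟨S, hS0, hS⟩ := series _ hr0 hr1
  set C : ℝ := (N₀ : ℝ) ^ ε + 4 * (B + 1) * S * (2 : ℝ) ^ ε with hC
  have hC0 : 0 ≤ C := by rw [hC]; positivity
  refine ⟨c, C, hc0, hC0, ?_⟩
  intro ι _ _ hD G hG N b y hy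
  have hy0 : 0 < y := by linarith
  set L : ℝ := 2 * N + 1 with hL
  have hL0 : 0 < L := by positivity
  have hcard : ((Box b N).card : ℝ) = L ^ D := by
    rw [card_Box, hD, hL]
    push_cast
    rfl
  set Ex : Finset (ι → ℤ) := (Box b N).filter (fun a => ∃ x : ℕ, y ≤ x ∧ (x : ℝ) ≤ (N : ℝ) ^ c ∧
        (x : ℝ) ^ (1 / 2 + ε) < |∑ p ∈ (Icc 1 x).filter Nat.Prime, G p a|) with hEx
  rcases lt_or_ge N N₀ with hNlt | hNge
  · -- small N
    rcases Ex.eq_empty_or_nonempty with h0 | ⟨a, ha⟩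
    · rw [h0, card_empty]
      push_cast
      positivity
    · obtain ⟨_, x, hx1, hx2, _⟩ := mem_filter.1 ha
      have hN1 : (N : ℝ) ^ c ≤ N₀ := by
        have hc1 : c ≤ 1 := by
          rw [hc, div_le_one (by positivity)]
          have : (1 : ℝ) ≤ ((2 * κ + 3 : ℕ) : ℝ) := by
            push_cast
            have : (0 : ℝ) ≤ κ := Nat.cast_nonneg κ
            linarith
          linarith
        have hN₀' : (1 : ℝ) ≤ N₀ := by exact_mod_cast hN₀1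
        calc (N : ℝ) ^ c ≤ (N₀ : ℝ) ^ c :=
              Real.rpow_le_rpow (Nat.cast_nonneg _) (by exact_mod_cast hNlt.le) hc0.le
          _ ≤ (N₀ : ℝ) ^ (1 : ℝ) := Real.rpow_le_rpow_of_exponent_le hN₀' hc1
          _ = N₀ := Real.rpow_one _
      have hyN : y ≤ N₀ := hx1.trans (hx2.trans hN1)
      have h1 : 1 ≤ C * y ^ (-ε) := by
        rw [Real.rpow_neg hy0.le, ← div_eq_mul_inv, one_le_div (by positivity)]
        calc y ^ ε ≤ (N₀ : ℝ) ^ ε := Real.rpow_le_rpow hy0.le hyN hε.le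
          _ ≤ C := by
              rw [hC]
              have : 0 ≤ 4 * (B + 1) * S * (2 : ℝ) ^ ε := by positivity
              linarith
      calc (Ex.card : ℝ) ≤ ((Box b N).card : ℝ) := by exact_mod_cast card_le_card (filter_subset _ _)
        _ = 1 * L ^ D := by rw [hcard, one_mul]
        _ ≤ C * y ^ (-ε) * L ^ D := mul_le_mul_of_nonneg_right h1 (by positivity)
  · -- large N
    have hmain := hN₀ N hNge
    have hN1 : (1 : ℝ) ≤ N := by exact_mod_cast hN₀1.trans hNge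
    -- the relevant scales
    set Ks : Finset ℕ := (range (N + 1)).filter (fun k => y < (2 : ℝ) ^ (k + 1) ∧ (2 : ℝ) ^ k ≤ (N : ℝ) ^ c)
      with hKs
    set Vk : ℕ → ℝ := fun k => ((2 : ℝ) ^ k) ^ (1 / 2 + ε) with hVk
    set Ek : ℕ → Finset (ι → ℤ) := fun k => (Box b N).filter
      (fun a => ∃ x, x < 2 ^ (k + 2) ∧ Vk k < |∑ p ∈ (range x).filter Nat.Prime, G p a|) with hEk
    have hsub : Ex ⊆ Ks.biUnion Ek := by
      intro a ha
      obtain ⟨haB, x, hx1, hx2, hx3⟩ := mem_filter.1 ha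
      have hx0 : x ≠ 0 := by
        rintro rfl
        simp at hx1
        linarith
      set k := Nat.log 2 x with hk
      have hk1 : 2 ^ k ≤ x := Nat.pow_log_le_self 2 hx0
      have hk2 : x < 2 ^ (k + 1) := Nat.lt_pow_succ_log_self (by norm_num) x
      have hk1' : (2 : ℝ) ^ k ≤ x := by exact_mod_cast hk1
      have hk2' : (x : ℝ) < (2 : ℝ) ^ (k + 1) := by exact_mod_cast hk2
      have hc1 : c ≤ 1 := by
        rw [hc, div_le_one (by positivity)]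
        have : (1 : ℝ) ≤ ((2 * κ + 3 : ℕ) : ℝ) := by
          push_cast
          have : (0 : ℝ) ≤ κ := Nat.cast_nonneg κ
          linarith
        linarith
      have hxN : x ≤ N := by
        have : (x : ℝ) ≤ N := by
          calc (x : ℝ) ≤ (N : ℝ) ^ c := hx2
            _ ≤ (N : ℝ) ^ (1 : ℝ) := Real.rpow_le_rpow_of_exponent_le hN1 hc1
            _ = N := Real.rpow_one _
        exact_mod_cast this
      have hkN : k < N + 1 := by
        have : k < 2 ^ k := Nat.lt_two_pow_self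
        omega
      rw [mem_biUnion]
      refine ⟨k, mem_filter.2 ⟨mem_range.2 hkN, by linarith, by linarith⟩,
        mem_filter.2 ⟨haB, x + 1, ?_, ?_⟩⟩
      · have : 2 ^ (k + 2) = 2 * 2 ^ (k + 1) := by ring
        omega
      · have e1 : (range (x + 1)).filter Nat.Prime = (Icc 1 x).filter Nat.Prime := by
          ext p
          simp only [mem_filter, mem_range, mem_Icc]
          constructor
          · rintro ⟨h1, h2⟩
            exact ⟨⟨h2.one_lt.le, by omega⟩, h2⟩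
          · rintro ⟨h1, h2⟩
            exact ⟨by omega, h2⟩
        rw [e1]
        refine lt_of_le_of_lt ?_ hx3
        simp only [hVk]
        exact Real.rpow_le_rpow (by positivity) hk1' (by positivity)
    have hone : ∀ k ∈ Ks, ((Ek k).card : ℝ) ≤
        (4 * (B + 1) * (((k : ℝ) + 2) ^ 2 * ((2 : ℝ) ^ (-ε)) ^ k)) * ((2 : ℝ) ^ ε * y ^ (-ε)) * L ^ D := by
      intro k hk
      obtain ⟨_, hk1, hk2⟩ := mem_filter.1 hk
      have hV0 : 0 < Vk k := by simp only [hVk]; positivity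
      have hcond : (T₀ * ((2 ^ (k + 2) : ℕ) : ℝ) ^ κ) ^ 2 *
          (Fintype.card ι * ((2 ^ (k + 2) : ℕ) : ℝ) ^ 3) ≤ 2 * N + 1 := by
        refine le_trans ?_ hmain
        rw [hD]
        have h1 : ((2 ^ (k + 2) : ℕ) : ℝ) = 4 * (2 : ℝ) ^ k := by
          push_cast
          rw [pow_add]
          norm_num
          ring
        have h2 : ((2 : ℝ) ^ k) ^ (2 * κ + 3) ≤ (N : ℝ) ^ (1 / 2 : ℝ) := by
          calc ((2 : ℝ) ^ k) ^ (2 * κ + 3) ≤ ((N : ℝ) ^ c) ^ (2 * κ + 3) :=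
                pow_le_pow_left₀ (by positivity) hk2 _
            _ = (N : ℝ) ^ (1 / 2 : ℝ) := by
                rw [← Real.rpow_natCast, ← Real.rpow_mul (by positivity), hcκ]
        calc (T₀ * ((2 ^ (k + 2) : ℕ) : ℝ) ^ κ) ^ 2 * (D * ((2 ^ (k + 2) : ℕ) : ℝ) ^ 3)
            = T₀ ^ 2 * D * 4 ^ (2 * κ + 3) * ((2 : ℝ) ^ k) ^ (2 * κ + 3) := by
              rw [h1]
              ring
          _ ≤ _ := mul_le_mul_of_nonneg_left h2 (by positivity)
      have h3 := maximal hG b N (k + 2) hcond (Vk k) hV0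
      have h4 : Vk k ^ 2 = (2 : ℝ) ^ k * ((2 : ℝ) ^ ε) ^ k * ((2 : ℝ) ^ ε) ^ k := by
        have e1 : (0 : ℝ) < (2 : ℝ) ^ k := by positivity
        simp only [hVk]
        rw [← Real.rpow_natCast (((2 : ℝ) ^ k) ^ (1 / 2 + ε)) 2, ← Real.rpow_mul e1.le]
        have e2 : (1 / 2 + ε) * ((2 : ℕ) : ℝ) = 1 + ε + ε := by push_cast; ring
        rw [e2, Real.rpow_add e1, Real.rpow_add e1, Real.rpow_one]
        have e3 : ((2 : ℝ) ^ k) ^ ε = ((2 : ℝ) ^ ε) ^ k := by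
          rw [← Real.rpow_natCast, ← Real.rpow_natCast, ← Real.rpow_mul (by norm_num),
            ← Real.rpow_mul (by norm_num), mul_comm]
        rw [e3]
      have h5 : y ^ ε ≤ (2 : ℝ) ^ ε * ((2 : ℝ) ^ ε) ^ k := by
        have e3 : ((2 : ℝ) ^ (k + 1)) ^ ε = (2 : ℝ) ^ ε * ((2 : ℝ) ^ ε) ^ k := by
          rw [← pow_succ', ← Real.rpow_natCast, ← Real.rpow_natCast, ← Real.rpow_mul (by norm_num),
            ← Real.rpow_mul (by norm_num), mul_comm]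
        rw [← e3]
        exact Real.rpow_le_rpow hy0.le hk1.le hε.le
      have hE0 : 0 < (2 : ℝ) ^ ε := by positivity
      set E := (2 : ℝ) ^ ε with hE
      have hEk' : 0 < E ^ k := by positivity
      have h6 : ((Ek k).card : ℝ) * ((2 : ℝ) ^ k * E ^ k * E ^ k) ≤
          ((k : ℝ) + 2) ^ 2 * (B + 1) * 2 ^ (k + 2) * L ^ D := by
        rw [← h4]
        have := h3
        rw [hD] at this
        push_cast at this
        exact this
      rw [Real.rpow_neg (by norm_num : (0 : ℝ) ≤ 2), Real.rpow_neg hy0.le, ← hE]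
      have hyε : 0 < y ^ ε := by positivity
      have h7 : ((Ek k).card : ℝ) * (E ^ k * E ^ k) ≤ 4 * (B + 1) * ((k : ℝ) + 2) ^ 2 * L ^ D := by
        have h2k : (0 : ℝ) < 2 ^ k := by positivity
        have : (((Ek k).card : ℝ) * (E ^ k * E ^ k)) * 2 ^ k ≤
            (4 * (B + 1) * ((k : ℝ) + 2) ^ 2 * L ^ D) * 2 ^ k := by
          calc (((Ek k).card : ℝ) * (E ^ k * E ^ k)) * 2 ^ k
              = ((Ek k).card : ℝ) * ((2 : ℝ) ^ k * E ^ k * E ^ k) := by ring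
            _ ≤ _ := h6
            _ = _ := by ring
        exact le_of_mul_le_mul_right this h2k
      have h8 : 1 ≤ (E * E ^ k) * (y ^ ε)⁻¹ := by
        rw [← div_eq_mul_inv, one_le_div hyε]
        exact h5
      calc ((Ek k).card : ℝ) = ((Ek k).card : ℝ) * (E ^ k * E ^ k) * (E ^ k)⁻¹ * (E ^ k)⁻¹ := by
            field_simp
        _ ≤ (4 * (B + 1) * ((k : ℝ) + 2) ^ 2 * L ^ D) * (E ^ k)⁻¹ * (E ^ k)⁻¹ := by
            gcongr
        _ = (4 * (B + 1) * ((k : ℝ) + 2) ^ 2 * L ^ D) * (E ^ k)⁻¹ * (E ^ k)⁻¹ * 1 := by ring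
        _ ≤ (4 * (B + 1) * ((k : ℝ) + 2) ^ 2 * L ^ D) * (E ^ k)⁻¹ * (E ^ k)⁻¹ *
              ((E * E ^ k) * (y ^ ε)⁻¹) := mul_le_mul_of_nonneg_left h8 (by positivity)
        _ = _ := by
            rw [inv_pow]
            field_simp
    calc (Ex.card : ℝ) ≤ ((Ks.biUnion Ek).card : ℝ) := by exact_mod_cast card_le_card hsub
      _ ≤ ∑ k ∈ Ks, ((Ek k).card : ℝ) := by exact_mod_cast card_biUnion_le
      _ ≤ ∑ k ∈ Ks, (4 * (B + 1) * (((k : ℝ) + 2) ^ 2 * ((2 : ℝ) ^ (-ε)) ^ k)) *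
            ((2 : ℝ) ^ ε * y ^ (-ε)) * L ^ D := sum_le_sum hone
      _ = 4 * (B + 1) * (∑ k ∈ Ks, ((k : ℝ) + 2) ^ 2 * ((2 : ℝ) ^ (-ε)) ^ k) *
            ((2 : ℝ) ^ ε * y ^ (-ε)) * L ^ D := by
          rw [← sum_mul, ← sum_mul, ← mul_sum]
      _ ≤ 4 * (B + 1) * S * ((2 : ℝ) ^ ε * y ^ (-ε)) * L ^ D := by
          have := hS Ks
          gcongr
      _ = (4 * (B + 1) * S * (2 : ℝ) ^ ε) * y ^ (-ε) * L ^ D := by ring
      _ ≤ C * y ^ (-ε) * L ^ D := by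
          have : (0 : ℝ) ≤ (N₀ : ℝ) ^ ε := by positivity
          have h9 : 4 * (B + 1) * S * (2 : ℝ) ^ ε ≤ C := by rw [hC]; linarith
          gcongr

end Pool.Agent.W406.HV
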