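import Mathlib
import Pool.Agent.W406.HV.Cost
import Pool.Agent.W406.HV.Fin

set_option autoImplicit false

/-! # The main theorem for families of hypersurfaces -/

namespace Pool.Agent.W406.HV

open Finset

/-- the assumptions on the normalised traces -/
def Good (r D s t : ℕ) (Pr : ℕ → Prop) (T : ℕ → (Ix r D → ℤ) → ℝ) : Prop :=
  ∀ (p : ℕ) [Fact p.Prime], Pr p → ∃ (c : ZMod p → ℝ) (δ : ℝ), (∀ u, |c u| ≤ 1) ∧ ∑ u, c u = 0 ∧
    ej c 2 = (1 - 1 / (p : ℝ)) / (p : ℝ) ^ t ∧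
    (∀ (a : (ZMod p)ˣ) (y : ZMod p), c ((a : ZMod p) ^ D * y) = c y) ∧ 0 ≤ δ ∧ δ ≤ 1 / (p : ℝ) ∧
    ∀ a : Ix r D → ℤ, T p a = (Sm c (fun α => (a α : ZMod p)) + δ) / √((p : ℝ) ^ s)

lemma Good.per {r D s t : ℕ} {Pr : ℕ → Prop} {T : ℕ → (Ix r D → ℤ) → ℝ} (h : Good r D s t Pr T)
    (p : ℕ) (hp : p.Prime) (hP : Pr p) : Per p (T p) := by
  have : Fact p.Prime := ⟨hp⟩
  obtain ⟨c, δ, _, _, _, _, _, _, hT⟩ := h p hP
  intro a b hab
  rw [hT, hT]
  have : (fun α => (a α : ZMod p)) = (fun α => (b α : ZMod p)) := by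
    funext α
    have := hab α
    rw [eq_comm, ZMod.intCast_eq_intCast_iff_dvd_sub]
    exact this
  rw [this]

lemma Good.bd {r D s t : ℕ} {Pr : ℕ → Prop} {T : ℕ → (Ix r D → ℤ) → ℝ} (h : Good r D s t Pr T)
    (p : ℕ) (hp : p.Prime) (hP : Pr p) (a : Ix r D → ℤ) : |T p a| ≤ 2 * (p : ℝ) ^ r := by
  have : Fact p.Prime := ⟨hp⟩
  obtain ⟨c, δ, hc, _, _, hinv, hδ0, hδ1, hT⟩ := h p hP
  rw [hT]
  have hp1 : (1 : ℝ) ≤ p := by exact_mod_cast hp.one_lt.le
  have hps : 1 ≤ √((p : ℝ) ^ s) := by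
    rw [Real.one_le_sqrt]
    exact one_le_pow₀ hp1
  have h1 : |Sm c (fun α => (a α : ZMod p))| ≤ (p : ℝ) ^ r := by
    have := Sm_le c hc hinv (fun α => (a α : ZMod p))
    rw [ZMod.card] at this
    exact this
  have hpr : (1 : ℝ) ≤ (p : ℝ) ^ r := one_le_pow₀ hp1
  have hδ2 : δ ≤ 1 := hδ1.trans (by rw [div_le_one (by linarith)]; exact hp1)
  rw [abs_div, abs_of_nonneg (by linarith : 0 ≤ √((p : ℝ) ^ s))]
  refine (div_le_self (abs_nonneg _) hps).trans ?_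
  calc |Sm c (fun α => (a α : ZMod p)) + δ| ≤ |Sm c (fun α => (a α : ZMod p))| + |δ| := abs_add_le _ _
    _ ≤ (p : ℝ) ^ r + 1 := by
        rw [abs_of_nonneg hδ0]
        linarith
    _ ≤ _ := by linarith

/-- the mean value over the residue classes -/
noncomputable def Ev {r D : ℕ} (T : ℕ → (Ix r D → ℤ) → ℝ) (m p : ℕ) : ℝ :=
  if hp : p.Prime then
    haveI : NeZero p := ⟨hp.ne_zero⟩
    (∑ u : Ix r D → ZMod p, T p (valv u) ^ m) / (Fintype.card (Ix r D → ZMod p) : ℝ)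
  else 0

lemma Ev_eq {r D : ℕ} (T : ℕ → (Ix r D → ℤ) → ℝ) (m p : ℕ) (hp : p.Prime) [NeZero p] :
    Ev T m p = (∑ u : Ix r D → ZMod p, T p (valv u) ^ m) / (Fintype.card (Ix r D → ZMod p) : ℝ) := by
  unfold Ev
  rw [dif_pos hp]

lemma Good.mean {r D s t : ℕ} (m : ℕ) (hs : 1 ≤ s) (hr : s + t + 1 = r) (hm : m ≤ D + 1) :
    ∃ C : ℝ, 0 ≤ C ∧ ∀ (Pr : ℕ → Prop) (T : ℕ → (Ix r D → ℤ) → ℝ), Good r D s t Pr T →
      ∀ p : ℕ, p.Prime → Pr p → |Ev T m p - mom m| ≤ C / √(p : ℝ) := by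
  obtain ⟨C, hC0, hC⟩ := local_bound r D m t s hs hr hm
  refine ⟨C, hC0, ?_⟩
  intro Pr T h p hp hP
  have : Fact p.Prime := ⟨hp⟩
  rw [Ev_eq T m p hp]
  obtain ⟨c, δ, hc, h1, h2, hinv, hδ0, hδ1, hT⟩ := h p hP
  have h3 : ∀ u : Ix r D → ZMod p, T p (valv u) = (Sm c u + δ) / √((p : ℝ) ^ s) := by
    intro u
    rw [hT]
    have : (fun α => ((valv u α : ℤ) : ZMod p)) = u := redv_valv u
    rw [this]
  rw [sum_congr rfl (fun u _ => by rw [h3 u])]
  have h4 := hC (ZMod p) c δ hc h1 (by rw [ZMod.card]; exact h2) hinv hδ0 (by rw [ZMod.card]; exact hδ1)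
  rw [ZMod.card] at h4
  exact h4

open Classical in
/-- the centred local terms -/
noncomputable def GG {r D : ℕ} (Pr : ℕ → Prop) (T : ℕ → (Ix r D → ℤ) → ℝ) (m p : ℕ) (a : Ix r D → ℤ) : ℝ :=
  if p.Prime ∧ Pr p then 2 * (T p a ^ m - Ev T m p) else 0

lemma Good.loc {r D s t : ℕ} (m M : ℕ) (hs : 1 ≤ s) (hr : s + t + 1 = r) (hm : 2 * m ≤ D + 1) (hmM : m ≤ M) :
    ∃ B : ℝ, 0 ≤ B ∧ ∀ (Pr : ℕ → Prop) (T : ℕ → (Ix r D → ℤ) → ℝ), Good r D s t Pr T →
      Loc (GG Pr T m) B (2 ^ (M + 2)) (r * M) := by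
  obtain ⟨C, hC0, hC⟩ := Good.mean (r := r) (D := D) (s := s) (t := t) (2 * m) hs hr hm
  have hmom := mom_nonneg (2 * m)
  refine ⟨4 * (mom (2 * m) + C), by positivity, ?_⟩
  intro Pr T h
  have hTm : ∀ p : ℕ, p.Prime → Pr p → ∀ a, |T p a ^ m| ≤ 2 ^ m * (p : ℝ) ^ (r * m) := by
    intro p hp hP a
    rw [abs_pow]
    calc |T p a| ^ m ≤ (2 * (p : ℝ) ^ r) ^ m := pow_le_pow_left₀ (abs_nonneg _) (h.bd p hp hP a) m
      _ = _ := by rw [mul_pow, ← pow_mul]
  refine ⟨by positivity, by positivity, ?_, ?_, ?_, ?_⟩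
  · intro p hp a b hab
    unfold GG
    by_cases hP : Pr p
    · rw [if_pos ⟨hp, hP⟩, if_pos ⟨hp, hP⟩, h.per p hp hP a b hab]
    · rw [if_neg (fun h => hP h.2), if_neg (fun h => hP h.2)]
  · intro p hp hne
    by_cases hP : Pr p
    · have h1 : ∀ u : Ix r D → ZMod p, GG Pr T m p (valv u) = 2 * (T p (valv u) ^ m - Ev T m p) := by
        intro u
        unfold GG
        rw [if_pos ⟨hp, hP⟩]
      rw [sum_congr rfl (fun u _ => h1 u), ← mul_sum, sum_sub_distrib, sum_const, card_univ,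
        nsmul_eq_mul, Ev_eq T m p hp]
      have hV : (Fintype.card (Ix r D → ZMod p) : ℝ) ≠ 0 := by
        have : 0 < Fintype.card (Ix r D → ZMod p) := Fintype.card_pos
        exact_mod_cast this.ne'
      field_simp
      ring
    · apply sum_eq_zero
      intro u _
      unfold GG
      rw [if_neg (fun h => hP h.2)]
  · intro p hp a
    have hp1 : (1 : ℝ) ≤ p := by exact_mod_cast hp.one_lt.le
    unfold GG
    by_cases hP : Pr p
    · rw [if_pos ⟨hp, hP⟩]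
      have : NeZero p := ⟨hp.ne_zero⟩
      have h1 := hTm p hp hP a
      have hV : (0 : ℝ) < (Fintype.card (Ix r D → ZMod p) : ℝ) := by
        have : 0 < Fintype.card (Ix r D → ZMod p) := Fintype.card_pos
        exact_mod_cast this
      have h2 : |Ev T m p| ≤ 2 ^ m * (p : ℝ) ^ (r * m) := by
        rw [Ev_eq T m p hp, abs_div, abs_of_pos hV, div_le_iff₀ hV]
        calc |∑ u : Ix r D → ZMod p, T p (valv u) ^ m| ≤ ∑ u : Ix r D → ZMod p, |T p (valv u) ^ m| :=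
              abs_sum_le_sum_abs _ _
          _ ≤ ∑ u : Ix r D → ZMod p, 2 ^ m * (p : ℝ) ^ (r * m) := sum_le_sum fun u _ => hTm p hp hP _
          _ = _ := by rw [sum_const, card_univ, nsmul_eq_mul]; ring
      rw [abs_mul, abs_of_pos (by norm_num : (0 : ℝ) < 2)]
      calc 2 * |T p a ^ m - Ev T m p| ≤ 2 * (|T p a ^ m| + |Ev T m p|) := by
            apply mul_le_mul_of_nonneg_left (abs_sub _ _) (by norm_num)
        _ ≤ 2 * (2 ^ m * (p : ℝ) ^ (r * m) + 2 ^ m * (p : ℝ) ^ (r * m)) := by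
            apply mul_le_mul_of_nonneg_left (add_le_add h1 h2) (by norm_num)
        _ = 2 ^ (m + 2) * (p : ℝ) ^ (r * m) := by ring
        _ ≤ 2 ^ (M + 2) * (p : ℝ) ^ (r * M) := by
            apply mul_le_mul
            · exact pow_le_pow_right₀ (by norm_num) (by omega)
            · exact pow_le_pow_right₀ hp1 (Nat.mul_le_mul_left _ hmM)
            · positivity
            · positivity
    · rw [if_neg (fun h => hP h.2), abs_zero]
      positivity
  · intro p hp hne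
    by_cases hP : Pr p
    · have hV : (0 : ℝ) < (Fintype.card (Ix r D → ZMod p) : ℝ) := by
        have : 0 < Fintype.card (Ix r D → ZMod p) := Fintype.card_pos
        exact_mod_cast this
      set V : ℝ := ((Fintype.card (Ix r D → ZMod p) : ℕ) : ℝ) with hVd
      have h1 : ∀ u : Ix r D → ZMod p, GG Pr T m p (valv u) ^ 2 =
          4 * (T p (valv u) ^ (2 * m)) - 8 * Ev T m p * T p (valv u) ^ m + 4 * Ev T m p ^ 2 := by
        intro u
        unfold GG
        rw [if_pos ⟨hp, hP⟩, pow_mul']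
        ring
      have hE : ∑ u : Ix r D → ZMod p, T p (valv u) ^ m = Ev T m p * V := by
        rw [Ev_eq T m p hp, ← hVd]
        field_simp
      rw [sum_congr rfl (fun u _ => h1 u), sum_add_distrib, sum_sub_distrib, ← mul_sum, ← mul_sum,
        sum_const, card_univ, nsmul_eq_mul, hE, ← hVd]
      have h2 : ∑ u : Ix r D → ZMod p, T p (valv u) ^ (2 * m) ≤ (mom (2 * m) + C) * V := by
        have h3 := hC Pr T h p hp hP
        rw [Ev_eq T (2 * m) p hp] at h3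
        have h4 : C / √(p : ℝ) ≤ C := by
          apply div_le_self hC0
          rw [Real.one_le_sqrt]
          exact_mod_cast hp.one_lt.le
        have h5 := (abs_le.1 (h3.trans h4)).2
        have h6 : (∑ u : Ix r D → ZMod p, T p (valv u) ^ (2 * m)) / V ≤ mom (2 * m) + C := by
          rw [← hVd] at h5
          linarith
        rwa [div_le_iff₀ hV] at h6
      have h7 : 0 ≤ Ev T m p ^ 2 * V := by positivity
      nlinarith
    · have h1 : ∑ u : Ix r D → ZMod p, GG Pr T m p (valv u) ^ 2 = 0 := by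
        apply sum_eq_zero
        intro u _
        unfold GG
        rw [if_neg (fun h => hP h.2)]
        norm_num
      rw [h1]
      positivity

lemma sum_inv_sqrt (x : ℕ) : ∑ n ∈ Icc 1 x, 1 / √(n : ℝ) ≤ 2 * √(x : ℝ) := by
  induction x with
  | zero => simp
  | succ x ih =>
    rw [sum_Icc_succ_top (by omega)]
    have h0 : (0 : ℝ) ≤ x := Nat.cast_nonneg x
    have h1 : 0 < √((x + 1 : ℕ) : ℝ) := Real.sqrt_pos.2 (by positivity)
    have h2 : 0 ≤ √(x : ℝ) := Real.sqrt_nonneg _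
    have h3 : √((x + 1 : ℕ) : ℝ) ^ 2 = x + 1 := by
      rw [Real.sq_sqrt (by positivity)]
      push_cast
      rfl
    have h4 : √(x : ℝ) ^ 2 = x := Real.sq_sqrt h0
    have h5 : 1 / √((x + 1 : ℕ) : ℝ) ≤ 2 * √((x + 1 : ℕ) : ℝ) - 2 * √(x : ℝ) := by
      rw [div_le_iff₀ h1]
      nlinarith [sq_nonneg (√((x + 1 : ℕ) : ℝ) - √(x : ℝ))]
    linarith

open Classical in
theorem master (r D s t : ℕ) (hs : 1 ≤ s) (hr : s + t + 1 = r) (Pr : ℕ → Prop)
    (T : ℕ → (Ix r D → ℤ) → ℝ) (h : Good r D s t Pr T) (ε : ℝ) (hε : 0 < ε) :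
    ∃ c C : ℝ, 0 < c ∧ ∀ (N : ℕ) (b : Ix r D → ℤ) (y : ℝ), 1 ≤ y →
      (((Box b N).filter (fun a => ∃ x : ℕ, y ≤ x ∧ (x : ℝ) ≤ (N : ℝ) ^ c ∧ ∃ m : ℕ, 2 * m ≤ D + 1 ∧
        (x : ℝ) ^ (1 / 2 + ε) <
          |∑ p ∈ (Icc 1 x).filter (fun p => p.Prime ∧ Pr p), (T p a ^ m - mom m)|)).card : ℝ) ≤
        C * y ^ (-ε) * (2 * N + 1) ^ (Fintype.card (Ix r D)) := by
  set M : ℕ := (D + 1) / 2 with hM
  have hB : ∀ m : ℕ, ∃ B : ℝ, 0 ≤ B ∧ (m ≤ M → Loc (GG Pr T m) B (2 ^ (M + 2)) (r * M)) := by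
    intro m
    by_cases hm : m ≤ M
    · obtain ⟨B, hB0, hB⟩ := Good.loc (r := r) (D := D) (s := s) (t := t) m M hs hr (by omega) hm
      exact ⟨B, hB0, fun _ => hB Pr T h⟩
    · exact ⟨0, le_refl _, fun h => absurd h hm⟩
  choose B hB0 hB using hB
  have hCm : ∀ m : ℕ, ∃ C : ℝ, 0 ≤ C ∧ (m ≤ M → ∀ p : ℕ, p.Prime → Pr p →
      |Ev T m p - mom m| ≤ C / √(p : ℝ)) := by
    intro m
    by_cases hm : m ≤ M
    · obtain ⟨C, hC0, hC⟩ := Good.mean (r := r) (D := D) (s := s) (t := t) m hs hr (by omega)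
      exact ⟨C, hC0, fun _ => hC Pr T h⟩
    · exact ⟨0, le_refl _, fun h => absurd h hm⟩
  choose Cm hCm0 hCm using hCm
  set Bt : ℝ := ∑ m ∈ range (M + 1), B m with hBt
  have hBt0 : 0 ≤ Bt := sum_nonneg fun m _ => hB0 m
  have hBle : ∀ m ≤ M, B m ≤ Bt := fun m hm =>
    single_le_sum (f := B) (fun i _ => hB0 i) (mem_range.2 (by omega))
  have hLoc : ∀ m ≤ M, Loc (GG Pr T m) Bt (2 ^ (M + 2)) (r * M) := by
    intro m hm
    have h1 := hB m hm
    refine ⟨hBt0, h1.hT, h1.per, h1.zero, h1.bd, ?_⟩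
    intro p hp hne
    refine (h1.sq p hp).trans ?_
    exact mul_le_mul_of_nonneg_right (hBle m hm) (Nat.cast_nonneg _)
  set Ct : ℝ := ∑ m ∈ range (M + 1), Cm m with hCt
  have hCt0 : 0 ≤ Ct := sum_nonneg fun m _ => hCm0 m
  have hCle : ∀ m ≤ M, Cm m ≤ Ct := fun m hm =>
    single_le_sum (f := Cm) (fun i _ => hCm0 i) (mem_range.2 (by omega))
  obtain ⟨c, C, hc, hC0, hfin⟩ := final (Fintype.card (Ix r D)) Bt (2 ^ (M + 2)) (r * M) hBt0
    (by positivity) ε hε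
  -- largeness of x
  have hlarge : ∃ K₁ : ℕ, 1 ≤ K₁ ∧ ∀ x : ℕ, K₁ ≤ x → 4 * Ct ≤ (x : ℝ) ^ ε := by
    have h2 : ∀ᶠ x : ℕ in Filter.atTop, 4 * Ct ≤ (x : ℝ) ^ ε :=
      ((tendsto_rpow_atTop hε).comp tendsto_natCast_atTop_atTop).eventually_ge_atTop _
    obtain ⟨K₁, hK₁⟩ := Filter.eventually_atTop.1 h2
    exact ⟨K₁ + 1, by omega, fun x hx => hK₁ x (by omega)⟩
  obtain ⟨K₁, hK₁1, hK₁⟩ := hlarge
  refine ⟨c, (K₁ : ℝ) ^ ε + (M + 1) * C, hc, ?_⟩
  intro N b y hy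
  have hy0 : 0 < y := by linarith
  set Dm := Fintype.card (Ix r D) with hDm
  set L : ℝ := 2 * N + 1 with hL
  have hL0 : 0 < L := by positivity
  set Ex : Finset (Ix r D → ℤ) := (Box b N).filter (fun a => ∃ x : ℕ, y ≤ x ∧ (x : ℝ) ≤ (N : ℝ) ^ c ∧
        ∃ m : ℕ, 2 * m ≤ D + 1 ∧ (x : ℝ) ^ (1 / 2 + ε) <
          |∑ p ∈ (Icc 1 x).filter (fun p => p.Prime ∧ Pr p), (T p a ^ m - mom m)|) with hEx
  rcases lt_or_ge y K₁ with hyK | hyK
  · have h1 : 1 ≤ ((K₁ : ℝ) ^ ε + (M + 1) * C) * y ^ (-ε) := by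
      rw [Real.rpow_neg hy0.le, ← div_eq_mul_inv, one_le_div (by positivity)]
      calc y ^ ε ≤ (K₁ : ℝ) ^ ε := Real.rpow_le_rpow hy0.le hyK.le hε.le
        _ ≤ _ := by
            have : 0 ≤ ((M : ℝ) + 1) * C := by positivity
            linarith
    have hcard : ((Box b N).card : ℝ) = L ^ Dm := by
      rw [card_Box, hL]
      push_cast
      rfl
    calc (Ex.card : ℝ) ≤ ((Box b N).card : ℝ) := by exact_mod_cast card_le_card (filter_subset _ _)
      _ = 1 * L ^ Dm := by rw [hcard, one_mul]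
      _ ≤ _ := mul_le_mul_of_nonneg_right h1 (by positivity)
  · set Em : ℕ → Finset (Ix r D → ℤ) := fun m => (Box b N).filter (fun a => ∃ x : ℕ, y ≤ x ∧
      (x : ℝ) ≤ (N : ℝ) ^ c ∧ (x : ℝ) ^ (1 / 2 + ε) < |∑ p ∈ (Icc 1 x).filter Nat.Prime, GG Pr T m p a|)
      with hEm
    have hsub : Ex ⊆ (range (M + 1)).biUnion Em := by
      intro a ha
      obtain ⟨haB, x, hx1, hx2, m, hm, hx3⟩ := mem_filter.1 ha
      have hmM : m ≤ M := by omega
      refine mem_biUnion.2 ⟨m, mem_range.2 (by omega), mem_filter.2 ⟨haB, x, hx1, hx2, ?_⟩⟩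
      have hxK : K₁ ≤ x := by exact_mod_cast hyK.trans hx1
      have hx0 : (0 : ℝ) < x := by
        have : (1 : ℝ) ≤ x := hy.trans hx1
        linarith
      have e1 : ∑ p ∈ (Icc 1 x).filter Nat.Prime, GG Pr T m p a =
          2 * ∑ p ∈ (Icc 1 x).filter (fun p => p.Prime ∧ Pr p), (T p a ^ m - Ev T m p) := by
        have hss : (Icc 1 x).filter (fun p => p.Prime ∧ Pr p) ⊆ (Icc 1 x).filter Nat.Prime := by
          intro p hp
          obtain ⟨h1, h2⟩ := mem_filter.1 hp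
          exact mem_filter.2 ⟨h1, h2.1⟩
        rw [mul_sum, ← sum_subset hss]
        · refine sum_congr rfl fun p hp => ?_
          unfold GG
          rw [if_pos (mem_filter.1 hp).2]
        · intro p hp hp'
          unfold GG
          rw [if_neg]
          intro h1
          exact hp' (mem_filter.2 ⟨(mem_filter.1 hp).1, h1⟩)
      have e2 : ∑ p ∈ (Icc 1 x).filter (fun p => p.Prime ∧ Pr p), (T p a ^ m - mom m) =
          ∑ p ∈ (Icc 1 x).filter (fun p => p.Prime ∧ Pr p), (T p a ^ m - Ev T m p) +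
          ∑ p ∈ (Icc 1 x).filter (fun p => p.Prime ∧ Pr p), (Ev T m p - mom m) := by
        rw [← sum_add_distrib]
        refine sum_congr rfl fun p _ => by ring
      have b1 : |∑ p ∈ (Icc 1 x).filter (fun p => p.Prime ∧ Pr p), (Ev T m p - mom m)| ≤
          (1 / 2) * (x : ℝ) ^ (1 / 2 + ε) := by
        calc |∑ p ∈ (Icc 1 x).filter (fun p => p.Prime ∧ Pr p), (Ev T m p - mom m)|
            ≤ ∑ p ∈ (Icc 1 x).filter (fun p => p.Prime ∧ Pr p), |Ev T m p - mom m| :=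
              abs_sum_le_sum_abs _ _
          _ ≤ ∑ p ∈ (Icc 1 x).filter (fun p => p.Prime ∧ Pr p), Ct * (1 / √(p : ℝ)) := by
              apply sum_le_sum
              intro p hp
              obtain ⟨h1, h2, h3⟩ := mem_filter.1 hp
              refine (hCm m hmM p h2 h3).trans ?_
              rw [div_eq_mul_one_div]
              exact mul_le_mul_of_nonneg_right (hCle m hmM) (by positivity)
          _ ≤ ∑ p ∈ Icc 1 x, Ct * (1 / √(p : ℝ)) := by
              apply sum_le_sum_of_subset_of_nonneg (filter_subset _ _)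
              intro i _ _
              positivity
          _ = Ct * ∑ p ∈ Icc 1 x, 1 / √(p : ℝ) := by rw [mul_sum]
          _ ≤ Ct * (2 * √(x : ℝ)) := mul_le_mul_of_nonneg_left (sum_inv_sqrt x) hCt0
          _ = (1 / 2) * (√(x : ℝ) * (4 * Ct)) := by ring
          _ ≤ (1 / 2) * (√(x : ℝ) * (x : ℝ) ^ ε) := by
              have := hK₁ x hxK
              gcongr
          _ = _ := by
              rw [Real.sqrt_eq_rpow, ← Real.rpow_add hx0]
      rw [e2] at hx3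
      have h9 := abs_add_le (∑ p ∈ (Icc 1 x).filter (fun p => p.Prime ∧ Pr p), (T p a ^ m - Ev T m p))
        (∑ p ∈ (Icc 1 x).filter (fun p => p.Prime ∧ Pr p), (Ev T m p - mom m))
      rw [e1, abs_mul, abs_of_pos (by norm_num : (0 : ℝ) < 2)]
      linarith
    calc (Ex.card : ℝ) ≤ (((range (M + 1)).biUnion Em).card : ℝ) := by exact_mod_cast card_le_card hsub
      _ ≤ ∑ m ∈ range (M + 1), ((Em m).card : ℝ) := by exact_mod_cast card_biUnion_le
      _ ≤ ∑ m ∈ range (M + 1), C * y ^ (-ε) * L ^ Dm := by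
          apply sum_le_sum
          intro m hm
          rw [mem_range] at hm
          exact hfin (Ix r D) rfl (GG Pr T m) (hLoc m (by omega)) N b y hy
      _ = ((M : ℝ) + 1) * C * y ^ (-ε) * L ^ Dm := by
          rw [sum_const, card_range, nsmul_eq_mul]
          push_cast
          ring
      _ ≤ _ := by
          have : (0 : ℝ) ≤ (K₁ : ℝ) ^ ε := by positivity
          have h1 : ((M : ℝ) + 1) * C ≤ (K₁ : ℝ) ^ ε + (M + 1) * C := by linarith
          gcongr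

end Pool.Agent.W406.HV
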