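import Mathlib
import Pool.Agent.W406.HV.Master

set_option autoImplicit false

/-! # The main theorem with truncated powers: moments up to `D` -/

namespace Pool.Agent.W406.HV

open Finset

/-- truncated powers -/
noncomputable def tp (A : ℝ) (m : ℕ) (z : ℝ) : ℝ := if |z| ≤ A then z ^ m else 0

lemma tp_abs (A : ℝ) (m : ℕ) (z : ℝ) : |tp A m z| ≤ |z| ^ m := by
  unfold tp
  split_ifs
  · rw [abs_pow]
  · rw [abs_zero]
    positivity

lemma tp_sq (A : ℝ) (hA : 1 ≤ A) (m h : ℕ) (z : ℝ) :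
    tp A m z ^ 2 ≤ A ^ (2 * (m - h)) * (1 + z ^ (2 * h)) := by
  have hA0 : 0 < A := by linarith
  have hz2 : ∀ j : ℕ, z ^ (2 * j) = |z| ^ (2 * j) := by
    intro j
    rw [pow_mul, pow_mul, sq_abs]
  have hz0 := abs_nonneg z
  unfold tp
  split_ifs with hz
  · rw [← pow_mul, mul_comm m 2, hz2 m, hz2 h]
    rcases le_or_gt m h with hm | hm
    · have : m - h = 0 := by omega
      rw [this, mul_zero, pow_zero, one_mul]
      rcases le_or_gt |z| 1 with h1 | h1
      · have h2 : |z| ^ (2 * m) ≤ 1 := pow_le_one₀ hz0 h1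
        have h3 : 0 ≤ |z| ^ (2 * h) := by positivity
        linarith
      · have h2 : |z| ^ (2 * m) ≤ |z| ^ (2 * h) := pow_le_pow_right₀ h1.le (by omega)
        linarith
    · have e : 2 * m = 2 * (m - h) + 2 * h := by omega
      rw [e, pow_add]
      have h1 : |z| ^ (2 * (m - h)) ≤ A ^ (2 * (m - h)) := pow_le_pow_left₀ hz0 hz _
      have h2 : 0 ≤ |z| ^ (2 * h) := by positivity
      have h3 : 0 ≤ A ^ (2 * (m - h)) := by positivity
      nlinarith
  · have h2 : 0 ≤ z ^ (2 * h) := by rw [hz2]; positivity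
    have h3 : 0 ≤ A ^ (2 * (m - h)) := by positivity
    rw [zero_pow (by norm_num)]
    positivity

lemma tp_tail (A : ℝ) (hA : 1 ≤ A) (m h : ℕ) (hm : m ≤ 2 * h) (z : ℝ) :
    |z ^ m - tp A m z| ≤ z ^ (2 * h) / A ^ (2 * h - m) := by
  have hA0 : 0 < A := by linarith
  have hz2 : z ^ (2 * h) = |z| ^ (2 * h) := by rw [pow_mul, pow_mul, sq_abs]
  have hz0 := abs_nonneg z
  unfold tp
  split_ifs with hz
  · rw [sub_self, abs_zero, hz2]
    positivity
  · push Not at hz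
    rw [sub_zero, abs_pow, hz2, le_div_iff₀ (by positivity)]
    have e : 2 * h = m + (2 * h - m) := by omega
    conv_rhs => rw [e, pow_add]
    exact mul_le_mul_of_nonneg_left (pow_le_pow_left₀ hA0.le hz.le _) (by positivity)

/-- the mean value over the residue classes -/
noncomputable def Em {r D : ℕ} (T : ℕ → (Ix r D → ℤ) → ℝ) (f : ℝ → ℝ) (p : ℕ) : ℝ :=
  if hp : p.Prime then
    haveI : NeZero p := ⟨hp.ne_zero⟩
    (∑ u : Ix r D → ZMod p, f (T p (valv u))) / (Fintype.card (Ix r D → ZMod p) : ℝ)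
  else 0

lemma Em_eq {r D : ℕ} (T : ℕ → (Ix r D → ℤ) → ℝ) (f : ℝ → ℝ) (p : ℕ) (hp : p.Prime) [NeZero p] :
    Em T f p = (∑ u : Ix r D → ZMod p, f (T p (valv u))) / (Fintype.card (Ix r D → ZMod p) : ℝ) := by
  unfold Em
  rw [dif_pos hp]

lemma Em_pow {r D : ℕ} (T : ℕ → (Ix r D → ℤ) → ℝ) (m p : ℕ) : Em T (fun z => z ^ m) p = Ev T m p := rfl

lemma card_pos' (r D p : ℕ) [NeZero p] : (0 : ℝ) < (Fintype.card (Ix r D → ZMod p) : ℝ) := by
  have : 0 < Fintype.card (Ix r D → ZMod p) := Fintype.card_pos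
  exact_mod_cast this

lemma Em_mono {r D : ℕ} (T : ℕ → (Ix r D → ℤ) → ℝ) (f g : ℝ → ℝ) (hfg : ∀ z, f z ≤ g z) (p : ℕ)
    (hp : p.Prime) : Em T f p ≤ Em T g p := by
  have : NeZero p := ⟨hp.ne_zero⟩
  rw [Em_eq T f p hp, Em_eq T g p hp]
  apply div_le_div_of_nonneg_right _ (card_pos' r D p).le
  exact sum_le_sum fun u _ => hfg _

lemma Em_abs {r D : ℕ} (T : ℕ → (Ix r D → ℤ) → ℝ) (f g : ℝ → ℝ) (hfg : ∀ z, |f z| ≤ g z) (p : ℕ)
    (hp : p.Prime) : |Em T f p| ≤ Em T g p := by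
  have : NeZero p := ⟨hp.ne_zero⟩
  rw [Em_eq T f p hp, Em_eq T g p hp, abs_div, abs_of_pos (card_pos' r D p)]
  apply div_le_div_of_nonneg_right _ (card_pos' r D p).le
  refine (abs_sum_le_sum_abs _ _).trans ?_
  exact sum_le_sum fun u _ => hfg _

lemma Em_sub {r D : ℕ} (T : ℕ → (Ix r D → ℤ) → ℝ) (f g : ℝ → ℝ) (p : ℕ) (hp : p.Prime) :
    Em T (fun z => f z - g z) p = Em T f p - Em T g p := by
  have : NeZero p := ⟨hp.ne_zero⟩
  rw [Em_eq T f p hp, Em_eq T g p hp, Em_eq T _ p hp, sum_sub_distrib, sub_div]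

open Classical in
/-- the centred local terms -/
noncomputable def GF {r D : ℕ} (Pr : ℕ → Prop) (T : ℕ → (Ix r D → ℤ) → ℝ) (f : ℝ → ℝ) (p : ℕ)
    (a : Ix r D → ℤ) : ℝ :=
  if p.Prime ∧ Pr p then 4 * (f (T p a) - Em T f p) else 0

lemma Good.locf {r D s t : ℕ} {Pr : ℕ → Prop} {T : ℕ → (Ix r D → ℤ) → ℝ} (h : Good r D s t Pr T)
    (f : ℝ → ℝ) (m M : ℕ) (hmM : m ≤ M) (hf : ∀ z, |f z| ≤ |z| ^ m) (B : ℝ) (hB : 0 ≤ B)
    (hfB : ∀ p : ℕ, p.Prime → Pr p → Em T (fun z => f z ^ 2) p ≤ B) :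
    Loc (GF Pr T f) (16 * B) (2 ^ (M + 3)) (r * M) := by
  have hTm : ∀ p : ℕ, p.Prime → Pr p → ∀ a, |f (T p a)| ≤ 2 ^ m * (p : ℝ) ^ (r * m) := by
    intro p hp hP a
    refine (hf _).trans ?_
    calc |T p a| ^ m ≤ (2 * (p : ℝ) ^ r) ^ m := pow_le_pow_left₀ (abs_nonneg _) (h.bd p hp hP a) m
      _ = _ := by rw [mul_pow, ← pow_mul]
  refine ⟨by positivity, by positivity, ?_, ?_, ?_, ?_⟩
  · intro p hp a b hab
    unfold GF
    by_cases hP : Pr p
    · rw [if_pos ⟨hp, hP⟩, if_pos ⟨hp, hP⟩, h.per p hp hP a b hab]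
    · rw [if_neg (fun h => hP h.2), if_neg (fun h => hP h.2)]
  · intro p hp hne
    by_cases hP : Pr p
    · have h1 : ∀ u : Ix r D → ZMod p, GF Pr T f p (valv u) = 4 * (f (T p (valv u)) - Em T f p) := by
        intro u
        unfold GF
        rw [if_pos ⟨hp, hP⟩]
      rw [sum_congr rfl (fun u _ => h1 u), ← mul_sum, sum_sub_distrib, sum_const, card_univ,
        nsmul_eq_mul, Em_eq T f p hp]
      have hV := (card_pos' r D p).ne'
      field_simp
      ring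
    · apply sum_eq_zero
      intro u _
      unfold GF
      rw [if_neg (fun h => hP h.2)]
  · intro p hp a
    have hp1 : (1 : ℝ) ≤ p := by exact_mod_cast hp.one_lt.le
    unfold GF
    by_cases hP : Pr p
    · rw [if_pos ⟨hp, hP⟩]
      have : NeZero p := ⟨hp.ne_zero⟩
      have h1 := hTm p hp hP a
      have hV := card_pos' r D p
      have h2 : |Em T f p| ≤ 2 ^ m * (p : ℝ) ^ (r * m) := by
        rw [Em_eq T f p hp, abs_div, abs_of_pos hV, div_le_iff₀ hV]
        calc |∑ u : Ix r D → ZMod p, f (T p (valv u))| ≤ ∑ u : Ix r D → ZMod p, |f (T p (valv u))| :=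
              abs_sum_le_sum_abs _ _
          _ ≤ ∑ u : Ix r D → ZMod p, 2 ^ m * (p : ℝ) ^ (r * m) := sum_le_sum fun u _ => hTm p hp hP _
          _ = _ := by rw [sum_const, card_univ, nsmul_eq_mul]; ring
      rw [abs_mul, abs_of_pos (by norm_num : (0 : ℝ) < 4)]
      calc 4 * |f (T p a) - Em T f p| ≤ 4 * (|f (T p a)| + |Em T f p|) := by
            apply mul_le_mul_of_nonneg_left (abs_sub _ _) (by norm_num)
        _ ≤ 4 * (2 ^ m * (p : ℝ) ^ (r * m) + 2 ^ m * (p : ℝ) ^ (r * m)) := by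
            apply mul_le_mul_of_nonneg_left (add_le_add h1 h2) (by norm_num)
        _ = 2 ^ (m + 3) * (p : ℝ) ^ (r * m) := by ring
        _ ≤ 2 ^ (M + 3) * (p : ℝ) ^ (r * M) := by
            apply mul_le_mul
            · exact pow_le_pow_right₀ (by norm_num) (by omega)
            · exact pow_le_pow_right₀ hp1 (Nat.mul_le_mul_left _ hmM)
            · positivity
            · positivity
    · rw [if_neg (fun h => hP h.2), abs_zero]
      positivity
  · intro p hp hne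
    by_cases hP : Pr p
    · have hV := card_pos' r D p
      set V : ℝ := ((Fintype.card (Ix r D → ZMod p) : ℕ) : ℝ) with hVd
      have h1 : ∀ u : Ix r D → ZMod p, GF Pr T f p (valv u) ^ 2 =
          16 * (f (T p (valv u)) ^ 2) - 32 * Em T f p * f (T p (valv u)) + 16 * Em T f p ^ 2 := by
        intro u
        unfold GF
        rw [if_pos ⟨hp, hP⟩]
        ring
      have hE : ∑ u : Ix r D → ZMod p, f (T p (valv u)) = Em T f p * V := by
        rw [Em_eq T f p hp, ← hVd]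
        field_simp
      rw [sum_congr rfl (fun u _ => h1 u), sum_add_distrib, sum_sub_distrib, ← mul_sum, ← mul_sum,
        sum_const, card_univ, nsmul_eq_mul, hE, ← hVd]
      have h2 : ∑ u : Ix r D → ZMod p, f (T p (valv u)) ^ 2 ≤ B * V := by
        have h3 := hfB p hp hP
        rw [Em_eq T _ p hp, ← hVd, div_le_iff₀ hV] at h3
        exact h3
      have h7 : 0 ≤ Em T f p ^ 2 * V := by positivity
      nlinarith
    · have h1 : ∑ u : Ix r D → ZMod p, GF Pr T f p (valv u) ^ 2 = 0 := by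
        apply sum_eq_zero
        intro u _
        unfold GF
        rw [if_neg (fun h => hP h.2)]
        norm_num
      rw [h1]
      positivity

/-- the first moment over a box -/
lemma Good.first {r D s t : ℕ} {Pr : ℕ → Prop} {T : ℕ → (Ix r D → ℤ) → ℝ} (h : Good r D s t Pr T)
    (hh M : ℕ) (hhM : 2 * hh ≤ M) (B : ℝ) (hB : ∀ p : ℕ, p.Prime → Pr p → Ev T (2 * hh) p ≤ B)
    (b : Ix r D → ℤ) (N X : ℕ)
    (hX : (2 ^ (M + 3) * (X : ℝ) ^ (r * M)) ^ 2 * (Fintype.card (Ix r D) * (X : ℝ) ^ 3) ≤ 2 * N + 1)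
    (p : ℕ) (hp : p.Prime) (hP : Pr p) (hpX : p ≤ X) :
    ∑ a ∈ Box b N, T p a ^ (2 * hh) ≤ (B + 1) * (2 * N + 1) ^ (Fintype.card (Ix r D)) := by
  have : NeZero p := ⟨hp.ne_zero⟩
  have hp1 : (1 : ℝ) ≤ p := by exact_mod_cast hp.one_lt.le
  have hpX' : (p : ℝ) ≤ X := by exact_mod_cast hpX
  have hX1 : (1 : ℝ) ≤ X := hp1.trans hpX'
  set V : ℝ := ((Fintype.card (Ix r D → ZMod p) : ℕ) : ℝ) with hV
  have hV0 : 0 < V := card_pos' r D p
  set E : ℝ := Ev T (2 * hh) p with hE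
  have hEe : E = (∑ u : Ix r D → ZMod p, T p (valv u) ^ (2 * hh)) / V := Ev_eq T _ p hp
  set U : ℝ := 2 ^ (M + 3) * (X : ℝ) ^ (r * M) with hU
  have hU1 : 1 ≤ U := by
    rw [hU]
    have h1 : (1 : ℝ) ≤ 2 ^ (M + 3) := one_le_pow₀ (by norm_num)
    have h2 : (1 : ℝ) ≤ (X : ℝ) ^ (r * M) := one_le_pow₀ hX1
    nlinarith
  have hb : ∀ a : Ix r D → ℤ, T p a ^ (2 * hh) ≤ U ^ 2 := by
    intro a
    have h1 := h.bd p hp hP a
    calc T p a ^ (2 * hh) = |T p a| ^ (2 * hh) := by rw [pow_mul, pow_mul, sq_abs]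
      _ ≤ (2 * (p : ℝ) ^ r) ^ (2 * hh) := pow_le_pow_left₀ (abs_nonneg _) h1 _
      _ ≤ (2 * (X : ℝ) ^ r) ^ M := by
          calc (2 * (p : ℝ) ^ r) ^ (2 * hh) ≤ (2 * (X : ℝ) ^ r) ^ (2 * hh) := by gcongr
            _ ≤ (2 * (X : ℝ) ^ r) ^ M := by
                apply pow_le_pow_right₀ _ hhM
                have : (1 : ℝ) ≤ (X : ℝ) ^ r := one_le_pow₀ hX1
                linarith
      _ = 2 ^ M * (X : ℝ) ^ (r * M) := by rw [mul_pow, ← pow_mul]
      _ ≤ U := by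
          rw [hU]
          apply mul_le_mul_of_nonneg_right _ (by positivity)
          exact pow_le_pow_right₀ (by norm_num) (by omega)
      _ ≤ U ^ 2 := by nlinarith
  have hnn : ∀ a : Ix r D → ℤ, 0 ≤ T p a ^ (2 * hh) := by
    intro a
    rw [pow_mul]
    positivity
  have hE0 : 0 ≤ E := by
    rw [hEe]
    apply div_nonneg (sum_nonneg fun u _ => hnn _) hV0.le
  have hE1 : E ≤ U ^ 2 := by
    rw [hEe, div_le_iff₀ hV0]
    calc ∑ u : Ix r D → ZMod p, T p (valv u) ^ (2 * hh) ≤ ∑ u : Ix r D → ZMod p, U ^ 2 :=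
          sum_le_sum fun u _ => hb _
      _ = _ := by rw [sum_const, card_univ, nsmul_eq_mul]; ring
  have hz : ∑ u : Ix r D → ZMod p, (T p (valv u) ^ (2 * hh) - E) = 0 := by
    rw [sum_sub_distrib, sum_const, card_univ, nsmul_eq_mul, hEe, ← hV]
    field_simp
    ring
  have h2 := box_sum p b N (U ^ 2) (by positivity)
    (fun u : Ix r D → ZMod p => T p (valv u) ^ (2 * hh) - E) (fun u => by
      rw [abs_le]
      have := hb (valv u)
      have := hnn (valv u)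
      constructor <;> linarith) hz
  have hrep : ∀ a : Ix r D → ℤ, T p a ^ (2 * hh) = (T p (valv (redv p a)) ^ (2 * hh) - E) + E := by
    intro a
    rw [← (h.per p hp hP).eq_redv a]
    ring
  rw [sum_congr rfl (fun a _ => hrep a), sum_add_distrib, sum_const, card_Box, nsmul_eq_mul]
  push_cast
  set Dm := Fintype.card (Ix r D) with hDm
  set L : ℝ := 2 * N + 1 with hL
  have hL0 : 0 < L := by positivity
  have h3 : ∑ a ∈ Box b N, (T p (valv (redv p a)) ^ (2 * hh) - E) ≤ L ^ Dm := by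
    refine (le_abs_self _).trans (h2.trans ?_)
    rcases Nat.eq_zero_or_pos Dm with h0 | h0
    · rw [h0]
      simp
    · have e : L ^ Dm = L * L ^ (Dm - 1) := by
        rw [← pow_succ']
        congr 1
        omega
      have h4 : (p : ℝ) ≤ (X : ℝ) ^ 3 := by
        calc (p : ℝ) ≤ X := hpX'
          _ = X ^ 1 := (pow_one _).symm
          _ ≤ X ^ 3 := pow_le_pow_right₀ hX1 (by norm_num)
      calc U ^ 2 * (Dm * p * L ^ (Dm - 1)) = (U ^ 2 * (Dm * p)) * L ^ (Dm - 1) := by ring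
        _ ≤ (U ^ 2 * (Dm * (X : ℝ) ^ 3)) * L ^ (Dm - 1) := by gcongr
        _ ≤ L * L ^ (Dm - 1) := mul_le_mul_of_nonneg_right hX (by positivity)
        _ = L ^ Dm := e.symm
  have h5 : L ^ Dm * E ≤ B * L ^ Dm := by
    rw [mul_comm]
    exact mul_le_mul_of_nonneg_right (hB p hp hP) (by positivity)
  linarith

end Pool.Agent.W406.HV
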