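import Mathlib
import Pool.Agent.W406.HV.Trunc

set_option autoImplicit false

/-! # The main theorem with truncated powers: moments up to `D` -/

namespace Pool.Agent.W406.HV

open Finset

lemma geo (r : ℝ) (hr0 : 0 < r) (hr1 : r < 1) (s : Finset ℕ) (k0 : ℕ) (h : ∀ k ∈ s, k0 ≤ k) :
    ∑ k ∈ s, r ^ k ≤ r ^ k0 / (1 - r) := by
  have h1 : ∑ k ∈ s, r ^ k = r ^ k0 * ∑ k ∈ s, r ^ (k - k0) := by
    rw [mul_sum]
    refine sum_congr rfl fun k hk => ?_
    rw [← pow_add]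
    congr 1
    have := h k hk
    omega
  have h2 : ∑ k ∈ s, r ^ (k - k0) = ∑ j ∈ s.image (fun k => k - k0), r ^ j := by
    rw [sum_image]
    intro a ha b hb hab
    have := h a ha
    have := h b hb
    simp only at hab
    omega
  have h3 : ∑ j ∈ s.image (fun k => k - k0), r ^ j ≤ (1 - r)⁻¹ := by
    rw [← tsum_geometric_of_lt_one hr0.le hr1]
    exact (summable_geometric_of_lt_one hr0.le hr1).sum_le_tsum _ (fun _ _ => by positivity)
  rw [h1, h2, div_eq_mul_inv]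
  exact mul_le_mul_of_nonneg_left h3 (by positivity)

lemma Em_lin {r D : ℕ} (T : ℕ → (Ix r D → ℤ) → ℝ) (K : ℝ) (j : ℕ) (p : ℕ) (hp : p.Prime) :
    Em T (fun z => K * (1 + z ^ j)) p = K * (1 + Ev T j p) := by
  have : NeZero p := ⟨hp.ne_zero⟩
  have hV := (card_pos' r D p).ne'
  rw [Em_eq T _ p hp, Ev_eq T j p hp, ← mul_sum, sum_add_distrib, sum_const, card_univ, nsmul_eq_mul]
  field_simp

lemma Em_scale {r D : ℕ} (T : ℕ → (Ix r D → ℤ) → ℝ) (K : ℝ) (j : ℕ) (p : ℕ) (hp : p.Prime) :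
    Em T (fun z => z ^ j / K) p = Ev T j p / K := by
  have : NeZero p := ⟨hp.ne_zero⟩
  rw [Em_eq T _ p hp, Ev_eq T j p hp, ← sum_div]
  ring

open Classical in
theorem master2 (r D s t : ℕ) (hs : 1 ≤ s) (hr : s + t + 1 = r) (Pr : ℕ → Prop)
    (T : ℕ → (Ix r D → ℤ) → ℝ) (h : Good r D s t Pr T) (ε : ℝ) (hε : 0 < ε) :
    ∃ c C : ℝ, 0 < c ∧ ∀ (N : ℕ) (b : Ix r D → ℤ) (y : ℝ), 1 ≤ y →
      (((Box b N).filter (fun a => ∃ x : ℕ, y ≤ x ∧ (x : ℝ) ≤ (N : ℝ) ^ c ∧
        ∃ m : ℕ, m < 2 * ((D + 1) / 2) ∧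
        (x : ℝ) ^ (max (1 / 2) ((m : ℝ) / ((2 * ((D + 1) / 2) : ℕ) : ℝ)) + ε) <
          |∑ p ∈ (Icc 1 x).filter (fun p => p.Prime ∧ Pr p), (T p a ^ m - mom m)|)).card : ℝ) ≤
        C * y ^ (-ε) * (2 * N + 1) ^ (Fintype.card (Ix r D)) := by
  set hh : ℕ := (D + 1) / 2 with hhh
  rcases Nat.eq_zero_or_pos hh with hh0 | hhpos
  · refine ⟨1, 0, one_pos, ?_⟩
    intro N b y hy
    rw [filter_false_of_mem]
    · simp
    · rintro a _ ⟨x, _, _, m, hm, _⟩
      omega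
  set M : ℕ := 2 * hh with hM
  have hMD : M ≤ D + 1 := by omega
  -- the local constants
  obtain ⟨C₁, hC₁0, hC₁⟩ := Good.mean (r := r) (D := D) (s := s) (t := t) (2 * hh) hs hr (by omega)
  set B₀ : ℝ := mom (2 * hh) + C₁ with hB₀
  have hB₀0 : 0 ≤ B₀ := by
    have := mom_nonneg (2 * hh)
    rw [hB₀]
    positivity
  have hEvB : ∀ p : ℕ, p.Prime → Pr p → Ev T (2 * hh) p ≤ B₀ := by
    intro p hp hP
    have h3 := hC₁ Pr T h p hp hP
    have h4 : C₁ / √(p : ℝ) ≤ C₁ := by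
      apply div_le_self hC₁0
      rw [Real.one_le_sqrt]
      exact_mod_cast hp.one_lt.le
    have h5 := (abs_le.1 (h3.trans h4)).2
    rw [hB₀]
    linarith
  have hCm : ∀ m : ℕ, ∃ C : ℝ, 0 ≤ C ∧ (m ≤ M → ∀ p : ℕ, p.Prime → Pr p →
      |Ev T m p - mom m| ≤ C / √(p : ℝ)) := by
    intro m
    by_cases hm : m ≤ M
    · obtain ⟨C, hC0, hC⟩ := Good.mean (r := r) (D := D) (s := s) (t := t) m hs hr (by omega)
      exact ⟨C, hC0, fun _ => hC Pr T h⟩
    · exact ⟨0, le_refl _, fun h => absurd h hm⟩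
  choose Cm hCm0 hCm using hCm
  set Ct : ℝ := ∑ m ∈ range (M + 1), Cm m with hCt
  have hCt0 : 0 ≤ Ct := sum_nonneg fun m _ => hCm0 m
  have hCle : ∀ m ≤ M, Cm m ≤ Ct := fun m hm =>
    single_le_sum (f := Cm) (fun i _ => hCm0 i) (mem_range.2 (by omega))
  set Dm := Fintype.card (Ix r D) with hDm
  set κ : ℕ := r * M with hκd
  set T₀ : ℝ := 2 ^ (M + 3) with hT₀
  have hT₀0 : 0 ≤ T₀ := by rw [hT₀]; positivity
  set c : ℝ := 1 / (2 * ((2 * κ + 3 : ℕ) : ℝ)) with hc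
  have hκ : (0 : ℝ) < ((2 * κ + 3 : ℕ) : ℝ) := by positivity
  have hc0 : 0 < c := by rw [hc]; positivity
  have hcκ : c * ((2 * κ + 3 : ℕ) : ℝ) = 1 / 2 := by
    rw [hc]
    field_simp
  have hc1 : c ≤ 1 := by
    rw [hc, div_le_one (by positivity)]
    have : (1 : ℝ) ≤ ((2 * κ + 3 : ℕ) : ℝ) := by
      push_cast
      have : (0 : ℝ) ≤ κ := Nat.cast_nonneg κ
      linarith
    linarith
  -- largeness of N
  have hN₀ : ∃ N₀ : ℕ, 1 ≤ N₀ ∧ ∀ N : ℕ, N₀ ≤ N →
      T₀ ^ 2 * Dm * (4 : ℝ) ^ (2 * κ + 3) * (N : ℝ) ^ (1 / 2 : ℝ) ≤ 2 * N + 1 := by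
    set K : ℝ := T₀ ^ 2 * Dm * (4 : ℝ) ^ (2 * κ + 3) with hK
    have hK0 : 0 ≤ K := by rw [hK]; positivity
    obtain ⟨M', hM'⟩ := exists_nat_ge (K ^ 2 + 1)
    refine ⟨M', ?_, ?_⟩
    · have : (1 : ℝ) ≤ M' := by nlinarith
      exact_mod_cast this
    · intro N hN
      have hN' : K ^ 2 + 1 ≤ N := hM'.trans (by exact_mod_cast hN)
      have hN0 : (0 : ℝ) ≤ N := Nat.cast_nonneg N
      rw [← Real.sqrt_eq_rpow]
      have h1 : K ≤ √(N : ℝ) := Real.le_sqrt_of_sq_le (by linarith)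
      have h2 : √(N : ℝ) * √(N : ℝ) = N := Real.mul_self_sqrt hN0
      have h3 : 0 ≤ √(N : ℝ) := Real.sqrt_nonneg _
      nlinarith
  obtain ⟨N₀, hN₀1, hN₀⟩ := hN₀
  -- largeness of x
  have hlarge : ∃ K₁ : ℕ, 1 ≤ K₁ ∧ ∀ z : ℝ, (K₁ : ℝ) ≤ 2 * z → 4 * B₀ + 8 * Ct ≤ z ^ ε := by
    have h2 : ∀ᶠ z : ℝ in Filter.atTop, 4 * B₀ + 8 * Ct ≤ z ^ ε :=
      (tendsto_rpow_atTop hε).eventually_ge_atTop _
    obtain ⟨K, hK⟩ := Filter.eventually_atTop.1 h2
    obtain ⟨K₁, hK₁⟩ := exists_nat_ge (2 * |K| + 1)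
    refine ⟨K₁, ?_, ?_⟩
    · have : (1 : ℝ) ≤ K₁ := by
        have := abs_nonneg K
        linarith
      exact_mod_cast this
    · intro z hz
      apply hK
      have := le_abs_self K
      linarith
  obtain ⟨K₁, hK₁1, hK₁⟩ := hlarge
  have hr0 : (0 : ℝ) < (2 : ℝ) ^ (-ε) := by positivity
  have hr1 : (2 : ℝ) ^ (-ε) < 1 := Real.rpow_lt_one_of_one_lt_of_neg (by norm_num) (by linarith)
  obtain ⟨S, hS0, hS⟩ := series _ hr0 hr1
  set ro : ℝ := (2 : ℝ) ^ (-ε) with hro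
  have h1ro : 0 < 1 - ro := by linarith
  set Cf : ℝ := 8 * (B₀ + 1) * (2 : ℝ) ^ ε / (1 - ro) + M * (68 * (B₀ + 1) * S * (2 : ℝ) ^ ε) with hCf
  have hCf0 : 0 ≤ Cf := by rw [hCf]; positivity
  refine ⟨c, (K₁ : ℝ) ^ ε + (N₀ : ℝ) ^ ε + Cf, hc0, ?_⟩
  intro N b y hy
  have hy0 : 0 < y := by linarith
  set L : ℝ := 2 * N + 1 with hL
  have hL0 : 0 < L := by positivity
  have hcard : ((Box b N).card : ℝ) = L ^ Dm := by
    rw [card_Box, hL]
    push_cast
    rfl
  set Ex : Finset (Ix r D → ℤ) := (Box b N).filter (fun a => ∃ x : ℕ, y ≤ x ∧ (x : ℝ) ≤ (N : ℝ) ^ c ∧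
        ∃ m : ℕ, m < M ∧ (x : ℝ) ^ (max (1 / 2) ((m : ℝ) / (M : ℝ)) + ε) <
          |∑ p ∈ (Icc 1 x).filter (fun p => p.Prime ∧ Pr p), (T p a ^ m - mom m)|) with hEx
  have htriv : 1 ≤ ((K₁ : ℝ) ^ ε + (N₀ : ℝ) ^ ε + Cf) * y ^ (-ε) →
      (Ex.card : ℝ) ≤ ((K₁ : ℝ) ^ ε + (N₀ : ℝ) ^ ε + Cf) * y ^ (-ε) * L ^ Dm := by
    intro h1
    calc (Ex.card : ℝ) ≤ ((Box b N).card : ℝ) := by exact_mod_cast card_le_card (filter_subset _ _)
      _ = 1 * L ^ Dm := by rw [hcard, one_mul]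
      _ ≤ _ := mul_le_mul_of_nonneg_right h1 (by positivity)
  rcases lt_or_ge y K₁ with hyK | hyK
  · apply htriv
    rw [Real.rpow_neg hy0.le, ← div_eq_mul_inv, one_le_div (by positivity)]
    calc y ^ ε ≤ (K₁ : ℝ) ^ ε := Real.rpow_le_rpow hy0.le hyK.le hε.le
      _ ≤ _ := by
          have : 0 ≤ (N₀ : ℝ) ^ ε := by positivity
          linarith
  rcases lt_or_ge N N₀ with hNlt | hNge
  · -- small N
    rcases Ex.eq_empty_or_nonempty with h0 | ⟨a, ha⟩
    · rw [h0, card_empty]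
      push_cast
      positivity
    · obtain ⟨_, x, hx1, hx2, _⟩ := mem_filter.1 ha
      have hN1 : (N : ℝ) ^ c ≤ N₀ := by
        have hN₀' : (1 : ℝ) ≤ N₀ := by exact_mod_cast hN₀1
        calc (N : ℝ) ^ c ≤ (N₀ : ℝ) ^ c :=
              Real.rpow_le_rpow (Nat.cast_nonneg _) (by exact_mod_cast hNlt.le) hc0.le
          _ ≤ (N₀ : ℝ) ^ (1 : ℝ) := Real.rpow_le_rpow_of_exponent_le hN₀' hc1
          _ = N₀ := Real.rpow_one _
      have hyN : y ≤ N₀ := hx1.trans (hx2.trans hN1)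
      apply htriv
      rw [Real.rpow_neg hy0.le, ← div_eq_mul_inv, one_le_div (by positivity)]
      calc y ^ ε ≤ (N₀ : ℝ) ^ ε := Real.rpow_le_rpow hy0.le hyN hε.le
        _ ≤ _ := by
            have : 0 ≤ (K₁ : ℝ) ^ ε := by positivity
            linarith
  -- large N
  have hmain := hN₀ N hNge
  have hN1 : (1 : ℝ) ≤ N := by exact_mod_cast hN₀1.trans hNge
  have hMpos : (0 : ℝ) < (M : ℝ) := by
    have : 0 < M := by omega
    exact_mod_cast this
  set Ks : Finset ℕ := (range (N + 1)).filter (fun k => y < (2 : ℝ) ^ (k + 1) ∧ (2 : ℝ) ^ k ≤ (N : ℝ) ^ c)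
    with hKs
  set Z : ℕ → ℝ := fun k => (2 : ℝ) ^ k with hZ
  have hZ1 : ∀ k, 1 ≤ Z k := fun k => one_le_pow₀ (by norm_num)
  have hZ0 : ∀ k, 0 < Z k := fun k => by linarith [hZ1 k]
  set A : ℕ → ℝ := fun k => (Z k) ^ (1 / (M : ℝ)) with hA
  have hA1 : ∀ k, 1 ≤ A k := fun k => Real.one_le_rpow (hZ1 k) (by positivity)
  set β : ℕ → ℝ := fun m => max (1 / 2) ((m : ℝ) / (M : ℝ)) with hβ
  have hβ1 : ∀ m : ℕ, 1 / 2 ≤ β m := fun m => le_max_left _ _
  have hβ2 : ∀ m : ℕ, (m : ℝ) / M ≤ β m := fun m => le_max_right _ _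
  set V : ℕ → ℕ → ℝ := fun k m => (Z k) ^ (β m + ε) with hV
  have hV0 : ∀ k m : ℕ, 0 < V k m := fun k m => by
    simp only [hV]
    have := hZ0 k
    positivity
  have hAm : ∀ k m : ℕ, m ≤ M → (A k) ^ (M - m) = Z k / (Z k) ^ ((m : ℝ) / M) := by
    intro k m hm
    simp only [hA]
    rw [← Real.rpow_natCast, ← Real.rpow_mul (hZ0 k).le, Nat.cast_sub hm,
      show (1 / (M : ℝ)) * ((M : ℝ) - m) = 1 - (m : ℝ) / M by field_simp,
      Real.rpow_sub (hZ0 k), Real.rpow_one]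
  have hAh : ∀ k m : ℕ, Z k * (A k) ^ (2 * (m - hh)) ≤ (Z k) ^ (2 * β m) := by
    intro k m
    rcases le_or_gt m hh with hm | hm
    · have : m - hh = 0 := by omega
      rw [this, mul_zero, pow_zero, mul_one]
      calc Z k = (Z k) ^ (1 : ℝ) := (Real.rpow_one _).symm
        _ ≤ _ := Real.rpow_le_rpow_of_exponent_le (hZ1 k) (by linarith [hβ1 m])
    · simp only [hA]
      rw [← Real.rpow_natCast, ← Real.rpow_mul (hZ0 k).le]
      have e1 : Z k * (Z k) ^ (1 / (M : ℝ) * ((2 * (m - hh) : ℕ) : ℝ)) =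
          (Z k) ^ (2 * ((m : ℝ) / M)) := by
        have hMh : (M : ℝ) = 2 * hh := by rw [hM]; push_cast; ring
        rw [← Real.rpow_one_add' (hZ0 k).le (by positivity)]
        congr 1
        push_cast [Nat.cast_sub hm.le]
        have : (2 * (hh : ℝ)) ≠ 0 := by rw [← hMh]; exact hMpos.ne'
        rw [hMh]
        field_simp
        ring
      rw [e1]
      exact Real.rpow_le_rpow_of_exponent_le (hZ1 k) (by linarith [hβ2 m])
  set Ek : ℕ → ℕ → Finset (Ix r D → ℤ) := fun k m => (Box b N).filter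
    (fun a => ∃ x, x < 2 ^ (k + 2) ∧ V k m < |∑ p ∈ (range x).filter Nat.Prime, GF Pr T (tp (A k) m) p a|)
    with hEk
  set P2 : ℕ → Finset ℕ := fun k => (Icc 1 (2 ^ (k + 1))).filter (fun p => p.Prime ∧ Pr p) with hP2
  set Fk : ℕ → Finset (Ix r D → ℤ) := fun k => (Box b N).filter
    (fun a => (Z k) ^ (1 + ε) < 4 * ∑ p ∈ P2 k, T p a ^ (2 * hh)) with hFk
  have hnn : ∀ (p : ℕ) (a : Ix r D → ℤ), 0 ≤ T p a ^ (2 * hh) := by
    intro p a
    rw [pow_mul]
    positivity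
  -- the inclusion
  have hsub : Ex ⊆ Ks.biUnion (fun k => Fk k ∪ (range M).biUnion (Ek k)) := by
    intro a ha
    obtain ⟨haB, x, hx1, hx2, m, hmM, hx3⟩ := mem_filter.1 ha
    have hx0 : x ≠ 0 := by
      rintro rfl
      simp at hx1
      linarith
    set k := Nat.log 2 x with hk
    have hk1 : 2 ^ k ≤ x := Nat.pow_log_le_self 2 hx0
    have hk2 : x < 2 ^ (k + 1) := Nat.lt_pow_succ_log_self (by norm_num) x
    have hk1' : Z k ≤ x := by simp only [hZ]; exact_mod_cast hk1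
    have hk2' : (x : ℝ) < (2 : ℝ) ^ (k + 1) := by exact_mod_cast hk2
    have hk2'' : (x : ℝ) ≤ 2 * Z k := by
      simp only [hZ]
      rw [pow_succ] at hk2'
      linarith
    have hxN : x ≤ N := by
      have : (x : ℝ) ≤ N := by
        calc (x : ℝ) ≤ (N : ℝ) ^ c := hx2
          _ ≤ (N : ℝ) ^ (1 : ℝ) := Real.rpow_le_rpow_of_exponent_le hN1 hc1
          _ = N := Real.rpow_one _
      exact_mod_cast this
    have hkN : k < N + 1 := by
      have : k < 2 ^ k := Nat.lt_two_pow_self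
      omega
    rw [mem_biUnion]
    refine ⟨k, mem_filter.2 ⟨mem_range.2 hkN, by linarith, by linarith [hk1', hx2]⟩, ?_⟩
    by_contra hnot
    rw [mem_union, not_or] at hnot
    obtain ⟨hnF, hnE⟩ := hnot
    have hF : 4 * ∑ p ∈ P2 k, T p a ^ (2 * hh) ≤ (Z k) ^ (1 + ε) := by
      by_contra hlt
      push Not at hlt
      exact hnF (mem_filter.2 ⟨haB, hlt⟩)
    have hE : |∑ p ∈ (range (x + 1)).filter Nat.Prime, GF Pr T (tp (A k) m) p a| ≤ V k m := by
      by_contra hlt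
      push Not at hlt
      apply hnE
      refine mem_biUnion.2 ⟨m, mem_range.2 hmM, mem_filter.2 ⟨haB, x + 1, ?_, hlt⟩⟩
      have : 2 ^ (k + 2) = 2 * 2 ^ (k + 1) := by ring
      omega
    set Px := (Icc 1 x).filter (fun p => p.Prime ∧ Pr p) with hPx
    have hPxm : ∀ p ∈ Px, p.Prime ∧ Pr p := fun p hp => (mem_filter.1 hp).2
    have e1 : ∑ p ∈ (range (x + 1)).filter Nat.Prime, GF Pr T (tp (A k) m) p a =
        4 * ∑ p ∈ Px, (tp (A k) m (T p a) - Em T (tp (A k) m) p) := by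
      have hss : Px ⊆ (range (x + 1)).filter Nat.Prime := by
        intro p hp
        obtain ⟨h1, h2⟩ := mem_filter.1 hp
        rw [mem_Icc] at h1
        exact mem_filter.2 ⟨mem_range.2 (by omega), h2.1⟩
      rw [mul_sum, ← sum_subset hss]
      · refine sum_congr rfl fun p hp => ?_
        unfold GF
        rw [if_pos (mem_filter.1 hp).2]
      · intro p hp hp'
        unfold GF
        rw [if_neg]
        intro h1
        obtain ⟨h2, h3⟩ := mem_filter.1 hp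
        rw [mem_range] at h2
        exact hp' (mem_filter.2 ⟨mem_Icc.2 ⟨h3.one_lt.le, by omega⟩, h1⟩)
    have e2 : ∑ p ∈ Px, (T p a ^ m - mom m) =
        ∑ p ∈ Px, (tp (A k) m (T p a) - Em T (tp (A k) m) p) +
        ∑ p ∈ Px, (Em T (tp (A k) m) p - mom m) + ∑ p ∈ Px, (T p a ^ m - tp (A k) m (T p a)) := by
      rw [← sum_add_distrib, ← sum_add_distrib]
      refine sum_congr rfl fun p _ => by ring
    have b1 : |∑ p ∈ Px, (tp (A k) m (T p a) - Em T (tp (A k) m) p)| ≤ V k m / 4 := by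
      rw [e1, abs_mul, abs_of_pos (by norm_num : (0 : ℝ) < 4)] at hE
      linarith
    have hZβ : 0 < (Z k) ^ (β m) := by have := hZ0 k; positivity
    have hZm : 0 < (Z k) ^ ((m : ℝ) / M) := by have := hZ0 k; positivity
    have hZmβ : (Z k) ^ ((m : ℝ) / M) ≤ (Z k) ^ (β m) :=
      Real.rpow_le_rpow_of_exponent_le (hZ1 k) (hβ2 m)
    have hAmm := hAm k m hmM.le
    have hApos : 0 < (A k) ^ (M - m) := by have := hA1 k; positivity
    have b3 : |∑ p ∈ Px, (T p a ^ m - tp (A k) m (T p a))| ≤ V k m / 4 := by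
      calc |∑ p ∈ Px, (T p a ^ m - tp (A k) m (T p a))|
          ≤ ∑ p ∈ Px, |T p a ^ m - tp (A k) m (T p a)| := abs_sum_le_sum_abs _ _
        _ ≤ ∑ p ∈ Px, T p a ^ (2 * hh) / (A k) ^ (M - m) :=
            sum_le_sum fun p _ => tp_tail (A k) (hA1 k) m hh hmM.le _
        _ = (∑ p ∈ Px, T p a ^ (2 * hh)) / (A k) ^ (M - m) := by rw [sum_div]
        _ ≤ (∑ p ∈ P2 k, T p a ^ (2 * hh)) / (A k) ^ (M - m) := by
            apply div_le_div_of_nonneg_right _ hApos.le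
            apply sum_le_sum_of_subset_of_nonneg
            · intro p hp
              obtain ⟨h1, h2⟩ := mem_filter.1 hp
              rw [mem_Icc] at h1
              exact mem_filter.2 ⟨mem_Icc.2 ⟨h1.1, by omega⟩, h2⟩
            · intro p _ _
              exact hnn p a
        _ ≤ ((Z k) ^ (1 + ε) / 4) / (A k) ^ (M - m) := by
            apply div_le_div_of_nonneg_right _ hApos.le
            linarith
        _ = ((Z k) ^ ((m : ℝ) / M) * (Z k) ^ ε) / 4 := by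
            rw [hAmm, Real.rpow_add (hZ0 k), Real.rpow_one]
            have := (hZ0 k).ne'
            field_simp
        _ ≤ ((Z k) ^ (β m) * (Z k) ^ ε) / 4 := by
            have : 0 ≤ (Z k) ^ ε := by have := hZ0 k; positivity
            gcongr
        _ = V k m / 4 := by
            simp only [hV]
            rw [Real.rpow_add (hZ0 k)]
    have b2 : |∑ p ∈ Px, (Em T (tp (A k) m) p - mom m)| ≤ V k m / 2 := by
      have hcardPx : (Px.card : ℝ) ≤ x := by
        have := card_le_card (filter_subset (fun p => p.Prime ∧ Pr p) (Icc 1 x))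
        rw [Nat.card_Icc, Nat.add_sub_cancel] at this
        exact_mod_cast this
      calc |∑ p ∈ Px, (Em T (tp (A k) m) p - mom m)|
          ≤ ∑ p ∈ Px, |Em T (tp (A k) m) p - mom m| := abs_sum_le_sum_abs _ _
        _ ≤ ∑ p ∈ Px, (B₀ / (A k) ^ (M - m) + Ct * (1 / √(p : ℝ))) := by
            apply sum_le_sum
            intro p hp
            obtain ⟨hp1, hp2⟩ := hPxm p hp
            have h1 : |Ev T m p - Em T (tp (A k) m) p| ≤ B₀ / (A k) ^ (M - m) := by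
              rw [← Em_pow, ← Em_sub T _ _ p hp1]
              refine (Em_abs T _ (fun z => z ^ (2 * hh) / (A k) ^ (M - m))
                (fun z => tp_tail (A k) (hA1 k) m hh hmM.le z) p hp1).trans ?_
              rw [Em_scale T _ _ p hp1]
              exact div_le_div_of_nonneg_right (hEvB p hp1 hp2) hApos.le
            have h2 : |Ev T m p - mom m| ≤ Ct * (1 / √(p : ℝ)) := by
              refine (hCm m hmM.le p hp1 hp2).trans ?_
              rw [div_eq_mul_one_div]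
              exact mul_le_mul_of_nonneg_right (hCle m hmM.le) (by positivity)
            calc |Em T (tp (A k) m) p - mom m| = |(Ev T m p - mom m) - (Ev T m p - Em T (tp (A k) m) p)| := by
                  ring_nf
              _ ≤ |Ev T m p - mom m| + |Ev T m p - Em T (tp (A k) m) p| := abs_sub _ _
              _ ≤ _ := by linarith
        _ = Px.card * (B₀ / (A k) ^ (M - m)) + Ct * ∑ p ∈ Px, 1 / √(p : ℝ) := by
            rw [sum_add_distrib, sum_const, nsmul_eq_mul, mul_sum]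
        _ ≤ (2 * Z k) * (B₀ / (A k) ^ (M - m)) + Ct * (2 * √(2 * Z k)) := by
            apply add_le_add
            · apply mul_le_mul_of_nonneg_right (hcardPx.trans hk2'') (by positivity)
            · apply mul_le_mul_of_nonneg_left _ hCt0
              calc ∑ p ∈ Px, 1 / √(p : ℝ) ≤ ∑ p ∈ Icc 1 x, 1 / √(p : ℝ) := by
                    apply sum_le_sum_of_subset_of_nonneg (filter_subset _ _)
                    intro i _ _
                    positivity
                _ ≤ 2 * √(x : ℝ) := sum_inv_sqrt x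
                _ ≤ _ := by
                    apply mul_le_mul_of_nonneg_left (Real.sqrt_le_sqrt hk2'') (by norm_num)
        _ ≤ 2 * B₀ * (Z k) ^ (β m) + 4 * Ct * (Z k) ^ (β m) := by
            apply add_le_add
            · have e3 : (2 * Z k) * (B₀ / (A k) ^ (M - m)) = 2 * B₀ * (Z k) ^ ((m : ℝ) / M) := by
                rw [hAmm]
                have := (hZ0 k).ne'
                field_simp
              rw [e3]
              gcongr
            · have h3 : √(2 * Z k) ≤ 2 * (Z k) ^ (β m) := by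
                have h4 : √(Z k) ≤ (Z k) ^ (β m) := by
                  rw [Real.sqrt_eq_rpow]
                  exact Real.rpow_le_rpow_of_exponent_le (hZ1 k) (hβ1 m)
                have h5 : √(2 * Z k) ≤ 2 * √(Z k) := by
                  rw [Real.sqrt_le_left (by positivity)]
                  have := Real.sq_sqrt (hZ0 k).le
                  nlinarith [hZ0 k]
                linarith
              calc Ct * (2 * √(2 * Z k)) ≤ Ct * (2 * (2 * (Z k) ^ (β m))) := by gcongr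
                _ = _ := by ring
        _ = ((4 * B₀ + 8 * Ct) * (Z k) ^ (β m)) / 2 := by ring
        _ ≤ ((Z k) ^ ε * (Z k) ^ (β m)) / 2 := by
            have h6 : 4 * B₀ + 8 * Ct ≤ (Z k) ^ ε := by
              apply hK₁
              calc (K₁ : ℝ) ≤ y := hyK
                _ ≤ x := hx1
                _ ≤ 2 * Z k := hk2''
            gcongr
        _ = V k m / 2 := by
            simp only [hV]
            rw [Real.rpow_add (hZ0 k)]
            ring
    have hVx : V k m ≤ (x : ℝ) ^ (β m + ε) := by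
      simp only [hV]
      apply Real.rpow_le_rpow (hZ0 k).le hk1'
      have := hβ1 m
      linarith
    have hfin : |∑ p ∈ Px, (T p a ^ m - mom m)| ≤ V k m := by
      rw [e2]
      refine (abs_add_le _ _).trans ?_
      have := abs_add_le (∑ p ∈ Px, (tp (A k) m (T p a) - Em T (tp (A k) m) p))
        (∑ p ∈ Px, (Em T (tp (A k) m) p - mom m))
      linarith
    exact absurd hx3 (not_lt.2 (hfin.trans hVx))
  -- the condition on N
  have hcond : ∀ k ∈ Ks, (T₀ * ((2 ^ (k + 2) : ℕ) : ℝ) ^ κ) ^ 2 *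
      (Dm * ((2 ^ (k + 2) : ℕ) : ℝ) ^ 3) ≤ 2 * N + 1 := by
    intro k hk
    obtain ⟨_, hk1, hk2⟩ := mem_filter.1 hk
    refine le_trans ?_ hmain
    have h1 : ((2 ^ (k + 2) : ℕ) : ℝ) = 4 * (2 : ℝ) ^ k := by
      push_cast
      rw [pow_add]
      norm_num
      ring
    have h2 : ((2 : ℝ) ^ k) ^ (2 * κ + 3) ≤ (N : ℝ) ^ (1 / 2 : ℝ) := by
      calc ((2 : ℝ) ^ k) ^ (2 * κ + 3) ≤ ((N : ℝ) ^ c) ^ (2 * κ + 3) :=
            pow_le_pow_left₀ (by positivity) hk2 _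
        _ = (N : ℝ) ^ (1 / 2 : ℝ) := by
            rw [← Real.rpow_natCast, ← Real.rpow_mul (by positivity), hcκ]
    calc (T₀ * ((2 ^ (k + 2) : ℕ) : ℝ) ^ κ) ^ 2 * (Dm * ((2 ^ (k + 2) : ℕ) : ℝ) ^ 3)
        = T₀ ^ 2 * Dm * 4 ^ (2 * κ + 3) * ((2 : ℝ) ^ k) ^ (2 * κ + 3) := by
          rw [h1]
          ring
      _ ≤ _ := mul_le_mul_of_nonneg_left h2 (by positivity)
  have hroE : ∀ k : ℕ, ro ^ k = ((Z k) ^ ε)⁻¹ := by
    intro k
    rw [hro, ← Real.rpow_natCast, ← Real.rpow_mul (by norm_num), ← Real.rpow_neg (hZ0 k).le]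
    simp only [hZ]
    rw [← Real.rpow_natCast, ← Real.rpow_mul (by norm_num)]
    congr 1
    ring
  have hroy : ∀ k ∈ Ks, ro ^ k ≤ (2 : ℝ) ^ ε * y ^ (-ε) := by
    intro k hk
    obtain ⟨_, hk1, hk2⟩ := mem_filter.1 hk
    rw [hroE, Real.rpow_neg hy0.le, ← div_eq_mul_inv, le_div_iff₀ (by positivity), inv_mul_eq_div,
      div_le_iff₀ (by have := hZ0 k; positivity), ← Real.mul_rpow (by norm_num) (hZ0 k).le]
    apply Real.rpow_le_rpow hy0.le _ hε.le
    simp only [hZ]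
    rw [pow_succ] at hk1
    linarith
  -- the events
  have hFcard : ∀ k ∈ Ks, ((Fk k).card : ℝ) ≤ 8 * (B₀ + 1) * L ^ Dm * ro ^ k := by
    intro k hk
    have hck := hcond k hk
    have hZε : 0 < (Z k) ^ (1 + ε) := by have := hZ0 k; positivity
    have h1 : ((Fk k).card : ℝ) * (Z k) ^ (1 + ε) ≤ 4 * (2 * Z k * ((B₀ + 1) * L ^ Dm)) := by
      calc ((Fk k).card : ℝ) * (Z k) ^ (1 + ε) = ∑ a ∈ Fk k, (Z k) ^ (1 + ε) := by
            rw [sum_const, nsmul_eq_mul]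
        _ ≤ ∑ a ∈ Fk k, 4 * ∑ p ∈ P2 k, T p a ^ (2 * hh) :=
            sum_le_sum fun a ha => ((mem_filter.1 ha).2).le
        _ ≤ ∑ a ∈ Box b N, 4 * ∑ p ∈ P2 k, T p a ^ (2 * hh) := by
            apply sum_le_sum_of_subset_of_nonneg (filter_subset _ _)
            intro a _ _
            have : 0 ≤ ∑ p ∈ P2 k, T p a ^ (2 * hh) := sum_nonneg fun p _ => hnn p a
            positivity
        _ = 4 * ∑ p ∈ P2 k, ∑ a ∈ Box b N, T p a ^ (2 * hh) := by
            rw [← mul_sum, sum_comm]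
        _ ≤ 4 * ∑ p ∈ P2 k, (B₀ + 1) * L ^ Dm := by
            apply mul_le_mul_of_nonneg_left _ (by norm_num)
            apply sum_le_sum
            intro p hp
            obtain ⟨h2, h3, h4⟩ := mem_filter.1 hp
            rw [mem_Icc] at h2
            exact h.first hh M le_rfl B₀ hEvB b N (2 ^ (k + 2)) hck p h3 h4 (h2.2.trans
              (Nat.pow_le_pow_right (by norm_num) (by omega)))
        _ ≤ 4 * (2 * Z k * ((B₀ + 1) * L ^ Dm)) := by
            apply mul_le_mul_of_nonneg_left _ (by norm_num)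
            rw [sum_const, nsmul_eq_mul]
            apply mul_le_mul_of_nonneg_right _ (by positivity)
            have h5 := card_le_card (filter_subset (fun p => p.Prime ∧ Pr p) (Icc 1 (2 ^ (k + 1))))
            rw [Nat.card_Icc, Nat.add_sub_cancel] at h5
            have h6 : (((P2 k).card : ℕ) : ℝ) ≤ ((2 ^ (k + 1) : ℕ) : ℝ) := by exact_mod_cast h5
            refine h6.trans (le_of_eq ?_)
            simp only [hZ]
            push_cast
            ring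
    rw [hroE]
    have e4 : (Z k) ^ (1 + ε) = Z k * (Z k) ^ ε := by
      rw [Real.rpow_add (hZ0 k), Real.rpow_one]
    have hZe : 0 < (Z k) ^ ε := by have := hZ0 k; positivity
    rw [← div_eq_mul_inv, le_div_iff₀ hZe]
    have h7 : (((Fk k).card : ℝ) * (Z k) ^ ε) * Z k ≤ (8 * (B₀ + 1) * L ^ Dm) * Z k := by
      calc (((Fk k).card : ℝ) * (Z k) ^ ε) * Z k = ((Fk k).card : ℝ) * (Z k) ^ (1 + ε) := by
            rw [e4]; ring
        _ ≤ _ := h1
        _ = _ := by ring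
    exact le_of_mul_le_mul_right h7 (hZ0 k)
  have hEcard : ∀ k ∈ Ks, ∀ m, m < M → ((Ek k m).card : ℝ) ≤
      68 * (B₀ + 1) * L ^ Dm * ((((k : ℝ) + 2) ^ 2 * ro ^ k) * ro ^ k) := by
    intro k hk m hm
    have hck := hcond k hk
    set Bk : ℝ := (A k) ^ (2 * (m - hh)) * (1 + B₀) with hBk
    have hAk := hA1 k
    have hBk0 : 0 ≤ Bk := by rw [hBk]; positivity
    have hloc : Loc (GF Pr T (tp (A k) m)) (16 * Bk) T₀ κ := by
      apply h.locf (tp (A k) m) m M hm.le (tp_abs (A k) m) Bk hBk0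
      intro p hp hP
      refine (Em_mono T _ (fun z => (A k) ^ (2 * (m - hh)) * (1 + z ^ (2 * hh)))
        (fun z => tp_sq (A k) hAk m hh z) p hp).trans ?_
      rw [Em_lin T _ _ p hp, hBk]
      apply mul_le_mul_of_nonneg_left _ (by positivity)
      linarith [hEvB p hp hP]
    have h3 := maximal hloc b N (k + 2) hck (V k m) (hV0 k m)
    have hZ2β : 0 < (Z k) ^ (2 * β m) := by have := hZ0 k; positivity
    have h4 : V k m ^ 2 = (Z k) ^ (2 * β m) * ((Z k) ^ ε * (Z k) ^ ε) := by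
      simp only [hV]
      rw [← Real.rpow_natCast, ← Real.rpow_mul (hZ0 k).le, ← Real.rpow_add (hZ0 k),
        ← Real.rpow_add (hZ0 k)]
      congr 1
      push_cast
      ring
    have h5 : (16 * Bk + 1) * Z k ≤ 17 * (B₀ + 1) * (Z k) ^ (2 * β m) := by
      have h6 := hAh k m
      have h7 : 1 * Z k ≤ (B₀ + 1) * (Z k * (A k) ^ (2 * (m - hh))) := by
        have h8 : 1 ≤ (A k) ^ (2 * (m - hh)) := one_le_pow₀ hAk
        have h9 := hZ0 k
        have h10 : Z k ≤ Z k * (A k) ^ (2 * (m - hh)) := by nlinarith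
        nlinarith
      calc (16 * Bk + 1) * Z k = 16 * ((B₀ + 1) * (Z k * (A k) ^ (2 * (m - hh)))) + 1 * Z k := by
            rw [hBk]; ring
        _ ≤ 16 * ((B₀ + 1) * (Z k * (A k) ^ (2 * (m - hh)))) +
            (B₀ + 1) * (Z k * (A k) ^ (2 * (m - hh))) := by linarith
        _ = 17 * (B₀ + 1) * (Z k * (A k) ^ (2 * (m - hh))) := by ring
        _ ≤ _ := mul_le_mul_of_nonneg_left h6 (by positivity)
    have h6 : ((Ek k m).card : ℝ) * ((Z k) ^ (2 * β m) * ((Z k) ^ ε * (Z k) ^ ε)) ≤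
        (68 * (B₀ + 1) * L ^ Dm * ((k : ℝ) + 2) ^ 2) * (Z k) ^ (2 * β m) := by
      rw [← h4]
      have h7 := h3
      push_cast at h7
      calc ((Ek k m).card : ℝ) * V k m ^ 2 ≤ ((k : ℝ) + 2) ^ 2 * (16 * Bk + 1) * 2 ^ (k + 2) * L ^ Dm := h7
        _ = 4 * ((k : ℝ) + 2) ^ 2 * L ^ Dm * ((16 * Bk + 1) * Z k) := by
            simp only [hZ]
            ring
        _ ≤ 4 * ((k : ℝ) + 2) ^ 2 * L ^ Dm * (17 * (B₀ + 1) * (Z k) ^ (2 * β m)) :=
            mul_le_mul_of_nonneg_left h5 (by positivity)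
        _ = _ := by ring
    have hZe : 0 < (Z k) ^ ε := by have := hZ0 k; positivity
    have h7 : ((Ek k m).card : ℝ) * ((Z k) ^ ε * (Z k) ^ ε) ≤
        68 * (B₀ + 1) * L ^ Dm * ((k : ℝ) + 2) ^ 2 := by
      have h8 : (((Ek k m).card : ℝ) * ((Z k) ^ ε * (Z k) ^ ε)) * (Z k) ^ (2 * β m) ≤
          (68 * (B₀ + 1) * L ^ Dm * ((k : ℝ) + 2) ^ 2) * (Z k) ^ (2 * β m) := by
        refine le_trans (le_of_eq ?_) h6
        ring
      exact le_of_mul_le_mul_right h8 hZ2β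
    rw [hroE]
    calc ((Ek k m).card : ℝ) = ((Ek k m).card : ℝ) * ((Z k) ^ ε * (Z k) ^ ε) * ((Z k) ^ ε)⁻¹ * ((Z k) ^ ε)⁻¹ := by
          field_simp
      _ ≤ (68 * (B₀ + 1) * L ^ Dm * ((k : ℝ) + 2) ^ 2) * ((Z k) ^ ε)⁻¹ * ((Z k) ^ ε)⁻¹ := by gcongr
      _ = _ := by ring
  -- conclusion
  have hunion : (Ex.card : ℝ) ≤ ∑ k ∈ Ks, (((Fk k).card : ℝ) + ∑ m ∈ range M, ((Ek k m).card : ℝ)) := by
    calc (Ex.card : ℝ) ≤ ((Ks.biUnion (fun k => Fk k ∪ (range M).biUnion (Ek k))).card : ℝ) := by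
          exact_mod_cast card_le_card hsub
      _ ≤ ∑ k ∈ Ks, ((Fk k ∪ (range M).biUnion (Ek k)).card : ℝ) := by exact_mod_cast card_biUnion_le
      _ ≤ _ := by
          apply sum_le_sum
          intro k _
          have h1 : (Fk k ∪ (range M).biUnion (Ek k)).card ≤ (Fk k).card + ∑ m ∈ range M, (Ek k m).card :=
            (card_union_le _ _).trans (Nat.add_le_add_left card_biUnion_le _)
          exact_mod_cast h1
  have hyε : 0 < y ^ (-ε) := by positivity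
  have hsumF : ∑ k ∈ Ks, ((Fk k).card : ℝ) ≤ (8 * (B₀ + 1) * (2 : ℝ) ^ ε / (1 - ro)) * y ^ (-ε) * L ^ Dm := by
    rcases Ks.eq_empty_or_nonempty with h0 | hne
    · rw [h0, sum_empty]
      positivity
    · have h1 := geo ro hr0 hr1 Ks (Ks.min' hne) (fun k hk => Ks.min'_le k hk)
      have h2 := hroy _ (Ks.min'_mem hne)
      calc ∑ k ∈ Ks, ((Fk k).card : ℝ) ≤ ∑ k ∈ Ks, 8 * (B₀ + 1) * L ^ Dm * ro ^ k := sum_le_sum hFcard
        _ = 8 * (B₀ + 1) * L ^ Dm * ∑ k ∈ Ks, ro ^ k := by rw [mul_sum]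
        _ ≤ 8 * (B₀ + 1) * L ^ Dm * (ro ^ (Ks.min' hne) / (1 - ro)) :=
            mul_le_mul_of_nonneg_left h1 (by positivity)
        _ ≤ 8 * (B₀ + 1) * L ^ Dm * (((2 : ℝ) ^ ε * y ^ (-ε)) / (1 - ro)) := by
            apply mul_le_mul_of_nonneg_left _ (by positivity)
            exact div_le_div_of_nonneg_right h2 h1ro.le
        _ = _ := by ring
  have hsumE : ∑ k ∈ Ks, ∑ m ∈ range M, ((Ek k m).card : ℝ) ≤
      (M * (68 * (B₀ + 1) * S * (2 : ℝ) ^ ε)) * y ^ (-ε) * L ^ Dm := by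
    calc ∑ k ∈ Ks, ∑ m ∈ range M, ((Ek k m).card : ℝ)
        ≤ ∑ k ∈ Ks, ∑ m ∈ range M,
            68 * (B₀ + 1) * L ^ Dm * ((((k : ℝ) + 2) ^ 2 * ro ^ k) * ((2 : ℝ) ^ ε * y ^ (-ε))) := by
          apply sum_le_sum
          intro k hk
          apply sum_le_sum
          intro m hm
          refine (hEcard k hk m (mem_range.1 hm)).trans ?_
          have := hroy k hk
          gcongr
      _ = (M * (68 * (B₀ + 1) * (∑ k ∈ Ks, ((k : ℝ) + 2) ^ 2 * ro ^ k) * (2 : ℝ) ^ ε)) * y ^ (-ε) * L ^ Dm := by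
          simp_rw [sum_const, card_range, nsmul_eq_mul]
          rw [← mul_sum, ← mul_sum, ← sum_mul]
          ring
      _ ≤ _ := by
          have := hS Ks
          gcongr
  refine hunion.trans ?_
  rw [sum_add_distrib]
  calc _ ≤ (8 * (B₀ + 1) * (2 : ℝ) ^ ε / (1 - ro)) * y ^ (-ε) * L ^ Dm +
        (M * (68 * (B₀ + 1) * S * (2 : ℝ) ^ ε)) * y ^ (-ε) * L ^ Dm := add_le_add hsumF hsumE
    _ = Cf * y ^ (-ε) * L ^ Dm := by rw [hCf]; ring
    _ ≤ _ := by
        have h1 : (0 : ℝ) ≤ (K₁ : ℝ) ^ ε := by positivity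
        have h2 : (0 : ℝ) ≤ (N₀ : ℝ) ^ ε := by positivity
        have h3 : Cf ≤ (K₁ : ℝ) ^ ε + (N₀ : ℝ) ^ ε + Cf := by linarith
        gcongr

end Pool.Agent.W406.HV
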