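import Mathlib
import Pool.Agent.W406.HV.Master2

set_option autoImplicit false

/-! # Hypersurfaces and double covers of projective spaces -/

namespace Pool.Agent.W406.HV

open Finset

lemma card_nonzero (r p : ℕ) [Fact p.Prime] :
    ((univ.filter (fun v : Fin r → ZMod p => v ≠ 0)).card : ℝ) = (p : ℝ) ^ r - 1 := by
  have h1 : univ.filter (fun v : Fin r → ZMod p => v ≠ 0) = univ.erase 0 := by
    ext v
    simp
  have hp : 1 ≤ p := (Fact.out : p.Prime).one_lt.le
  rw [h1, card_erase_of_mem (mem_univ _), card_univ, Fintype.card_fun, Fintype.card_fin, ZMod.card,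
    Nat.cast_sub (Nat.one_le_pow _ _ hp)]
  push_cast
  rfl

theorem good_hyp (n D : ℕ) : Good (n + 2) D n 1 (fun _ => True) (fun p a => trH a p) := by
  classical
  intro p _ _
  have hp : p.Prime := Fact.out
  have hp2 : (2 : ℝ) ≤ p := by exact_mod_cast hp.two_le
  have hp0 : (0 : ℝ) < p := by linarith
  have hi0 : 0 < 1 / (p : ℝ) := by positivity
  have hi1 : 1 / (p : ℝ) ≤ 1 := by rw [div_le_one hp0]; linarith
  set c : ZMod p → ℝ := fun y => (if y = 0 then 1 else 0) - 1 / (p : ℝ) with hc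
  refine ⟨c, 1 / (p : ℝ), ?_, ?_, ?_, ?_, hi0.le, le_refl _, ?_⟩
  · intro u
    simp only [hc]
    split_ifs
    · rw [abs_of_nonneg (by linarith)]; linarith
    · rw [zero_sub, abs_neg, abs_of_nonneg hi0.le]; exact hi1
  · simp only [hc]
    rw [sum_sub_distrib, sum_ite_eq' univ (0 : ZMod p) (fun _ => (1 : ℝ)), if_pos (mem_univ _), sum_const,
      card_univ, ZMod.card, nsmul_eq_mul]
    field_simp
    ring
  · unfold ej
    have h1 : ∀ u : ZMod p, c u ^ 2 = (if u = 0 then 1 - 2 / (p : ℝ) else 0) + 1 / (p : ℝ) ^ 2 := by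
      intro u
      simp only [hc]
      split_ifs
      · field_simp
        ring
      · field_simp
        ring
    rw [sum_congr rfl (fun u _ => h1 u), sum_add_distrib,
      sum_ite_eq' univ (0 : ZMod p) (fun _ => (1 - 2 / (p : ℝ) : ℝ)), if_pos (mem_univ _), sum_const,
      card_univ, ZMod.card, nsmul_eq_mul]
    field_simp
    ring
  · intro a y
    have ha : (a : ZMod p) ^ D ≠ 0 := pow_ne_zero _ a.ne_zero
    simp only [hc, mul_eq_zero, ha, false_or]
  · intro a
    show trH a p = _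
    unfold trH Sm
    congr 1
    have h1 : (zer a p : ℝ) = ∑ v ∈ univ.filter (fun v : Fin (n + 2) → ZMod p => v ≠ 0),
        (if ev (fun α => (a α : ZMod p)) v = 0 then (1 : ℝ) else 0) := by
      unfold zer
      rw [Nat.card_eq_fintype_card, Fintype.card_subtype, ← sum_filter, filter_filter, sum_const,
        nsmul_eq_mul, mul_one]
    have h2 : ∑ v ∈ univ.filter (fun v : Fin (n + 2) → ZMod p => v ≠ 0),
        c (ev (fun α => (a α : ZMod p)) v) = (zer a p : ℝ) - ((p : ℝ) ^ (n + 2) - 1) / p := by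
      simp only [hc]
      rw [sum_sub_distrib, ← h1, sum_const, nsmul_eq_mul, card_nonzero]
      ring
    rw [h2, ZMod.card]
    have hp1 : (p : ℝ) - 1 ≠ 0 := by linarith
    field_simp
    ring

theorem good_dbl (n e : ℕ) : Good (n + 1) (2 * e) n 0 (fun p => p ≠ 2) (fun p a => trD a p) := by
  classical
  intro p _ hne
  have hp : p.Prime := Fact.out
  have hp2 : (2 : ℝ) ≤ p := by exact_mod_cast hp.two_le
  have hp0 : (0 : ℝ) < p := by linarith
  have hi0 : 0 < 1 / (p : ℝ) := by positivity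
  have hF : ringChar (ZMod p) ≠ 2 := by
    rw [ZMod.ringChar_zmod_n]
    exact hne
  set c : ZMod p → ℝ := fun y => (quadraticChar (ZMod p) y : ℝ) with hc
  have hcsq : ∀ u : ZMod p, c u ^ 2 = if u = 0 then 0 else 1 := by
    intro u
    simp only [hc]
    split_ifs with h
    · rw [h]; simp
    · have := quadraticChar_sq_one h
      exact_mod_cast this
  refine ⟨c, 0, ?_, ?_, ?_, ?_, le_refl _, hi0.le, ?_⟩
  · intro u
    have h1 : |c u| ^ 2 ≤ 1 := by
      rw [sq_abs, hcsq]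
      split_ifs <;> norm_num
    have h2 := abs_nonneg (c u)
    nlinarith
  · simp only [hc]
    have := quadraticChar_sum_zero hF
    exact_mod_cast this
  · unfold ej
    have h1 : ∀ u : ZMod p, c u ^ 2 = 1 - (if u = 0 then 1 else 0) := by
      intro u
      rw [hcsq]
      split_ifs <;> norm_num
    rw [sum_congr rfl (fun u _ => h1 u), sum_sub_distrib,
      sum_ite_eq' univ (0 : ZMod p) (fun _ => (1 : ℝ)), if_pos (mem_univ _), sum_const,
      card_univ, ZMod.card, nsmul_eq_mul]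
    field_simp
  · intro a y
    simp only [hc]
    rw [map_mul]
    have ha : (a : ZMod p) ^ e ≠ 0 := pow_ne_zero _ a.ne_zero
    have h1 : quadraticChar (ZMod p) ((a : ZMod p) ^ (2 * e)) = 1 := by
      rw [mul_comm, pow_mul]
      exact quadraticChar_sq_one' ha
    rw [h1, one_mul]
  · intro a
    show trD a p = _
    unfold trD Sm
    congr 1
    have h1 : (dzer a p : ℝ) = ∑ v ∈ univ.filter (fun v : Fin (n + 1) → ZMod p => v ≠ 0),
        (c (ev (fun α => (a α : ZMod p)) v) + 1) := by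
      have h3 : dzer a p = ∑ v ∈ univ.filter (fun v : Fin (n + 1) → ZMod p => v ≠ 0),
          (univ.filter (fun w : ZMod p => w ^ 2 = ev (fun α => (a α : ZMod p)) v)).card := by
        unfold dzer
        rw [Nat.card_eq_fintype_card, Fintype.card_subtype, ← univ_product_univ]
        rw [card_filter, sum_product]
        rw [sum_filter]
        refine sum_congr rfl fun v _ => ?_
        by_cases hv : v = 0
        · simp [hv]
        · rw [if_pos hv, card_filter]
          refine sum_congr rfl fun w _ => ?_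
          simp [hv]
      rw [h3]
      push_cast
      refine sum_congr rfl fun v _ => ?_
      have h4 := quadraticChar_card_sqrts hF (ev (fun α => (a α : ZMod p)) v)
      have h5 : ({w : ZMod p | w ^ 2 = ev (fun α => (a α : ZMod p)) v} : Set (ZMod p)).toFinset =
          univ.filter (fun w : ZMod p => w ^ 2 = ev (fun α => (a α : ZMod p)) v) := by
        ext w
        simp
      rw [h5] at h4
      simp only [hc]
      exact_mod_cast h4
    rw [h1, sum_add_distrib, sum_const, nsmul_eq_mul, card_nonzero, ZMod.card]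
    have hp1 : (p : ℝ) - 1 ≠ 0 := by linarith
    field_simp
    ring

theorem hyp_main (n D : ℕ) (hn : 1 ≤ n) (ε : ℝ) (hε : 0 < ε) :
    ∃ c C : ℝ, 0 < c ∧ ∀ (N : ℕ) (b : Ix (n + 2) D → ℤ) (y : ℝ), 1 ≤ y →
      ({a : Ix (n + 2) D → ℤ | (∀ α, |a α - b α| ≤ N) ∧ ∃ x : ℕ, y ≤ x ∧ (x : ℝ) ≤ (N : ℝ) ^ c ∧
        ∃ m : ℕ, m < 2 * ((D + 1) / 2) ∧
        (x : ℝ) ^ (max (1 / 2) ((m : ℝ) / ((2 * ((D + 1) / 2) : ℕ) : ℝ)) + ε) <
          |∑ p ∈ (Icc 1 x).filter Nat.Prime, (trH a p ^ m - mom m)|}.ncard : ℝ) ≤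
        C * y ^ (-ε) * (2 * N + 1) ^ (Fintype.card (Ix (n + 2) D)) := by
  classical
  obtain ⟨c, C, hc, h⟩ := master2 (n + 2) D n 1 hn (by omega) (fun _ => True) (fun p a => trH a p)
    (good_hyp n D) ε hε
  refine ⟨c, C, hc, fun N b y hy => ?_⟩
  refine le_trans (le_of_eq ?_) (h N b y hy)
  rw [← Set.ncard_coe_finset]
  congr 2
  ext a
  simp only [Set.mem_ofPred_eq, coe_filter, mem_Box, and_true]

theorem dbl_main (n e : ℕ) (hn : 1 ≤ n) (ε : ℝ) (hε : 0 < ε) :
    ∃ c C : ℝ, 0 < c ∧ ∀ (N : ℕ) (b : Ix (n + 1) (2 * e) → ℤ) (y : ℝ), 1 ≤ y →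
      ({a : Ix (n + 1) (2 * e) → ℤ | (∀ α, |a α - b α| ≤ N) ∧
        ∃ x : ℕ, y ≤ x ∧ (x : ℝ) ≤ (N : ℝ) ^ c ∧ ∃ m : ℕ, m < 2 * e ∧
        (x : ℝ) ^ (max (1 / 2) ((m : ℝ) / ((2 * e : ℕ) : ℝ)) + ε) <
          |∑ p ∈ (Icc 1 x).filter (fun p => p.Prime ∧ p ≠ 2), (trD a p ^ m - mom m)|}.ncard : ℝ) ≤
        C * y ^ (-ε) * (2 * N + 1) ^ (Fintype.card (Ix (n + 1) (2 * e))) := by
  classical
  obtain ⟨c, C, hc, h⟩ := master2 (n + 1) (2 * e) n 0 hn (by omega) (fun p => p ≠ 2)
    (fun p a => trD a p) (good_dbl n e) ε hε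
  have h2e : 2 * ((2 * e + 1) / 2) = 2 * e := by omega
  rw [h2e] at h
  refine ⟨c, C, hc, fun N b y hy => ?_⟩
  refine le_trans (le_of_eq ?_) (h N b y hy)
  rw [← Set.ncard_coe_finset]
  congr 2
  ext a
  simp only [Set.mem_ofPred_eq, coe_filter, mem_Box]
  refine and_congr_right fun _ => exists_congr fun x => and_congr_right fun _ => and_congr_right fun _ =>
    exists_congr fun m => and_congr_right fun _ => ?_
  have hd : ∀ (i₁ i₂ : DecidablePred (fun p : ℕ => p.Prime ∧ p ≠ 2)) (f : ℕ → ℝ),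
      ∑ p ∈ @Finset.filter ℕ (fun p : ℕ => p.Prime ∧ p ≠ 2) i₁ (Icc 1 x), f p =
      ∑ p ∈ @Finset.filter ℕ (fun p : ℕ => p.Prime ∧ p ≠ 2) i₂ (Icc 1 x), f p := by
    intro i₁ i₂ f
    apply sum_congr _ (fun _ _ => rfl)
    ext p
    simp only [mem_filter]
  rw [hd _ _ (fun p => trD a p ^ m - mom m)]

end Pool.Agent.W406.HV
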